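import Pool.Agent.H97.NF.Model
import Pool.Agent.H97.ProjModel

/-!
# The charts of the model are regular
-/

set_option autoImplicit false
set_option linter.unusedSectionVars false

namespace Pool.Agent.H97.NF

open Module IsLocalRing

variable {A : Type} [CommRing A] [IsDedekindDomain A] {F : Type} [Field F] [Algebra A F]
  [IsFractionRing A F] {ι : Type} [Fintype ι] [DecidableEq ι] {K : Type} [Field K] [Algebra F K]
  [Algebra A K] [IsScalarTower A F K] {S : Matrix ι ι F} {L : Submodule A (ι → F)} {δ : A}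
  (t : ι → K) (pk : ∀ (P : Ideal A) [P.IsPrime], Pack S L δ P)
  {MI WI : Type} (mg : MI → K) (wg : WI → K)

/-- The homogeneous coordinates of the model. -/
def gg : WI × MI → K := fun x => wg x.1 * mg x.2

/-- The data of the model. -/
structure Gens : Prop where
  M : Submodule.span ℤ (Set.range mg) = (MM t L).restrictScalars ℤ
  W : Submodule.span ℤ (Set.range wg) = (WW t pk).restrictScalars ℤ
  m0 : ∀ i, mg i ≠ 0
  w0 : ∀ i, wg i ≠ 0

variable {t pk mg wg} (hG : Gens t pk mg wg) (a : WI) (b : MI)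
include hG

theorem Gens.gg_ne_zero (x : WI × MI) : gg mg wg x ≠ 0 := mul_ne_zero (hG.w0 _) (hG.m0 _)

theorem Gens.mg_mem (i : MI) : mg i ∈ MM t L := by
  have h : mg i ∈ Submodule.span ℤ (Set.range mg) := Submodule.subset_span ⟨i, rfl⟩
  rw [hG.M] at h
  exact h

theorem Gens.wg_mem (i : WI) : wg i ∈ WW t pk := by
  have h : wg i ∈ Submodule.span ℤ (Set.range wg) := Submodule.subset_span ⟨i, rfl⟩
  rw [hG.W] at h
  exact h

theorem Gens.mul_div_mem {w m : K} (hw : w ∈ WW t pk) (hm : m ∈ MM t L) :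
    w * m / (wg a * mg b) ∈ chartRing (gg mg wg) (a, b) := by
  have hw' : w ∈ Submodule.span ℤ (Set.range wg) := by rw [hG.W]; exact hw
  have hm' : m ∈ Submodule.span ℤ (Set.range mg) := by rw [hG.M]; exact hm
  clear hw hm
  induction hw' using Submodule.span_induction with
  | mem x hx =>
    obtain ⟨c, rfl⟩ := hx
    induction hm' using Submodule.span_induction with
    | mem y hy =>
      obtain ⟨d, rfl⟩ := hy
      exact Algebra.subset_adjoin ⟨(c, d), rfl⟩
    | zero => rw [mul_zero, zero_div]; exact Subalgebra.zero_mem _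
    | add x y _ _ hx hy => rw [mul_add, add_div]; exact Subalgebra.add_mem _ hx hy
    | smul n x _ hx => rw [mul_smul_comm, smul_div_assoc]; exact Subalgebra.smul_mem _ hx n
  | zero => rw [zero_mul, zero_div]; exact Subalgebra.zero_mem _
  | add x y _ _ hx hy => rw [add_mul, add_div]; exact Subalgebra.add_mem _ hx hy
  | smul n x _ hx => rw [smul_mul_assoc, smul_div_assoc]; exact Subalgebra.smul_mem _ hx n

theorem Gens.algebraMap_mem (α : A) : algebraMap A K α ∈ chartRing (gg mg wg) (a, b) := by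
  have h := hG.mul_div_mem a b ((WW t pk).smul_mem α (hG.wg_mem a)) (hG.mg_mem b)
  have h1 := hG.w0 a
  have h2 := hG.m0 b
  rw [Algebra.smul_def] at h
  have h3 : algebraMap A K α * wg a * mg b / (wg a * mg b) = algebraMap A K α := by
    field_simp
  rwa [h3] at h

theorem Gens.div_mem_M {m : K} (hm : m ∈ MM t L) : m / mg b ∈ chartRing (gg mg wg) (a, b) := by
  have h := hG.mul_div_mem a b (hG.wg_mem a) hm
  have h1 := hG.w0 a
  rwa [mul_div_mul_left _ _ h1] at h

theorem Gens.div_mem_W {w : K} (hw : w ∈ WW t pk) : w / wg a ∈ chartRing (gg mg wg) (a, b) := by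
  have h := hG.mul_div_mem a b hw (hG.mg_mem b)
  have h1 := hG.m0 b
  rwa [mul_div_mul_right _ _ h1] at h

/-- The structure morphism. -/
noncomputable def Gens.phi : A →+* chartRing (gg mg wg) (a, b) :=
  (algebraMap A K).codRestrict (chartRing (gg mg wg) (a, b)) (hG.algebraMap_mem a b)

/-- **The charts are regular.** -/
theorem Gens.isRegularLocalRing (hS : L.FG) (hδ : δ ≠ 0) (hq : qf S t = 0)
    [IsFractionRing (chartRing (gg mg wg) (a, b)) K]
    {κ : Type} [Finite κ] {x : κ → K} (hx : AlgebraicIndependent F x)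
    (hr : Nat.card ι ≤ Nat.card κ + 2)
    (𝔮 : Ideal (chartRing (gg mg wg) (a, b))) [h𝔮 : 𝔮.IsPrime] :
    IsRegularLocalRing (Localization.AtPrime 𝔮) := by
  classical
  let R0 := chartRing (gg mg wg) (a, b)
  let OO : Subalgebra R0 K := Localization.subalgebra.ofField K 𝔮.primeCompl
    𝔮.primeCompl_le_nonZeroDivisors
  have hOO : IsLocalization.AtPrime OO 𝔮 :=
    Localization.subalgebra.isLocalization_ofField K 𝔮.primeCompl _
  let O : Subring K := OO.toSubring
  have hOmem : ∀ y : K, y ∈ O ↔ ∃ c s : R0, ∃ _ : s ∈ 𝔮.primeCompl, y = (c : K) * (s : K)⁻¹ :=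
    fun y => Iff.rfl
  have hR0O : ∀ y : K, y ∈ R0 → y ∈ O := by
    intro y hy
    rw [hOmem]
    refine ⟨⟨y, hy⟩, 1, 𝔮.primeCompl.one_mem, ?_⟩
    simp
  have hinv : ∀ s : R0, s ∉ 𝔮 → (s : K)⁻¹ ∈ O := by
    intro s hs
    rw [hOmem]
    exact ⟨1, s, hs, by simp⟩
  have hloc : IsLocalRing O := IsLocalization.AtPrime.isLocalRing OO 𝔮
  have hNU : ∀ s : R0, s ∈ 𝔮 → NU O (s : K) := by
    intro s hs
    by_contra hcon
    obtain ⟨h1, h2⟩ := inv_mem_of_not_NU hcon
    rw [hOmem] at h2
    obtain ⟨c, s', hs', h3⟩ := h2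
    have hs'0 : (s' : K) ≠ 0 := by
      intro h0
      apply hs'
      have : s' = 0 := Subtype.ext h0
      rw [this]; exact 𝔮.zero_mem
    apply hs'
    have h4 : s' = s * c := by
      apply Subtype.ext
      rw [Subalgebra.coe_mul]
      have h5 : (s : K) * ((c : K) * (s' : K)⁻¹) = 1 := by rw [← h3, mul_inv_cancel₀ h1]
      field_simp at h5
      exact h5.symm
    rw [h4]
    exact 𝔮.mul_mem_right _ hs
  suffices hreg : IsRegularLocalRing O by
    have e : OO ≃+* Localization.AtPrime 𝔮 :=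
      (IsLocalization.algEquiv 𝔮.primeCompl OO (Localization.AtPrime 𝔮)).toRingEquiv
    exact IsRegularLocalRing.of_ringEquiv (R := O) e
  let P : Ideal A := 𝔮.comap (hG.phi a b)
  have hP : P.IsPrime := Ideal.comap_isPrime _ _
  have hphi : ∀ α : A, ((hG.phi a b α : R0) : K) = algebraMap A K α := fun α => rfl
  have hAO : ∀ α : A, algebraMap A K α ∈ O := fun α => hR0O _ (hG.algebraMap_mem a b α)
  have hAinv : ∀ α : A, α ∉ P → (algebraMap A K α)⁻¹ ∈ O := fun α hα => hinv (hG.phi a b α) hα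
  have hAne : ∀ α : A, α ∉ P → algebraMap A K α ≠ 0 := by
    intro α hα h0
    apply hα
    have : hG.phi a b α = 0 := Subtype.ext h0
    show hG.phi a b α ∈ 𝔮
    rw [this]; exact 𝔮.zero_mem
  let p := pk P
  have hDO : ∀ d : DP F P, algebraMap (DP F P) K d ∈ O := by
    intro d
    obtain ⟨α, u, hu, hd⟩ := (mem_DP F P).mp d.2
    have h1 : algebraMap (DP F P) K d = algebraMap A K α * (algebraMap A K u)⁻¹ := by
      rw [IsScalarTower.algebraMap_apply (DP F P) F K, IsScalarTower.algebraMap_apply A F K,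
        IsScalarTower.algebraMap_apply A F K u, ← map_inv₀, ← map_mul, ← hd]
      rfl
    rw [h1]
    exact O.mul_mem (hAO α) (hAinv u hu)
  have hmain := local_regular (O := O) p.ld.a0 p.ld.b p.ld.a1 p.ϖ (p.ld.z t) (mg b) (wg a)
    R0.toSubring hDO ?_ p.ld.nd0 p.ld.nd1 p.unif (p.ld.totq_z t hq) ?_ ?_ ?_ ?_
    (p.ld.mem_span_z t (hG.mg_mem b)) (hG.m0 b) (mem_N_of_mem_WW t pk (hG.wg_mem a)) (hG.w0 a) ?_ ?_
  · exact hmain
  · -- `ϖ` is a nonunit
    obtain ⟨α, hα, u, hu, h1⟩ := p.hϖ
    have h2 : algebraMap (DP F P) K p.ϖ = (algebraMap A K u)⁻¹ * algebraMap A K α := by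
      have h3 := congrArg (algebraMap (DP F P) K) h1
      rw [map_mul, ← IsScalarTower.algebraMap_apply A (DP F P) K,
        ← IsScalarTower.algebraMap_apply A (DP F P) K] at h3
      rw [← h3, ← mul_assoc, inv_mul_cancel₀ (hAne u hu), one_mul]
    rw [h2]
    exact NU.mul (hAinv u hu) (hAO α) (hNU (hG.phi a b α) hα)
  · intro y
    obtain ⟨c, d, _, hcd⟩ := IsFractionRing.div_surjective (A := R0) y
    exact ⟨c, hR0O _ c.2, d, hR0O _ d.2, hcd.symm⟩
  · rw [p.ld.card]
    have h1 : AlgebraicIndependent (DP F P) x :=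
      hx.restrictScalars (FaithfulSMul.algebraMap_injective (DP F P) F)
    have h2 := h1.cardinalMk_le_trdeg
    rw [← Nat.cast_card] at h2
    calc (Nat.card ι : Cardinal.{0}) ≤ ((Nat.card κ + 2 : ℕ) : Cardinal.{0}) := by
          exact_mod_cast hr
      _ = (Nat.card κ : Cardinal.{0}) + 2 := by push_cast; rfl
      _ ≤ Algebra.trdeg (DP F P) K + 2 := by gcongr
  · intro y hy
    obtain ⟨c, s, hs, h1⟩ := (hOmem y).mp hy
    refine ⟨c, c.2, s, s.2, ?_, hinv s hs, h1⟩
    intro h0
    apply hs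
    have : s = 0 := Subtype.ext h0
    rw [this]; exact 𝔮.zero_mem
  · intro y hy
    have hy' : y ∈ chartRing (gg mg wg) (a, b) := hy
    clear hy
    unfold chartRing at hy'
    induction hy' using Algebra.adjoin_induction with
    | mem y hy =>
      obtain ⟨⟨c, d⟩, rfl⟩ := hy
      apply Subring.subset_closure
      refine ⟨wg c, mem_N_of_mem_WW t pk (hG.wg_mem c), mg d, p.ld.mem_span_z t (hG.mg_mem d), ?_⟩
      show wg c * mg d / (wg a * mg b) = _
      rw [mul_div_mul_comm]
    | algebraMap n => simp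
    | add x y _ _ hx hy => exact Subring.add_mem _ hx hy
    | mul x y _ _ hx hy => exact Subring.mul_mem _ hx hy
  · intro m hm
    have h1 : m ∈ satD P (DP F P) (MM t L) := by
      refine (Submodule.span_le.mpr ?_) hm
      rintro _ ⟨s, rfl⟩
      exact p.ld.z_mem_sat t hS s
    obtain ⟨u, hu, hum⟩ := h1
    have h2 := hR0O _ (hG.div_mem_M a b hum)
    have h3 : m / mg b = (algebraMap A K u)⁻¹ * (u • m / mg b) := by
      rw [Algebra.smul_def, mul_div_assoc, ← mul_assoc, inv_mul_cancel₀ (hAne u hu), one_mul]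
    rw [h3]
    exact O.mul_mem (hAinv u hu) h2
  · intro w hw
    obtain ⟨u, hu, hum⟩ := N_le_sat_WW t pk (P := P) hS hδ hw
    have h2 := hR0O _ (hG.div_mem_W a b hum)
    have h3 : w / wg a = (algebraMap A K u)⁻¹ * (u • w / wg a) := by
      rw [Algebra.smul_def, mul_div_assoc, ← mul_assoc, inv_mul_cancel₀ (hAne u hu), one_mul]
    rw [h3]
    exact O.mul_mem (hAinv u hu) h2

end Pool.Agent.H97.NF
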