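import Pool.Agent.H96.RegHeight

/-!
# Regularity of local rings of subrings of a field, over a regular base
-/

set_option autoImplicit false

namespace Pool.Agent.H97.NF

open IsLocalRing Module
open Pool.Agent.H96.Reg (IndepAt)

/-- Elements independent in the cotangent space of a regular local ring generate a prime ideal of
height at least their number. -/
theorem height_span_ge {R : Type*} [CommRing R] [IsRegularLocalRing R] : ∀ {c : ℕ}
    (f : Fin c → R) (hf : ∀ i, f i ∈ maximalIdeal R)
    (_ : LinearIndependent (ResidueField R)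
      (fun i => (maximalIdeal R).toCotangent ⟨f i, hf i⟩ : Fin c → CotangentSpace R)),
    (Ideal.span (Set.range f)).IsPrime ∧ (c : ℕ∞) ≤ (Ideal.span (Set.range f)).height := by
  intro c
  induction c with
  | zero =>
    intro f hf hli
    have := Pool.Agent.H96.Reg.isDomain_of_isRegularLocalRing R
    refine ⟨?_, by simp⟩
    have : Set.range f = ∅ := Set.range_eq_empty f
    rw [this, Ideal.span_empty]
    exact Ideal.isPrime_bot
  | succ c ih =>
    intro f hf hli
    have hprime : (Ideal.span (Set.range f)).IsPrime := by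
      have hreg := Pool.Agent.H97.isRegularLocalRing_quotient f hf hli
      have hdom := Pool.Agent.H96.Reg.isDomain_of_isRegularLocalRing (R ⧸ Ideal.span (Set.range f))
      exact (Ideal.Quotient.isDomain_iff_prime _).mp hdom
    obtain ⟨hp, hh⟩ := ih (fun i => f i.castSucc) (fun i => hf _)
      (hli.comp Fin.castSucc (Fin.castSucc_injective c))
    have hle : Ideal.span (Set.range fun i : Fin c => f i.castSucc) ≤ Ideal.span (Set.range f) := by
      apply Ideal.span_mono
      rintro _ ⟨i, rfl⟩
      exact ⟨i.castSucc, rfl⟩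
    have hlt : Ideal.span (Set.range fun i : Fin c => f i.castSucc) < Ideal.span (Set.range f) := by
      refine lt_of_le_of_ne hle ?_
      intro heq
      have hmem : f (Fin.last c) ∈ Ideal.span (Set.range fun i : Fin c => f i.castSucc) := by
        rw [heq]
        exact Ideal.subset_span ⟨_, rfl⟩
      rw [Ideal.mem_span_range_iff_exists_fun] at hmem
      obtain ⟨r, hr⟩ := hmem
      have h1 : (∑ i : Fin c, r i • (⟨f i.castSucc, hf _⟩ : maximalIdeal R)) -
          ⟨f (Fin.last c), hf _⟩ = 0 := by
        apply Subtype.ext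
        simp only [AddSubgroupClass.coe_sub, AddSubmonoidClass.coe_finsetSum, ZeroMemClass.coe_zero]
        rw [← hr, sub_eq_zero]
        rfl
      have h2 := congrArg (maximalIdeal R).toCotangent h1
      rw [map_sub, map_sum, map_zero] at h2
      rw [Fintype.linearIndependent_iff] at hli
      have h3 := hli (Fin.snoc (fun i => residue R (r i)) (-1)) (by
        rw [Fin.sum_univ_castSucc]
        simp only [Fin.snoc_castSucc, Fin.snoc_last, neg_smul, one_smul]
        rw [← sub_eq_add_neg, ← h2]
        congr 1) (Fin.last c)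
      rw [Fin.snoc_last] at h3
      exact one_ne_zero (neg_eq_zero.mp h3)
    refine ⟨hprime, ?_⟩
    have h4 := Ideal.height_strict_mono_of_isPrime hlt
    push_cast
    exact (Order.add_one_le_of_lt (lt_of_le_of_lt hh h4))

/-- **Regularity from relations, local form.** -/
theorem isRegularLocalRing_of_surjective {S B : Type*} [CommRing S] [IsRegularRing S] [CommRing B]
    [IsDomain B] (π : S →+* B) (hπ : Function.Surjective π) {c : ℕ} (f : Fin c → S)
    (hf : ∀ k, π (f k) = 0) (hht : (RingHom.ker π).height ≤ c)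
    (q : Ideal B) [q.IsPrime] (hq : IndepAt f (q.comap π)) :
    IsRegularLocalRing (Localization.AtPrime q) := by
  classical
  set P : Ideal S := RingHom.ker π with hP
  have hPprime : P.IsPrime := RingHom.ker_isPrime π
  set Q : Ideal S := q.comap π with hQ
  have hQprime : Q.IsPrime := Ideal.comap_isPrime π q
  have hPQ : P ≤ Q := by
    intro x hx
    show π x ∈ q
    rw [show π x = 0 from hx]
    exact q.zero_mem
  have hfQ : ∀ k, f k ∈ Q := fun k => hPQ (hf k)
  let R := Localization.AtPrime Q
  let f' : Fin c → R := fun i => algebraMap S R (f i)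
  have hf' : ∀ i, f' i ∈ maximalIdeal R := fun i =>
    (IsLocalization.AtPrime.to_map_mem_maximal_iff R Q (f i)).mpr (hfQ i)
  have hli := Pool.Agent.H96.Reg.linearIndependent_of_indepAt f Q hq hf'
  obtain ⟨hJp, hJh⟩ := height_span_ge f' hf' hli
  have hreg := Pool.Agent.H97.isRegularLocalRing_quotient f' hf' hli
  -- the map of local rings
  have hM : Submonoid.map π Q.primeCompl = q.primeCompl := by
    ext x
    constructor
    · rintro ⟨y, hy, rfl⟩
      exact hy
    · intro hx
      obtain ⟨y, rfl⟩ := hπ x
      exact ⟨y, hx, rfl⟩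
  have hle : Q.primeCompl ≤ q.primeCompl.comap π := by
    rw [← hM]; exact Submonoid.le_comap_map _
  let φ : R →+* Localization.AtPrime q := IsLocalization.map (Localization.AtPrime q) π hle
  have hφ : Function.Surjective φ := by
    have : IsLocalization (Submonoid.map π Q.primeCompl) (Localization.AtPrime q) := by
      rw [hM]; infer_instance
    exact IsLocalization.map_surjective_of_surjective Q.primeCompl R (Localization.AtPrime q) hπ
  have hker : RingHom.ker φ = P.map (algebraMap S R) :=
    IsLocalization.ker_map (Localization.AtPrime q) π hM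
  have hdisj : Disjoint (Q.primeCompl : Set S) (P : Set S) := by
    rw [Set.disjoint_left]
    intro x hx hxP
    exact hx (hPQ hxP)
  have hkh : (RingHom.ker φ).height ≤ c := by
    rw [hker, IsLocalization.height_map_of_disjoint Q.primeCompl P hdisj]
    exact hht
  have hkp : (RingHom.ker φ).IsPrime := RingHom.ker_isPrime φ
  have hJk : Ideal.span (Set.range f') ≤ RingHom.ker φ := by
    rw [Ideal.span_le]
    rintro _ ⟨i, rfl⟩
    show φ (algebraMap S R (f i)) = 0
    rw [IsLocalization.map_eq, hf, map_zero]
  have hJk' : RingHom.ker φ = Ideal.span (Set.range f') := by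
    by_contra hne
    have hlt : Ideal.span (Set.range f') < RingHom.ker φ := lt_of_le_of_ne hJk (Ne.symm hne)
    have h4 := Ideal.height_strict_mono_of_isPrime hlt
    exact absurd (lt_of_le_of_lt hJh h4) (not_lt.mpr hkh)
  let e := RingHom.quotientKerEquivOfSurjective hφ
  have e' : (R ⧸ Ideal.span (Set.range f')) ≃+* (R ⧸ RingHom.ker φ) :=
    Ideal.quotEquivOfEq hJk'.symm
  exact IsRegularLocalRing.of_ringEquiv (e'.trans e)

open MvPolynomial in
/-- The height of the kernel of an evaluation is at most the number of variables outside a set of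
variables with algebraically independent images. -/
theorem height_ker_le {D : Type*} [CommRing D] [IsDomain D] {σ : Type*} [Finite σ] {B : Type*}
    [CommRing B] [IsDomain B] [Algebra D B]
    (π : MvPolynomial σ D →ₐ[D] B) (T : Set σ)
    (hT : AlgebraicIndependent D (fun t : T => π (X (t : σ)))) :
    (RingHom.ker (π : MvPolynomial σ D →+* B)).height ≤ Nat.card (Tᶜ : Set σ) := by
  classical
  let e : σ ≃ (↥(Tᶜ : Set σ)) ⊕ (↥T) := ((Equiv.sumComm _ _).trans (Equiv.Set.sumCompl T)).symm
  let E : MvPolynomial σ D ≃ₐ[D] MvPolynomial (↥(Tᶜ : Set σ)) (MvPolynomial (↥T) D) :=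
    (renameEquiv D e).trans (sumAlgEquiv D _ _)
  have hprime : (RingHom.ker (π : MvPolynomial σ D →+* B)).IsPrime := RingHom.ker_isPrime _
  have h1 : ((RingHom.ker (π : MvPolynomial σ D →+* B)).comap (E.symm.toRingEquiv : _ ≃+* _)).height =
      (RingHom.ker (π : MvPolynomial σ D →+* B)).height := RingEquiv.height_comap _ _
  rw [← h1]
  have : ((RingHom.ker (π : MvPolynomial σ D →+* B)).comap (E.symm.toRingEquiv : _ ≃+* _)).IsPrime :=
    Ideal.comap_isPrime _ _
  apply Pool.Agent.H96.Reg.height_le_of_comap_C
  intro a ha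
  have h2 : π (E.symm (C a)) = 0 := ha
  have h3 : E.symm (C a) = rename (Subtype.val) a := by
    rw [AlgEquiv.symm_apply_eq]
    show C a = (sumAlgEquiv D _ _) (renameEquiv D e (rename Subtype.val a))
    rw [renameEquiv_apply, rename_rename]
    have h4 : (e ∘ Subtype.val : ↥T → _) = Sum.inr := by
      ext t
      simp only [Function.comp_apply]
      rw [Equiv.symm_apply_eq]
      simp
    rw [h4]
    have h5 := congrArg (fun φ => φ a)
      (sumAlgEquiv_comp_rename_inr (R := D) (S₁ := ↥(Tᶜ : Set σ)) (S₂ := ↥T))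
    simpa using h5.symm
  rw [h3] at h2
  have h6 : aeval (fun t : T => π (X (t : σ))) a = 0 := by
    rw [← h2]
    have h7 : (aeval (fun t : T => π (X (t : σ)))) =
        π.comp (rename (Subtype.val : T → σ)) := by
      apply MvPolynomial.algHom_ext
      intro t
      simp
    exact congrFun (congrArg DFunLike.coe h7) a
  exact (injective_iff_map_eq_zero _).mp hT a h6

open MvPolynomial in
/-- **Regularity from relations for a local subring of a field.** -/
theorem isRegularLocalRing_subring {K : Type} [Field K] {D : Type} [CommRing D]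
    [IsDedekindDomain D] [Algebra D K] [FaithfulSMul D K] (O : Subring K) [IsLocalRing O]
    {σ : Type} [Finite σ] {c : ℕ} (x : σ → K) (hxO : ∀ s, x s ∈ O)
    (hD : ∀ d : D, algebraMap D K d ∈ O)
    (hloc : ∀ y ∈ O, ∃ a ∈ Algebra.adjoin D (Set.range x), ∃ b ∈ Algebra.adjoin D (Set.range x),
      b ≠ 0 ∧ b⁻¹ ∈ O ∧ y = a * b⁻¹)
    (hfrac : ∀ y : K, ∃ a ∈ O, ∃ b ∈ O, y = a / b)
    (f : Fin c → MvPolynomial σ D) (hf : ∀ k, aeval x (f k) = 0)
    (htr : (Nat.card σ : Cardinal.{0}) ≤ Algebra.trdeg D K + c)
    (hind : ∀ (Q : Ideal (MvPolynomial σ D)) [Q.IsPrime],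
      (∀ p, p ∈ Q ↔ (aeval x p = 0 ∨ (aeval x p)⁻¹ ∉ O)) → IndepAt f Q) :
    IsRegularLocalRing O := by
  classical
  set B := Algebra.adjoin D (Set.range x) with hB
  have hBO : ∀ y ∈ B, y ∈ O := by
    intro y hy
    induction hy using Algebra.adjoin_induction with
    | mem y hy => obtain ⟨s, rfl⟩ := hy; exact hxO s
    | algebraMap d => exact hD d
    | add y z _ _ hy hz => exact O.add_mem hy hz
    | mul y z _ _ hy hz => exact O.mul_mem hy hz
  let ι : B →+* O := (B.val : B →+* K).codRestrict O (fun b => hBO _ b.2)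
  have hιv : ∀ b : B, ((ι b : O) : K) = b := fun _ => rfl
  have hunit : ∀ y : O, IsUnit y ↔ (y : K) ≠ 0 ∧ (y : K)⁻¹ ∈ O := by
    intro y
    constructor
    · rintro ⟨u, rfl⟩
      have h1 : ((u : O) : K) * ((u⁻¹ : Oˣ) : O) = 1 := by
        rw [← Subring.coe_mul, Units.mul_inv]
        rfl
      have h0 : ((u : O) : K) ≠ 0 := left_ne_zero_of_mul_eq_one h1
      refine ⟨h0, ?_⟩
      rw [← eq_inv_of_mul_eq_one_right h1]
      exact ((u⁻¹ : Oˣ) : O).2
    · rintro ⟨h0, h1⟩
      exact IsUnit.of_mul_eq_one ⟨(y : K)⁻¹, h1⟩ (Subtype.ext (mul_inv_cancel₀ h0))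
  have hmax : ∀ y : O, y ∈ maximalIdeal O ↔ ((y : K) = 0 ∨ (y : K)⁻¹ ∉ O) := by
    intro y
    rw [mem_maximalIdeal, mem_nonunits_iff, hunit]
    tauto
  let q : Ideal B := (maximalIdeal O).comap ι
  have hq : q.IsPrime := Ideal.comap_isPrime ι _
  let π : MvPolynomial σ D →ₐ[D] B := aeval (fun i => ⟨x i, Algebra.subset_adjoin ⟨i, rfl⟩⟩)
  have hπx : ∀ g, ((π g : B) : K) = aeval x g := by
    intro g
    have : (B.val.comp π) = aeval x := by
      apply MvPolynomial.algHom_ext
      intro i
      simp [π]
    exact congrFun (congrArg DFunLike.coe this) g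
  have hπ : Function.Surjective (π : MvPolynomial σ D →+* B) := by
    rintro ⟨z, hz⟩
    have hz' := hz
    rw [hB, Algebra.adjoin_range_eq_range_aeval] at hz'
    obtain ⟨g, hg⟩ := hz'
    exact ⟨g, Subtype.ext ((hπx g).trans hg)⟩
  have hfB : ∀ y : K, ∃ a b : B, y = (a : K) / (b : K) := by
    intro y
    obtain ⟨a, ha, b, hb, rfl⟩ := hfrac y
    obtain ⟨a1, ha1, a2, ha2, ha20, ha21, rfl⟩ := hloc a ha
    obtain ⟨b1, hb1, b2, hb2, hb20, hb21, rfl⟩ := hloc b hb
    refine ⟨⟨a1 * b2, B.mul_mem ha1 hb2⟩, ⟨a2 * b1, B.mul_mem ha2 hb1⟩, ?_⟩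
    show _ = (a1 * b2) / (a2 * b1)
    by_cases h : b1 = 0
    · simp [h]
    · field_simp
  have hfrB : IsFractionRing B K := IsFractionRing.of_field B K hfB
  -- a transcendence basis among the generators
  have halg : Algebra.IsAlgebraic (Algebra.adjoin D (Set.range x)) K :=
    IsLocalization.isAlgebraic K (nonZeroDivisors (Algebra.adjoin D (Set.range x)))
  obtain ⟨t, htx, ht⟩ := exists_isTranscendenceBasis_subset (R := D) (A := K) (Set.range x)
  choose g hg using fun z : t => htx z.2
  have hginj : Function.Injective g := by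
    intro a b hab
    apply Subtype.ext
    rw [← hg a, ← hg b, hab]
  let T : Set σ := Set.range g
  let e : t ≃ T := Equiv.ofInjective g hginj
  have hT : AlgebraicIndependent D (fun i : T => x (i : σ)) := by
    have h1 : (fun i : T => x (i : σ)) = (Subtype.val : t → K) ∘ e.symm := by
      funext i
      obtain ⟨z, rfl⟩ := e.surjective i
      rw [Function.comp_apply, Equiv.symm_apply_apply]
      exact hg z
    rw [h1]
    exact ht.1.comp _ e.symm.injective
  have hcardT : (Nat.card T : Cardinal.{0}) = Algebra.trdeg D K := by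
    rw [← ht.cardinalMk_eq_trdeg, Nat.cast_card]
    exact (Cardinal.mk_congr e).symm
  have hsplit : Nat.card σ = Nat.card T + Nat.card (Tᶜ : Set σ) := by
    rw [← Nat.card_sum]
    exact Nat.card_congr (Equiv.Set.sumCompl T).symm
  have hcompl : Nat.card (Tᶜ : Set σ) ≤ c := by
    rw [← hcardT, hsplit] at htr
    have : Nat.card T + Nat.card (Tᶜ : Set σ) ≤ Nat.card T + c := by exact_mod_cast htr
    omega
  have hTπ : AlgebraicIndependent D (fun i : T => π (X (i : σ))) := by
    have h1 : AlgebraicIndependent D (fun i : T => B.val (π (X (i : σ)))) := by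
      have : (fun i : T => B.val (π (X (i : σ)))) = fun i : T => x (i : σ) := by
        funext i
        show ((π (X (i : σ)) : B) : K) = x i
        rw [hπx, aeval_X]
      rw [this]; exact hT
    exact AlgebraicIndependent.of_comp B.val h1
  have hht := (height_ker_le π T hTπ).trans
    (show ((Nat.card (Tᶜ : Set σ) : ℕ) : ℕ∞) ≤ ((c : ℕ) : ℕ∞) by exact_mod_cast hcompl)
  have hf0 : ∀ k, (π : MvPolynomial σ D →+* B) (f k) = 0 := by
    intro k
    apply Subtype.ext
    exact (hπx (f k)).trans (hf k)
  have hQp : (q.comap (π : MvPolynomial σ D →+* B)).IsPrime := Ideal.comap_isPrime _ _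
  have hregB : IsRegularLocalRing (Localization.AtPrime q) := by
    refine isRegularLocalRing_of_surjective (π : MvPolynomial σ D →+* B) hπ f hf0 hht q ?_
    apply hind
    intro p
    show ι (π p) ∈ maximalIdeal O ↔ _
    rw [hmax, hιv, hπx]
  let algBO : Algebra B O := ι.toAlgebra
  have hlocO : IsLocalization.AtPrime O q := by
    constructor
    constructor
    · rintro ⟨y, hy⟩
      show IsUnit (ι y)
      by_contra h
      exact hy ((mem_maximalIdeal _).mpr h)
    · intro z
      obtain ⟨a, ha, b, hb, hb0, hbO, hz⟩ := hloc z z.2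
      refine ⟨(⟨a, ha⟩, ⟨⟨b, hb⟩, ?_⟩), ?_⟩
      · show ¬ (ι ⟨b, hb⟩ ∈ maximalIdeal O)
        rw [hmax, hιv]
        push Not
        exact ⟨hb0, hbO⟩
      · apply Subtype.ext
        show (z : K) * b = a
        rw [hz]
        field_simp
    · intro a b hab
      refine ⟨1, ?_⟩
      have h0 : ι a = ι b := hab
      have : (a : K) = b := congrArg (Subtype.val : O → K) h0
      rw [Subtype.ext this]
  exact IsRegularLocalRing.of_ringEquiv
    (IsLocalization.algEquiv q.primeCompl (Localization.AtPrime q) O).toRingEquiv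

end Pool.Agent.H97.NF
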