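import Mathlib

/-!
# A uniformizer is a parameter: `s * ϖ ∈ Q ^ 2` forces `s ∈ Q` in `D[X]`
-/

set_option autoImplicit false

namespace Pool.Agent.H97.NF

open MvPolynomial

variable {D : Type*} [CommRing D] {σ : Type*} {p n : ℕ} {ϖ : D}

theorem exists_expand_eq (hp : p.Prime) (hϖp : ϖ ∣ (p : D)) (hfrob : ∀ d : D, ϖ ∣ d - d ^ p ^ n)
    (f : MvPolynomial σ D) : ∃ a, expand (p ^ n) f = f ^ p ^ n + C ϖ * a := by
  induction f using MvPolynomial.induction_on with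
  | C d =>
    obtain ⟨a, ha⟩ := hfrob d
    refine ⟨C a, ?_⟩
    rw [expand_C, ← C_pow, ← C_mul, ← C_add, ← ha]
    congr 1
    ring
  | add f g hf hg =>
    obtain ⟨a, ha⟩ := hf
    obtain ⟨b, hb⟩ := hg
    obtain ⟨r, hr⟩ := exists_add_pow_prime_pow_eq hp f g n
    obtain ⟨p', hp'⟩ := hϖp
    refine ⟨a + b - C p' * f * g * r, ?_⟩
    have h1 : (p : MvPolynomial σ D) = C ϖ * C p' := by
      rw [← C_mul, ← hp']
      simp
    rw [map_add, ha, hb, hr, h1]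
    ring
  | mul_X f i hf =>
    obtain ⟨a, ha⟩ := hf
    refine ⟨a * X i ^ p ^ n, ?_⟩
    rw [map_mul, ha, expand_X]
    ring

theorem expand_sq (hp : p.Prime) (hϖp : ϖ ∣ (p : D)) (hfrob : ∀ d : D, ϖ ∣ d - d ^ p ^ n)
    (Q : Ideal (MvPolynomial σ D))
    (hϖQ : C ϖ ∈ Q) {h : MvPolynomial σ D} (hh : h ∈ Q ^ 2) :
    h ∈ Q ∧ ∃ z ∈ Q, expand (p ^ n) h = h ^ p ^ n + C ϖ * z := by
  have hq : 0 < p ^ n := pow_pos hp.pos n
  rw [pow_two] at hh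
  induction hh using Submodule.mul_induction_on' with
  | mem_mul_mem a ha b hb =>
    obtain ⟨α, hα⟩ := exists_expand_eq hp hϖp hfrob a
    obtain ⟨β, hβ⟩ := exists_expand_eq hp hϖp hfrob b
    refine ⟨Q.mul_mem_left _ hb, α * b ^ p ^ n + a ^ p ^ n * β + C ϖ * α * β, ?_, ?_⟩
    · refine Q.add_mem (Q.add_mem (Q.mul_mem_left _ (Q.pow_mem_of_mem hb _ hq))
        (Q.mul_mem_right _ (Q.pow_mem_of_mem ha _ hq))) ?_
      exact Q.mul_mem_right _ (Q.mul_mem_right _ hϖQ)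
    · rw [map_mul, hα, hβ]
      ring
  | add a _ b _ ha hb =>
    obtain ⟨ha1, α, hα, hα'⟩ := ha
    obtain ⟨hb1, β, hβ, hβ'⟩ := hb
    obtain ⟨r, hr⟩ := exists_add_pow_prime_pow_eq hp a b n
    obtain ⟨p', hp'⟩ := hϖp
    have h1 : (p : MvPolynomial σ D) = C ϖ * C p' := by
      rw [← C_mul, ← hp']
      simp
    refine ⟨Q.add_mem ha1 hb1, α + β - C p' * a * b * r, ?_, ?_⟩
    · refine Q.sub_mem (Q.add_mem hα hβ) ?_
      exact Q.mul_mem_right _ (Q.mul_mem_right _ (Q.mul_mem_left _ ha1))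
    · rw [map_add, hα', hβ', hr, h1]
      ring

/-- In a polynomial ring over `D`, a uniformizer `ϖ` in a prime ideal `Q` is not in `Q ^ 2`, even
locally at `Q`. -/
theorem mem_of_mul_unif_mem_sq [IsDomain D] (hp : p.Prime) (hn : 1 ≤ n) (hϖ0 : ϖ ≠ 0)
    (hϖp : ϖ ∣ (p : D)) (hfrob : ∀ d : D, ϖ ∣ d - d ^ p ^ n) (Q : Ideal (MvPolynomial σ D))
    [hQ : Q.IsPrime] (hϖQ : C ϖ ∈ Q) {s : MvPolynomial σ D}
    (hs : s * C ϖ ∈ Q ^ 2) : s ∈ Q := by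
  obtain ⟨_, z, hz, hz'⟩ := expand_sq hp hϖp hfrob Q hϖQ hs
  obtain ⟨α, hα⟩ := exists_expand_eq hp hϖp hfrob s
  rw [map_mul, hα, expand_C] at hz'
  have hp0 : (C ϖ : MvPolynomial σ D) ≠ 0 := by
    rw [Ne, C_eq_zero]
    exact hϖ0
  have hq2 : 2 ≤ p ^ n := hp.two_le.trans (Nat.le_self_pow (by omega) p)
  obtain ⟨k, hk⟩ : ∃ k, p ^ n = k + 1 := ⟨p ^ n - 1, by omega⟩
  have h1 : s ^ p ^ n + C ϖ * α = s ^ p ^ n * C ϖ ^ k + z := by
    apply mul_right_cancel₀ hp0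
    rw [hz']
    have : (C ϖ : MvPolynomial σ D) ^ p ^ n = C ϖ ^ k * C ϖ := by
      rw [hk, ← pow_succ]
    rw [mul_pow, this]
    ring
  have hk1 : 0 < k := by omega
  have h2 : s ^ p ^ n = s ^ p ^ n * C ϖ ^ k + z - C ϖ * α := by rw [← h1]; ring
  have h3 : s ^ p ^ n ∈ Q := by
    rw [h2]
    exact Q.sub_mem (Q.add_mem (Q.mul_mem_left _ (Q.pow_mem_of_mem hϖQ k hk1)) hz)
      (Q.mul_mem_right _ hϖQ)
  exact hQ.mem_of_pow_mem _ h3

end Pool.Agent.H97.NF
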