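import Pool.Agent.H97.NF.Form
import Pool.Agent.H97.NF.Unif
import Pool.Agent.H97.NF.Reg
import Pool.Agent.H97.ChartReg

/-!
# The two types of charts: independence of the relations
-/

set_option autoImplicit false

namespace Pool.Agent.H97.NF

open MvPolynomial
open Pool.Agent.H96.Reg (IndepAt)

section Bil

variable {D : Type*} [CommRing D] {R : Type*} [CommRing R] [Algebra D R] {R' : Type*} [CommRing R']
  [Algebra D R'] {I J : Type*} [Fintype I] [Fintype J]

/-- The value of the bilinear form with coefficient matrix `b`. -/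
def bil (b : Matrix I J D) (x : I → R) (y : J → R) : R :=
  ∑ i, ∑ j, algebraMap D R (b i j) * (x i * y j)

variable (b : Matrix I J D)

theorem map_bil (φ : R →ₐ[D] R') (x : I → R) (y : J → R) :
    φ (bil b x y) = bil b (fun i => φ (x i)) (fun i => φ (y i)) := by
  simp [bil, map_sum]

theorem der_bil (d : Derivation D R R) (x : I → R) (y : J → R) :
    d (bil b x y) = bil b (fun i => d (x i)) y + bil b x (fun j => d (y j)) := by
  simp only [bil, map_sum, ← Finset.sum_add_distrib]
  refine Finset.sum_congr rfl fun i _ => Finset.sum_congr rfl fun j _ => ?_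
  rw [Derivation.leibniz, Derivation.leibniz, Derivation.map_algebraMap]
  simp only [smul_eq_mul]
  ring

theorem bil_zero_left (y : J → R) : bil b (0 : I → R) y = 0 := by simp [bil]

theorem bil_zero_right (x : I → R) : bil b x (0 : J → R) = 0 := by simp [bil]

theorem bil_smul_left (c : R) (x : I → R) (y : J → R) :
    bil b (fun i => c * x i) y = c * bil b x y := by
  simp only [bil, Finset.mul_sum]
  refine Finset.sum_congr rfl fun i _ => Finset.sum_congr rfl fun j _ => ?_
  ring

theorem bil_smul_right (c : R) (x : I → R) (y : J → R) :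
    bil b x (fun i => c * y i) = c * bil b x y := by
  simp only [bil, Finset.mul_sum]
  refine Finset.sum_congr rfl fun i _ => Finset.sum_congr rfl fun j _ => ?_
  ring

theorem bil_mem (Q : Ideal R) (x : I → R) (y : J → R) (hx : ∀ i, x i ∈ Q) : bil b x y ∈ Q :=
  Q.sum_mem fun i _ => Q.sum_mem fun _ _ => Q.mul_mem_left _ (Q.mul_mem_right _ (hx i))

theorem qf_mem_sq (a : Matrix I I D) (Q : Ideal R) (x : I → R) (hx : ∀ i, x i ∈ Q) :
    qf a x ∈ Q ^ 2 := by
  refine Ideal.sum_mem _ fun i _ => Ideal.sum_mem _ fun j _ => Ideal.mul_mem_left _ _ ?_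
  rw [pow_two]
  exact Ideal.mul_mem_mul (hx i) (hx j)

end Bil

section Der

variable {D : Type*} [CommRing D] {S : Type*} [CommRing S] [Algebra D S]

theorem sum_der_mem (Q : Ideal S) [hQ : Q.IsPrime] {c : ℕ} (f a : Fin c → S) (t : S) (ht : t ∉ Q)
    (hfQ : ∀ k, f k ∈ Q) (h : t * ∑ k, a k * f k ∈ Q ^ 2) (d : Derivation D S S) :
    ∑ k, a k * d (f k) ∈ Q := by
  have h1 := Pool.Agent.H97.derivation_sq_mem d Q h
  have hw : ∑ k, a k * f k ∈ Q := Q.sum_mem fun k _ => Q.mul_mem_left _ (hfQ k)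
  rw [Derivation.leibniz, smul_eq_mul, smul_eq_mul] at h1
  have h2 : t * d (∑ k, a k * f k) ∈ Q := by
    have := Q.sub_mem h1 (Q.mul_mem_right (d t) hw)
    simpa using this
  have h3 := (hQ.mem_or_mem h2).resolve_left ht
  rw [map_sum] at h3
  have h4 : ∑ k, a k * d (f k) = ∑ k, d (a k * f k) - ∑ k, f k * d (a k) := by
    rw [← Finset.sum_sub_distrib]
    refine Finset.sum_congr rfl fun k _ => ?_
    rw [Derivation.leibniz, smul_eq_mul, smul_eq_mul]
    ring
  rw [h4]
  exact Q.sub_mem h3 (Q.sum_mem fun k _ => Q.mul_mem_right _ (hfQ k))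

end Der

variable {D : Type} [CommRing D] {Ix Iy : Type} [Fintype Ix] [Fintype Iy] [DecidableEq Ix]
  (a0 : Matrix Ix Ix D) (b : Matrix Ix Iy D) (a1 : Matrix Iy Iy D) (ϖ : D)

/-- The quadratic form in block form. -/
def totq {R : Type*} [CommRing R] [Algebra D R] (x : Ix → R) (y : Iy → R) : R :=
  qf a0 x + algebraMap D R ϖ * bil b x y + algebraMap D R ϖ * qf a1 y

theorem nondeg_mem {I σ : Type} [Fintype I] [DecidableEq I] {a : Matrix I I D}
    (hnd : Nondeg a ϖ) (Q : Ideal (MvPolynomial σ D)) [Q.IsPrime] (hϖ : C ϖ ∈ Q)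
    (x : I → MvPolynomial σ D) (h1 : ∀ j, bf a x (Pi.single j 1) ∈ Q) (h2 : qf a x ∈ Q) (i : I) :
    x i ∈ Q := by
  have h3 := hnd (MvPolynomial σ D ⧸ Q) (by
    rw [IsScalarTower.algebraMap_apply D (MvPolynomial σ D) (MvPolynomial σ D ⧸ Q)]
    exact Ideal.Quotient.eq_zero_iff_mem.mpr hϖ)
    (fun i => Ideal.Quotient.mkₐ D Q (x i)) (by
      intro j
      have h4 : Ideal.Quotient.mkₐ D Q (bf a x (Pi.single j 1)) = 0 :=
        Ideal.Quotient.eq_zero_iff_mem.mpr (h1 j)
      rw [map_bf] at h4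
      have h5 : (fun k => Ideal.Quotient.mkₐ D Q ((Pi.single j 1 : I → MvPolynomial σ D) k)) =
          (Pi.single j 1 : I → MvPolynomial σ D ⧸ Q) := by
        funext k
        by_cases hk : k = j
        · subst hk; simp
        · rw [Pi.single_eq_of_ne hk, Pi.single_eq_of_ne hk, map_zero]
      rw [h5] at h4
      exact h4) (by
      have h4 : Ideal.Quotient.mkₐ D Q (qf a x) = 0 := Ideal.Quotient.eq_zero_iff_mem.mpr h2
      rwa [map_qf] at h4)
  exact Ideal.Quotient.eq_zero_iff_mem.mp (congrFun h3 i)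

section TypeH

/-- The relations of a chart of the first type. -/
noncomputable def relH (s : Ix ⊕ Iy) : Fin 2 → MvPolynomial (Ix ⊕ Iy) D :=
  ![totq a0 b a1 ϖ (fun i => X (Sum.inl i)) (fun j => X (Sum.inr j)), X s - 1]

theorem indepAt_relH (s : Ix ⊕ Iy) (hnd : Nondeg a0 ϖ) (Q : Ideal (MvPolynomial (Ix ⊕ Iy) D))
    [hQ : Q.IsPrime] (hϖ : C ϖ ∈ Q) (hmem : ∀ k, relH a0 b a1 ϖ s k ∈ Q)
    (hcase : (∀ i : Ix, (X (Sum.inl i) : MvPolynomial (Ix ⊕ Iy) D) ∈ Q) →
      (∀ z, z * C ϖ ∈ Q ^ 2 → z ∈ Q) ∧ qf a1 (fun j => (X (Sum.inr j) : MvPolynomial (Ix ⊕ Iy) D)) ∉ Q) :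
    IndepAt (relH a0 b a1 ϖ s) Q := by
  classical
  intro c t ht hsum
  have hder := fun d => sum_der_mem Q (relH a0 b a1 ϖ s) c t ht hmem hsum
    (d : Derivation D (MvPolynomial (Ix ⊕ Iy) D) (MvPolynomial (Ix ⊕ Iy) D))
  set x : Ix → MvPolynomial (Ix ⊕ Iy) D := fun i => X (Sum.inl i) with hx
  set y : Iy → MvPolynomial (Ix ⊕ Iy) D := fun j => X (Sum.inr j) with hy
  have hq : totq a0 b a1 ϖ x y ∈ Q := hmem 0
  have hs : X s - 1 ∈ Q := hmem 1
  have hϖ' : algebraMap D (MvPolynomial (Ix ⊕ Iy) D) ϖ ∈ Q := hϖ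
  -- the coefficient of the second relation
  have hc1 : c 1 ∈ Q := by
    let E := mkDerivation D (X : Ix ⊕ Iy → MvPolynomial (Ix ⊕ Iy) D)
    have hE : ∀ k, E (X k) = X k := fun k => mkDerivation_X D _ k
    have h1 := hder E
    rw [Fin.sum_univ_two] at h1
    have h2 : E (relH a0 b a1 ϖ s 0) = 2 * totq a0 b a1 ϖ x y := by
      show E (totq a0 b a1 ϖ x y) = _
      simp only [totq, map_add, Derivation.leibniz, Derivation.map_algebraMap, der_qf, der_bil,
        smul_eq_mul, hx, hy, hE, bf_self]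
      ring
    have h3 : E (relH a0 b a1 ϖ s 1) = X s := by
      show E (X s - 1) = _
      rw [map_sub, hE, Derivation.map_one_eq_zero, sub_zero]
    rw [h2, h3] at h1
    have h4 : c 1 = (c 0 * (2 * totq a0 b a1 ϖ x y) + c 1 * X s) -
        c 0 * (2 * totq a0 b a1 ϖ x y) - c 1 * (X s - 1) := by ring
    rw [h4]
    exact Q.sub_mem (Q.sub_mem h1 (Q.mul_mem_left _ (Q.mul_mem_left _ hq))) (Q.mul_mem_left _ hs)
  have hc0 : c 0 ∈ Q := by
    by_contra hc0
    have hbf : ∀ i, bf a0 x (Pi.single i 1) ∈ Q := by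
      intro i
      have h1 := hder (pderiv (Sum.inl i))
      rw [Fin.sum_univ_two] at h1
      have hdx : (fun k => pderiv (Sum.inl i) (x k)) =
          (Pi.single i 1 : Ix → MvPolynomial (Ix ⊕ Iy) D) := by
        ext1 k
        simp only [hx]
        by_cases hk : k = i
        · subst hk; simp
        · rw [pderiv_X_of_ne (by simpa using hk), Pi.single_eq_of_ne hk]
      have hdy : (fun k => pderiv (Sum.inl i) (y k)) = (0 : Iy → MvPolynomial (Ix ⊕ Iy) D) := by
        ext1 k
        simp only [hy]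
        rw [pderiv_X_of_ne (by simp)]
        rfl
      have h2 : pderiv (Sum.inl i) (relH a0 b a1 ϖ s 0) =
          bf a0 x (Pi.single i 1) + algebraMap D _ ϖ * bil b (Pi.single i 1) y := by
        show pderiv (Sum.inl i) (totq a0 b a1 ϖ x y) = _
        simp only [totq, map_add, Derivation.leibniz, Derivation.map_algebraMap, der_qf, der_bil,
          smul_eq_mul, hdx, hdy, bf_zero_right, bil_zero_right]
        ring
      rw [h2] at h1
      have h4 : c 0 * bf a0 x (Pi.single i 1) =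
          (c 0 * (bf a0 x (Pi.single i 1) + algebraMap D _ ϖ * bil b (Pi.single i 1) y) +
            c 1 * pderiv (Sum.inl i) (relH a0 b a1 ϖ s 1)) -
          c 1 * pderiv (Sum.inl i) (relH a0 b a1 ϖ s 1) -
          algebraMap D _ ϖ * (c 0 * bil b (Pi.single i 1) y) := by ring
      have h5 : c 0 * bf a0 x (Pi.single i 1) ∈ Q := by
        rw [h4]
        exact Q.sub_mem (Q.sub_mem h1 (Q.mul_mem_right _ hc1)) (Q.mul_mem_right _ hϖ')
      exact (hQ.mem_or_mem h5).resolve_left hc0
    have hqx : qf a0 x ∈ Q := by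
      have h4 : qf a0 x = totq a0 b a1 ϖ x y - algebraMap D _ ϖ * (bil b x y + qf a1 y) := by
        simp only [totq]; ring
      rw [h4]
      exact Q.sub_mem hq (Q.mul_mem_right _ hϖ')
    have hxQ : ∀ i, x i ∈ Q := nondeg_mem ϖ hnd Q hϖ x hbf hqx
    obtain ⟨h5, h6⟩ := hcase hxQ
    have h7 : t * c 0 * qf a1 y * C ϖ ∈ Q ^ 2 := by
      have h8 : t * c 0 * qf a1 y * C ϖ = t * ∑ k, c k * relH a0 b a1 ϖ s k -
          t * (c 1 * (X s - 1)) - t * c 0 * qf a0 x - t * c 0 * (C ϖ * bil b x y) := by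
        rw [Fin.sum_univ_two]
        show _ = t * (c 0 * totq a0 b a1 ϖ x y + c 1 * (X s - 1)) - _ - _ - _
        simp only [totq, algebraMap_eq]
        ring
      rw [h8]
      refine Ideal.sub_mem _ (Ideal.sub_mem _ (Ideal.sub_mem _ hsum ?_) ?_) ?_
      · apply Ideal.mul_mem_left
        rw [pow_two]
        exact Ideal.mul_mem_mul hc1 hs
      · exact Ideal.mul_mem_left _ _ (qf_mem_sq a0 Q x hxQ)
      · apply Ideal.mul_mem_left
        rw [pow_two]
        exact Ideal.mul_mem_mul hϖ (bil_mem b Q x y hxQ)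
    have h9 := h5 _ h7
    rcases hQ.mem_or_mem h9 with h10 | h10
    · rcases hQ.mem_or_mem h10 with h11 | h11
      · exact ht h11
      · exact hc0 h11
    · exact h6 h10
  intro i
  fin_cases i
  · exact hc0
  · exact hc1

end TypeH

section TypeE

/-- The variables of a chart of the second type. -/
abbrev SE (Ix Iy : Type) : Type := (Ix ⊕ Iy) ⊕ Fin 3

/-- The index of the variable which is normalized to be one. -/
def lamIdx (Iy : Type) : Ix ⊕ Fin 2 → SE Ix Iy
  | Sum.inl i => Sum.inl (Sum.inl i)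
  | Sum.inr k => Sum.inr k.succ

/-- The relations of a chart of the second type. -/
noncomputable def relE (j0 : Iy) (l : Ix ⊕ Fin 2) : Fin 5 → MvPolynomial (SE Ix Iy) D :=
  ![X (Sum.inl (Sum.inr j0)) - 1,
    X (lamIdx Iy l) - 1,
    X (Sum.inr 0) * X (Sum.inr 1) - C ϖ,
    X (Sum.inr 0) * X (Sum.inr 2) - qf a1 (fun j => X (Sum.inl (Sum.inr j))),
    qf a0 (fun i => X (Sum.inl (Sum.inl i))) +
      X (Sum.inr 1) * bil b (fun i => X (Sum.inl (Sum.inl i))) (fun j => X (Sum.inl (Sum.inr j))) +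
      X (Sum.inr 1) * X (Sum.inr 2)]

theorem indepAt_relE [DecidableEq Iy] (j0 : Iy) (l : Ix ⊕ Fin 2) (hnd0 : Nondeg a0 ϖ)
    (hnd1 : Nondeg a1 ϖ) (Q : Ideal (MvPolynomial (SE Ix Iy) D))
    [hQ : Q.IsPrime] (hϖ : C ϖ ∈ Q) (he : X (Sum.inr 0) ∈ Q)
    (hunif : ∀ z, z * C ϖ ∈ Q ^ 2 → z ∈ Q)
    (hmem : ∀ k, relE a0 b a1 ϖ j0 l k ∈ Q) :
    IndepAt (relE a0 b a1 ϖ j0 l) Q := by
  classical
  intro c t ht hsum
  have hder := fun d => sum_der_mem Q (relE a0 b a1 ϖ j0 l) c t ht hmem hsum
    (d : Derivation D (MvPolynomial (SE Ix Iy) D) (MvPolynomial (SE Ix Iy) D))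
  set x : Ix → MvPolynomial (SE Ix Iy) D := fun i => X (Sum.inl (Sum.inl i)) with hx
  set y : Iy → MvPolynomial (SE Ix Iy) D := fun j => X (Sum.inl (Sum.inr j)) with hy
  set e : MvPolynomial (SE Ix Iy) D := X (Sum.inr 0) with hedef
  set P : MvPolynomial (SE Ix Iy) D := X (Sum.inr 1) with hPdef
  set u : MvPolynomial (SE Ix Iy) D := X (Sum.inr 2) with hudef
  set lam : MvPolynomial (SE Ix Iy) D := X (lamIdx Iy l) with hlam
  have hr0 : y j0 - 1 ∈ Q := hmem 0
  have hr1 : lam - 1 ∈ Q := hmem 1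
  have hr2 : e * P - C ϖ ∈ Q := hmem 2
  have hr3 : e * u - qf a1 y ∈ Q := hmem 3
  have hr4 : qf a0 x + P * bil b x y + P * u ∈ Q := hmem 4
  have hq1 : qf a1 y ∈ Q := by
    have : qf a1 y = e * u - (e * u - qf a1 y) := by ring
    rw [this]
    exact Q.sub_mem (Q.mul_mem_right _ he) hr3
  -- the general derivative
  have hgen : ∀ d : Derivation D (MvPolynomial (SE Ix Iy) D) (MvPolynomial (SE Ix Iy) D),
      c 0 * d (y j0) + c 1 * d lam + c 2 * (e * d P + P * d e) +
        c 3 * (e * d u + u * d e - bf a1 y (fun j => d (y j))) +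
        c 4 * (bf a0 x (fun i => d (x i)) + P * (bil b (fun i => d (x i)) y +
          bil b x (fun j => d (y j))) + bil b x y * d P + P * d u + u * d P) ∈ Q := by
    intro d
    have h1 := hder d
    rw [Fin.sum_univ_five] at h1
    have e0 : d (relE a0 b a1 ϖ j0 l 0) = d (y j0) := by
      show d (y j0 - 1) = _
      rw [map_sub, Derivation.map_one_eq_zero, sub_zero]
    have e1 : d (relE a0 b a1 ϖ j0 l 1) = d lam := by
      show d (lam - 1) = _
      rw [map_sub, Derivation.map_one_eq_zero, sub_zero]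
    have e2 : d (relE a0 b a1 ϖ j0 l 2) = e * d P + P * d e := by
      show d (e * P - C ϖ) = _
      rw [map_sub, Derivation.leibniz, ← algebraMap_eq, Derivation.map_algebraMap, sub_zero]
      rfl
    have e3 : d (relE a0 b a1 ϖ j0 l 3) = e * d u + u * d e - bf a1 y (fun j => d (y j)) := by
      show d (e * u - qf a1 y) = _
      rw [map_sub, Derivation.leibniz, der_qf]
      rfl
    have e4 : d (relE a0 b a1 ϖ j0 l 4) = bf a0 x (fun i => d (x i)) +
        P * (bil b (fun i => d (x i)) y + bil b x (fun j => d (y j))) + bil b x y * d P +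
          P * d u + u * d P := by
      show d (qf a0 x + P * bil b x y + P * u) = _
      rw [map_add, map_add, der_qf, Derivation.leibniz, Derivation.leibniz, der_bil]
      simp only [smul_eq_mul]
      ring
    rw [e0, e1, e2, e3, e4] at h1
    exact h1
  -- the Euler derivation in `x', π', u'`
  have hc1 : c 1 ∈ Q := by
    let E := mkDerivation D (fun s : SE Ix Iy => match s with
      | Sum.inl (Sum.inl i) => (X (Sum.inl (Sum.inl i)) : MvPolynomial (SE Ix Iy) D)
      | Sum.inl (Sum.inr _) => 0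
      | Sum.inr k => if k = 0 then 0 else X (Sum.inr k))
    have hEx : ∀ i, E (x i) = x i := fun i => mkDerivation_X D _ _
    have hEy : ∀ j, E (y j) = 0 := fun j => mkDerivation_X D _ _
    have hEe : E e = 0 := (mkDerivation_X D _ _).trans (if_pos rfl)
    have hEP : E P = P := (mkDerivation_X D _ _).trans (if_neg (by decide))
    have hEu : E u = u := (mkDerivation_X D _ _).trans (if_neg (by decide))
    have hEl : E lam = lam := by
      rcases l with i | k
      · exact mkDerivation_X D _ _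
      · exact (mkDerivation_X D _ _).trans (if_neg (Fin.succ_ne_zero k))
    have h1 := hgen E
    simp only [hEx, hEy, hEe, hEP, hEu, hEl] at h1
    have hz1 : bf a1 y (fun _ => 0) = 0 := bf_zero_right a1 y
    have hz2 : bil b x (fun _ => (0 : MvPolynomial (SE Ix Iy) D)) = 0 := bil_zero_right b x
    have hs : bf a0 x (fun i => x i) = 2 * qf a0 x := bf_self a0 x
    have hxx : bil b (fun i => x i) y = bil b x y := rfl
    rw [hz1, hz2, hs] at h1
    have h2 : c 1 = (c 0 * 0 + c 1 * lam + c 2 * (e * P + P * 0) + c 3 * (e * u + u * 0 - 0) +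
        c 4 * (2 * qf a0 x + P * (bil b (fun i => x i) y + 0) + bil b x y * P + P * u + u * P)) -
        c 1 * (lam - 1) - e * (c 2 * P + c 3 * u) -
        c 4 * 2 * (qf a0 x + P * bil b x y + P * u) := by
      rw [hxx]
      ring
    rw [h2]
    exact Q.sub_mem (Q.sub_mem (Q.sub_mem h1 (Q.mul_mem_left _ hr1)) (Q.mul_mem_right _ he))
      (Q.mul_mem_left _ hr4)
  -- the coefficient of the form
  have hlamcases : lam ∈ Q → False := by
    intro h
    apply hQ.ne_top
    rw [Ideal.eq_top_iff_one]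
    have : (1 : MvPolynomial (SE Ix Iy) D) = lam - (lam - 1) := by ring
    rw [this]
    exact Q.sub_mem h hr1
  have hc4 : c 4 ∈ Q := by
    by_contra hc4
    -- `π' ∈ Q`
    have hP : P ∈ Q := by
      have h1 := hgen (pderiv (Sum.inr 2))
      have k1 : pderiv (Sum.inr 2) u = 1 := pderiv_X_self _
      have k2 : pderiv (Sum.inr 2) P = 0 := pderiv_X_of_ne (by simp)
      have k3 : pderiv (Sum.inr 2) e = 0 := pderiv_X_of_ne (by simp)
      have k4 : ∀ j, pderiv (Sum.inr 2) (y j) = 0 := fun j => pderiv_X_of_ne (by simp)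
      have k5 : ∀ i, pderiv (Sum.inr 2) (x i) = 0 := fun i => pderiv_X_of_ne (by simp)
      simp only [k1, k2, k3, k4, k5] at h1
      rw [show bf a1 y (fun _ => 0) = 0 from bf_zero_right a1 y,
        show bil b x (fun _ => (0 : MvPolynomial (SE Ix Iy) D)) = 0 from bil_zero_right b x,
        show bil b (fun _ => (0 : MvPolynomial (SE Ix Iy) D)) y = 0 from bil_zero_left b y,
        show bf a0 x (fun _ => 0) = 0 from bf_zero_right a0 x] at h1
      have h2 : c 4 * P ∈ Q := by
        have h3 : c 4 * P = (c 0 * 0 + c 1 * pderiv (Sum.inr 2) lam + c 2 * (e * 0 + P * 0) +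
          c 3 * (e * 1 + u * 0 - 0) + c 4 * (0 + P * (0 + 0) + bil b x y * 0 + P * 1 + u * 0)) -
          c 1 * pderiv (Sum.inr 2) lam - e * c 3 := by ring
        rw [h3]
        exact Q.sub_mem (Q.sub_mem h1 (Q.mul_mem_right _ hc1)) (Q.mul_mem_right _ he)
      exact (hQ.mem_or_mem h2).resolve_left hc4
    have hbu : bil b x y + u ∈ Q := by
      have h1 := hgen (pderiv (Sum.inr 1))
      have k1 : pderiv (Sum.inr 1) u = 0 := pderiv_X_of_ne (by simp)
      have k2 : pderiv (Sum.inr 1) P = 1 := pderiv_X_self _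
      have k3 : pderiv (Sum.inr 1) e = 0 := pderiv_X_of_ne (by simp)
      have k4 : ∀ j, pderiv (Sum.inr 1) (y j) = 0 := fun j => pderiv_X_of_ne (by simp)
      have k5 : ∀ i, pderiv (Sum.inr 1) (x i) = 0 := fun i => pderiv_X_of_ne (by simp)
      simp only [k1, k2, k3, k4, k5] at h1
      rw [show bf a1 y (fun _ => 0) = 0 from bf_zero_right a1 y,
        show bil b x (fun _ => (0 : MvPolynomial (SE Ix Iy) D)) = 0 from bil_zero_right b x,
        show bil b (fun _ => (0 : MvPolynomial (SE Ix Iy) D)) y = 0 from bil_zero_left b y,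
        show bf a0 x (fun _ => 0) = 0 from bf_zero_right a0 x] at h1
      have h2 : c 4 * (bil b x y + u) ∈ Q := by
        have h3 : c 4 * (bil b x y + u) = (c 0 * 0 + c 1 * pderiv (Sum.inr 1) lam +
          c 2 * (e * 1 + P * 0) +
          c 3 * (e * 0 + u * 0 - 0) + c 4 * (0 + P * (0 + 0) + bil b x y * 1 + P * 0 + u * 1)) -
          c 1 * pderiv (Sum.inr 1) lam - e * c 2 := by ring
        rw [h3]
        exact Q.sub_mem (Q.sub_mem h1 (Q.mul_mem_right _ hc1)) (Q.mul_mem_right _ he)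
      exact (hQ.mem_or_mem h2).resolve_left hc4
    have hbf : ∀ i, bf a0 x (Pi.single i 1) ∈ Q := by
      intro i
      have h1 := hgen (pderiv (Sum.inl (Sum.inl i)))
      have k1 : pderiv (Sum.inl (Sum.inl i)) u = 0 := pderiv_X_of_ne (by simp)
      have k2 : pderiv (Sum.inl (Sum.inl i)) P = 0 := pderiv_X_of_ne (by simp)
      have k3 : pderiv (Sum.inl (Sum.inl i)) e = 0 := pderiv_X_of_ne (by simp)
      have k4 : ∀ j, pderiv (Sum.inl (Sum.inl i)) (y j) = 0 := fun j => pderiv_X_of_ne (by simp)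
      have k5 : (fun k => pderiv (Sum.inl (Sum.inl i)) (x k)) = Pi.single i 1 := by
        funext k
        by_cases hk : k = i
        · subst hk
          rw [Pi.single_eq_same]
          exact pderiv_X_self _
        · rw [Pi.single_eq_of_ne hk]
          exact pderiv_X_of_ne (by simpa using hk)
      simp only [k1, k2, k3, k4] at h1
      rw [k5, show bf a1 y (fun _ => 0) = 0 from bf_zero_right a1 y,
        show bil b x (fun _ => (0 : MvPolynomial (SE Ix Iy) D)) = 0 from bil_zero_right b x] at h1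
      have h2 : c 4 * bf a0 x (Pi.single i 1) ∈ Q := by
        have h3 : c 4 * bf a0 x (Pi.single i 1) =
          (c 0 * 0 + c 1 * pderiv (Sum.inl (Sum.inl i)) lam +
          c 2 * (e * 0 + P * 0) +
          c 3 * (e * 0 + u * 0 - 0) + c 4 * (bf a0 x (Pi.single i 1) +
            P * (bil b (Pi.single i 1) y + 0) + bil b x y * 0 + P * 0 + u * 0)) -
          c 1 * pderiv (Sum.inl (Sum.inl i)) lam - P * (c 4 * bil b (Pi.single i 1) y) := by ring
        rw [h3]
        exact Q.sub_mem (Q.sub_mem h1 (Q.mul_mem_right _ hc1)) (Q.mul_mem_right _ hP)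
      exact (hQ.mem_or_mem h2).resolve_left hc4
    have hqx : qf a0 x ∈ Q := by
      have h4 : qf a0 x = (qf a0 x + P * bil b x y + P * u) - P * (bil b x y + u) := by ring
      rw [h4]
      exact Q.sub_mem hr4 (Q.mul_mem_right _ hP)
    have hxQ : ∀ i, x i ∈ Q := nondeg_mem ϖ hnd0 Q hϖ x hbf hqx
    have hu : u ∈ Q := by
      have : u = (bil b x y + u) - bil b x y := by ring
      rw [this]
      exact Q.sub_mem hbu (bil_mem b Q x y hxQ)
    apply hlamcases
    rcases l with i | k
    · exact hxQ i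
    · fin_cases k
      · exact hP
      · exact hu
  -- the Euler derivation in `y`
  have hc0 : c 0 ∈ Q := by
    let E := mkDerivation D (fun s : SE Ix Iy => match s with
      | Sum.inl (Sum.inl _) => (0 : MvPolynomial (SE Ix Iy) D)
      | Sum.inl (Sum.inr j) => X (Sum.inl (Sum.inr j))
      | Sum.inr _ => 0)
    have hEy : ∀ i, E (y i) = y i := fun i => mkDerivation_X D _ _
    have hEe : E e = 0 := mkDerivation_X D _ _
    have hEP : E P = 0 := mkDerivation_X D _ _
    have hEu : E u = 0 := mkDerivation_X D _ _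
    have h1 := hgen E
    simp only [hEy, hEe, hEP, hEu] at h1
    have hs : bf a1 y (fun i => y i) = 2 * qf a1 y := bf_self a1 y
    rw [hs] at h1
    set Z := bf a0 x (fun i => E (x i)) + P * (bil b (fun i => E (x i)) y +
      bil b x (fun j => y j)) + bil b x y * 0 + P * 0 + u * 0
    have h2 : c 0 = (c 0 * y j0 + c 1 * E lam + c 2 * (e * 0 + P * 0) +
        c 3 * (e * 0 + u * 0 - 2 * qf a1 y) + c 4 * Z) - c 0 * (y j0 - 1) - c 1 * E lam +
        c 3 * 2 * qf a1 y - c 4 * Z := by ring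
    rw [h2]
    refine Q.sub_mem (Q.add_mem (Q.sub_mem (Q.sub_mem h1 (Q.mul_mem_left _ hr0))
      (Q.mul_mem_right _ hc1)) (Q.mul_mem_left _ hq1)) (Q.mul_mem_right _ hc4)
  have hc3 : c 3 ∈ Q := by
    by_contra hc3
    have hbf : ∀ j, bf a1 y (Pi.single j 1) ∈ Q := by
      intro j
      have h1 := hgen (pderiv (Sum.inl (Sum.inr j)))
      have k1 : pderiv (Sum.inl (Sum.inr j)) u = 0 := pderiv_X_of_ne (by simp)
      have k2 : pderiv (Sum.inl (Sum.inr j)) P = 0 := pderiv_X_of_ne (by simp)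
      have k3 : pderiv (Sum.inl (Sum.inr j)) e = 0 := pderiv_X_of_ne (by simp)
      have k5 : (fun k => pderiv (Sum.inl (Sum.inr j)) (y k)) = Pi.single j 1 := by
        funext k
        by_cases hk : k = j
        · subst hk
          rw [Pi.single_eq_same]
          exact pderiv_X_self _
        · rw [Pi.single_eq_of_ne hk]
          exact pderiv_X_of_ne (by simpa using hk)
      simp only [k1, k2, k3] at h1
      rw [k5] at h1
      set Z := bf a0 x (fun i => pderiv (Sum.inl (Sum.inr j)) (x i)) +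
        P * (bil b (fun i => pderiv (Sum.inl (Sum.inr j)) (x i)) y +
        bil b x (Pi.single j 1)) + bil b x y * 0 + P * 0 + u * 0
      have h2 : c 3 * bf a1 y (Pi.single j 1) ∈ Q := by
        have h3 : c 3 * bf a1 y (Pi.single j 1) =
          -((c 0 * pderiv (Sum.inl (Sum.inr j)) (y j0) + c 1 * pderiv (Sum.inl (Sum.inr j)) lam +
          c 2 * (e * 0 + P * 0) +
          c 3 * (e * 0 + u * 0 - bf a1 y (Pi.single j 1)) + c 4 * Z) -
          c 0 * pderiv (Sum.inl (Sum.inr j)) (y j0) -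
          c 1 * pderiv (Sum.inl (Sum.inr j)) lam - c 4 * Z) := by ring
        rw [h3]
        exact Q.neg_mem (Q.sub_mem (Q.sub_mem (Q.sub_mem h1 (Q.mul_mem_right _ hc0))
          (Q.mul_mem_right _ hc1)) (Q.mul_mem_right _ hc4))
      exact (hQ.mem_or_mem h2).resolve_left hc3
    have hyQ : ∀ i, y i ∈ Q := nondeg_mem ϖ hnd1 Q hϖ y hbf hq1
    apply hQ.ne_top
    rw [Ideal.eq_top_iff_one]
    have : (1 : MvPolynomial (SE Ix Iy) D) = y j0 - (y j0 - 1) := by ring
    rw [this]
    exact Q.sub_mem (hyQ j0) hr0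
  have hc2 : c 2 ∈ Q := by
    by_contra hc2
    have hP : P ∈ Q := by
      have h1 := hgen (pderiv (Sum.inr 0))
      have k1 : pderiv (Sum.inr 0) u = 0 := pderiv_X_of_ne (by simp)
      have k2 : pderiv (Sum.inr 0) P = 0 := pderiv_X_of_ne (by simp)
      have k3 : pderiv (Sum.inr 0) e = 1 := pderiv_X_self _
      simp only [k1, k2, k3] at h1
      have h2 : c 2 * P ∈ Q := by
        set Z := bf a0 x (fun i => pderiv (Sum.inr 0) (x i)) +
          P * (bil b (fun i => pderiv (Sum.inr 0) (x i)) y +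
          bil b x (fun j => pderiv (Sum.inr 0) (y j))) + bil b x y * 0 + P * 0 + u * 0
        set Z' := e * 0 + u * 1 - bf a1 y (fun j => pderiv (Sum.inr 0) (y j))
        have h3 : c 2 * P =
          (c 0 * pderiv (Sum.inr 0) (y j0) + c 1 * pderiv (Sum.inr 0) lam +
          c 2 * (e * 0 + P * 1) + c 3 * Z' + c 4 * Z) -
          c 0 * pderiv (Sum.inr 0) (y j0) -
          c 1 * pderiv (Sum.inr 0) lam - c 3 * Z' - c 4 * Z := by ring
        rw [h3]
        exact Q.sub_mem (Q.sub_mem (Q.sub_mem (Q.sub_mem h1 (Q.mul_mem_right _ hc0))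
          (Q.mul_mem_right _ hc1)) (Q.mul_mem_right _ hc3)) (Q.mul_mem_right _ hc4)
      exact (hQ.mem_or_mem h2).resolve_left hc2
    have h7 : t * c 2 * C ϖ ∈ Q ^ 2 := by
      have h8 : t * c 2 * C ϖ = - (t * ∑ k, c k * relE a0 b a1 ϖ j0 l k) +
          t * (c 0 * (y j0 - 1)) + t * (c 1 * (lam - 1)) + t * (c 3 * (e * u - qf a1 y)) +
          t * (c 4 * (qf a0 x + P * bil b x y + P * u)) + t * c 2 * (e * P) := by
        rw [Fin.sum_univ_five]
        show _ = - (t * (c 0 * (y j0 - 1) + c 1 * (lam - 1) + c 2 * (e * P - C ϖ) +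
          c 3 * (e * u - qf a1 y) + c 4 * (qf a0 x + P * bil b x y + P * u))) + _ + _ + _ + _ + _
        ring
      rw [h8]
      have hm : ∀ a ∈ Q, ∀ r ∈ Q, t * (a * r) ∈ Q ^ 2 := by
        intro a ha r hr
        apply Ideal.mul_mem_left
        rw [pow_two]
        exact Ideal.mul_mem_mul ha hr
      refine Ideal.add_mem _ (Ideal.add_mem _ (Ideal.add_mem _ (Ideal.add_mem _ (Ideal.add_mem _
        (Ideal.neg_mem_iff _ |>.mpr hsum) (hm _ hc0 _ hr0)) (hm _ hc1 _ hr1)) (hm _ hc3 _ hr3))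
        (hm _ hc4 _ hr4)) ?_
      apply Ideal.mul_mem_left
      rw [pow_two]
      exact Ideal.mul_mem_mul he hP
    rcases hQ.mem_or_mem (hunif _ h7) with h9 | h9
    · exact ht h9
    · exact hc2 h9
  intro i
  fin_cases i
  · exact hc0
  · exact hc1
  · exact hc2
  · exact hc3
  · exact hc4

end TypeE

end Pool.Agent.H97.NF
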