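import Pool.Agent.H97.NF.Charts

/-!
# Expansion of a quadratic form in a basis
-/

set_option autoImplicit false

namespace Pool.Agent.H97.NF

open IsLocalRing

section Expand

variable {F : Type*} [CommRing F] {R : Type*} [CommRing R] [Algebra F R] {ι : Type*} [Fintype ι]
  (S : Matrix ι ι F)

theorem bf_sum_sum {I J : Type*} [Fintype I] [Fintype J] (v : I → ι → F) (w : J → ι → F)
    (x : I → R) (y : J → R) :
    bf S (fun k => ∑ i, algebraMap F R (v i k) * x i) (fun k => ∑ j, algebraMap F R (w j k) * y j) =
      ∑ i, ∑ j, algebraMap F R (bf S (v i) (w j)) * (x i * y j) := by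
  have h1 : (fun k => ∑ i, algebraMap F R (v i k) * x i) =
      ∑ i, x i • (fun k => algebraMap F R (v i k)) := by
    funext k
    rw [Finset.sum_apply]
    refine Finset.sum_congr rfl fun i _ => ?_
    rw [Pi.smul_apply, smul_eq_mul, mul_comm]
  have h2 : (fun k => ∑ i, algebraMap F R (w i k) * y i) =
      ∑ i, y i • (fun k => algebraMap F R (w i k)) := by
    funext k
    rw [Finset.sum_apply]
    refine Finset.sum_congr rfl fun i _ => ?_
    rw [Pi.smul_apply, smul_eq_mul, mul_comm]
  rw [h1, h2, bf_sum_right, Finset.sum_comm]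
  refine Finset.sum_congr rfl fun j _ => ?_
  rw [bf_comm, bf_sum_right]
  refine Finset.sum_congr rfl fun i _ => ?_
  rw [bf_smul_right, bf_comm, bf_smul_right, bf_algebraMap (R := R) S (v i) (w j)]
  ring

theorem qf_sum_expand {J : Type*} [Fintype J] [LinearOrder J] (v : J → ι → F) (x : J → R) :
    qf S (fun k => ∑ j, algebraMap F R (v j k) * x j) =
      ∑ i, ∑ j, algebraMap F R (if i = j then qf S (v i) else if i < j then bf S (v i) (v j) else 0) *
        (x i * x j) := by
  classical
  let T : J → J → F := fun i j => ∑ k, ∑ l, S k l * (v i k * v j l)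
  have hbf : ∀ i j, bf S (v i) (v j) = T i j + T j i := by
    intro i j
    simp only [bf, T, ← Finset.sum_add_distrib, Algebra.algebraMap_self, RingHom.id_apply]
    refine Finset.sum_congr rfl fun k _ => Finset.sum_congr rfl fun l _ => ?_
    ring
  have hqf : ∀ i, qf S (v i) = T i i := by
    intro i
    simp only [qf, T, Algebra.algebraMap_self, RingHom.id_apply]
  have hL : qf S (fun k => ∑ j, algebraMap F R (v j k) * x j) =
      ∑ i, ∑ j, algebraMap F R (T i j) * (x i * x j) := by
    simp only [qf, T, map_sum, map_mul, Finset.sum_mul, Finset.mul_sum]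
    calc ∑ k, ∑ l, ∑ i, ∑ j, algebraMap F R (S k l) *
          (algebraMap F R (v j k) * x j * (algebraMap F R (v i l) * x i))
        = ∑ k, ∑ i, ∑ l, ∑ j, algebraMap F R (S k l) *
          (algebraMap F R (v j k) * x j * (algebraMap F R (v i l) * x i)) :=
          Finset.sum_congr rfl fun k _ => Finset.sum_comm
      _ = ∑ i, ∑ k, ∑ l, ∑ j, algebraMap F R (S k l) *
          (algebraMap F R (v j k) * x j * (algebraMap F R (v i l) * x i)) := Finset.sum_comm
      _ = ∑ i, ∑ k, ∑ j, ∑ l, algebraMap F R (S k l) *
          (algebraMap F R (v j k) * x j * (algebraMap F R (v i l) * x i)) :=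
          Finset.sum_congr rfl fun i _ => Finset.sum_congr rfl fun k _ => Finset.sum_comm
      _ = ∑ i, ∑ j, ∑ k, ∑ l, algebraMap F R (S k l) *
          (algebraMap F R (v j k) * x j * (algebraMap F R (v i l) * x i)) :=
          Finset.sum_congr rfl fun i _ => Finset.sum_comm
      _ = ∑ j, ∑ i, ∑ k, ∑ l, algebraMap F R (S k l) *
          (algebraMap F R (v j k) * x j * (algebraMap F R (v i l) * x i)) := Finset.sum_comm
      _ = _ := by
        refine Finset.sum_congr rfl fun i _ => Finset.sum_congr rfl fun j _ =>
          Finset.sum_congr rfl fun k _ => Finset.sum_congr rfl fun l _ => ?_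
        ring
  have hR : ∀ i j, algebraMap F R (if i = j then qf S (v i) else if i < j then bf S (v i) (v j) else 0)
      * (x i * x j) = algebraMap F R (T i j) * (x i * x j) +
        ((if i < j then algebraMap F R (T j i) * (x i * x j) else 0) -
        (if j < i then algebraMap F R (T i j) * (x i * x j) else 0)) := by
    intro i j
    rcases lt_trichotomy i j with h | h | h
    · rw [if_neg h.ne, if_pos h, if_pos h, if_neg (not_lt.mpr h.le), hbf, map_add]
      ring
    · subst h
      simp [hqf]
    · rw [if_neg h.ne', if_neg (not_lt.mpr h.le), if_neg (not_lt.mpr h.le), if_pos h, map_zero]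
      ring
  rw [hL]
  simp only [hR, Finset.sum_add_distrib, Finset.sum_sub_distrib]
  have hswap : ∑ i, ∑ j, (if i < j then algebraMap F R (T j i) * (x i * x j) else 0) =
      ∑ i, ∑ j, (if j < i then algebraMap F R (T i j) * (x i * x j) else 0) := by
    rw [Finset.sum_comm]
    refine Finset.sum_congr rfl fun i _ => Finset.sum_congr rfl fun j _ => ?_
    split_ifs
    · ring
    · rfl
  rw [hswap, sub_self, add_zero]

end Expand

section Residue

variable {D : Type} [CommRing D] [IsLocalRing D] {ι : Type} [Fintype ι] [DecidableEq ι]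

/-- The condition `Nondeg` may be checked over the residue field. -/
theorem nondeg_of_residue [Finite (ResidueField D)] (a : Matrix ι ι D) {ϖ : D}
    (hϖ : maximalIdeal D = Ideal.span {ϖ})
    (h : ∀ x : ι → ResidueField D, (∀ j, bf (a.map (residue D)) x (Pi.single j 1) = 0) →
      qf (a.map (residue D)) x = 0 → x = 0) : Nondeg a ϖ := by
  intro κ _ _ _ hκ ξ h1 h2
  have hker : ∀ d ∈ maximalIdeal D, algebraMap D κ d = 0 := by
    intro d hd
    rw [hϖ, Ideal.mem_span_singleton] at hd
    obtain ⟨e, rfl⟩ := hd
    rw [map_mul, hκ, zero_mul]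
  let φ : ResidueField D →+* κ := Ideal.Quotient.lift (maximalIdeal D) (algebraMap D κ) hker
  let _ : Algebra (ResidueField D) κ := φ.toAlgebra
  have hφ : ∀ d : D, algebraMap (ResidueField D) κ (residue D d) = algebraMap D κ d := fun d =>
    Ideal.Quotient.lift_mk _ _ _
  refine rad_ext (a.map (residue D)) h ξ (fun j => ?_) ?_
  · rw [← h1 j]
    simp only [bf, Matrix.map_apply, hφ]
  · rw [← h2]
    simp only [qf, Matrix.map_apply, hφ]

/-- Forms with an invertible polar form. -/
theorem nondeg_of_isUnit {D : Type} [CommRing D] {ι : Type} [Fintype ι] [DecidableEq ι]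
    (a : Matrix ι ι D) (ϖ : D) (h : IsUnit (a + a.transpose).det) : Nondeg a ϖ := by
  intro κ _ _ _ _ ξ h1 _
  funext i
  have h2 := det_mul_eq_zero a ξ h1 i
  exact (h.map (algebraMap D κ)).mul_left_eq_zero.mp (by rw [mul_comm]; exact h2)

end Residue

end Pool.Agent.H97.NF
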