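import Mathlib

/-!
# Quadratic forms with coefficients in a ring `D`, evaluated in `D`-algebras
-/

set_option autoImplicit false

namespace Pool.Agent.H97.NF

open MvPolynomial

section Basic

variable {ι : Type*} [Fintype ι] {D : Type*} [CommRing D] {R : Type*} [CommRing R] [Algebra D R]
  {R' : Type*} [CommRing R'] [Algebra D R']

/-- The value at `x` of the quadratic form with coefficient matrix `A`. -/
def qf (A : Matrix ι ι D) (x : ι → R) : R := ∑ i, ∑ j, algebraMap D R (A i j) * (x i * x j)

/-- The polar bilinear form of `qf A`. -/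
def bf (A : Matrix ι ι D) (x y : ι → R) : R :=
  ∑ i, ∑ j, algebraMap D R (A i j) * (x i * y j + y i * x j)

variable (A : Matrix ι ι D)

theorem qf_add (x y : ι → R) : qf A (x + y) = qf A x + qf A y + bf A x y := by
  simp only [qf, bf, ← Finset.sum_add_distrib, Pi.add_apply]
  refine Finset.sum_congr rfl fun i _ => Finset.sum_congr rfl fun j _ => ?_
  ring

theorem qf_smul (c : R) (x : ι → R) : qf A (c • x) = c ^ 2 * qf A x := by
  simp only [qf, Finset.mul_sum, Pi.smul_apply, smul_eq_mul]
  refine Finset.sum_congr rfl fun i _ => Finset.sum_congr rfl fun j _ => ?_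
  ring

theorem qf_mul (c : R) (x : ι → R) : qf A (fun i => c * x i) = c ^ 2 * qf A x := qf_smul A c x

theorem bf_self (x : ι → R) : bf A x x = 2 * qf A x := by
  simp only [qf, bf, Finset.mul_sum]
  refine Finset.sum_congr rfl fun i _ => Finset.sum_congr rfl fun j _ => ?_
  ring

theorem bf_comm (x y : ι → R) : bf A x y = bf A y x := by
  simp only [bf]
  refine Finset.sum_congr rfl fun i _ => Finset.sum_congr rfl fun j _ => ?_
  ring

theorem bf_add_right (x y z : ι → R) : bf A x (y + z) = bf A x y + bf A x z := by
  simp only [bf, ← Finset.sum_add_distrib, Pi.add_apply]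
  refine Finset.sum_congr rfl fun i _ => Finset.sum_congr rfl fun j _ => ?_
  ring

theorem bf_smul_right (c : R) (x y : ι → R) : bf A x (c • y) = c * bf A x y := by
  simp only [bf, Finset.mul_sum, Pi.smul_apply, smul_eq_mul]
  refine Finset.sum_congr rfl fun i _ => Finset.sum_congr rfl fun j _ => ?_
  ring

theorem bf_add_left (x y z : ι → R) : bf A (x + y) z = bf A x z + bf A y z := by
  rw [bf_comm, bf_add_right, bf_comm, bf_comm A z y]

theorem bf_smul_left (c : R) (x y : ι → R) : bf A (c • x) y = c * bf A x y := by
  rw [bf_comm, bf_smul_right, bf_comm]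

@[simp] theorem qf_zero : qf A (0 : ι → R) = 0 := by simp [qf]

@[simp] theorem bf_zero_right (x : ι → R) : bf A x 0 = 0 := by simp [bf]

@[simp] theorem bf_zero_left (x : ι → R) : bf A 0 x = 0 := by simp [bf]

theorem bf_sum_right {κ : Type*} (s : Finset κ) (x : ι → R) (y : κ → ι → R) :
    bf A x (∑ k ∈ s, y k) = ∑ k ∈ s, bf A x (y k) := by
  classical
  induction s using Finset.induction_on with
  | empty => simp
  | insert a s ha ih => rw [Finset.sum_insert ha, Finset.sum_insert ha, bf_add_right, ih]

theorem map_qf (φ : R →ₐ[D] R') (x : ι → R) : φ (qf A x) = qf A (fun i => φ (x i)) := by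
  simp [qf, map_sum]

theorem map_bf (φ : R →ₐ[D] R') (x y : ι → R) :
    φ (bf A x y) = bf A (fun i => φ (x i)) (fun i => φ (y i)) := by
  simp [bf, map_sum]

theorem bf_eq_sum_single [DecidableEq ι] (x y : ι → R) :
    bf A x y = ∑ k, y k * bf A x (Pi.single k 1) := by
  have h : y = ∑ k, y k • (Pi.single k 1 : ι → R) := by
    ext i
    simp [Finset.sum_apply, Pi.single_apply]
  conv_lhs => rw [h]
  rw [bf_sum_right]
  refine Finset.sum_congr rfl fun k _ => ?_
  rw [bf_smul_right]

theorem bf_single_right [DecidableEq ι] (x : ι → R) (k : ι) :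
    bf A x (Pi.single k 1) = ∑ i, algebraMap D R ((A + A.transpose) k i) * x i := by
  have h : ∀ i j, algebraMap D R (A i j) *
      (x i * (Pi.single k 1 : ι → R) j + (Pi.single k 1 : ι → R) i * x j)
      = (if j = k then algebraMap D R (A i k) * x i else 0) +
        (if i = k then algebraMap D R (A k j) * x j else 0) := by
    intro i j
    by_cases h1 : j = k <;> by_cases h2 : i = k
    · subst h1; subst h2; simp; ring
    · subst h1; simp [h2]
    · subst h2; simp [h1]
    · simp [h1, h2]
  simp only [bf, h, Finset.sum_add_distrib]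
  have h3 : ∑ x_1, ∑ x_2, (if x_1 = k then algebraMap D R (A k x_2) * x x_2 else 0)
      = ∑ j, algebraMap D R (A k j) * x j := by
    rw [Finset.sum_comm]
    simp
  rw [h3]
  simp only [Finset.sum_ite_eq', Finset.mem_univ, if_true]
  rw [← Finset.sum_add_distrib]
  refine Finset.sum_congr rfl fun i _ => ?_
  simp [Matrix.add_apply, Matrix.transpose_apply]
  ring

/-- If the polar form of `x` vanishes identically then `det (A + Aᵀ) • x = 0`. -/
theorem det_mul_eq_zero [DecidableEq ι] (x : ι → R) (h : ∀ k, bf A x (Pi.single k 1) = 0) (i : ι) :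
    algebraMap D R ((A + A.transpose).det) * x i = 0 := by
  have h1 : ((A + A.transpose).map (algebraMap D R)).mulVec x = 0 := by
    ext k
    rw [Matrix.mulVec, dotProduct]
    simp only [Matrix.map_apply, Pi.zero_apply]
    rw [← bf_single_right, h]
  have h2 := congrArg (((A + A.transpose).map (algebraMap D R)).adjugate.mulVec) h1
  rw [Matrix.mulVec_mulVec, Matrix.adjugate_mul, Matrix.mulVec_zero, Matrix.smul_mulVec,
    Matrix.one_mulVec] at h2
  have h3 := congrFun h2 i
  have h4 : ((A + A.transpose).map (algebraMap D R)).det = algebraMap D R ((A + A.transpose).det) := by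
    have := (algebraMap D R).map_det (A + A.transpose)
    simpa [RingHom.mapMatrix_apply] using this.symm
  rw [h4] at h3
  simpa using h3

theorem qf_sum_of_rad [DecidableEq ι] {α : Type*} (s : Finset α) (c : α → R)
    (w : α → ι → R) (hw : ∀ a ∈ s, ∀ k, bf A (w a) (Pi.single k 1) = 0) :
    qf A (∑ a ∈ s, c a • w a) = ∑ a ∈ s, c a ^ 2 * qf A (w a) := by
  classical
  induction s using Finset.induction_on with
  | empty => simp
  | insert a s ha ih =>
    rw [Finset.sum_insert ha, Finset.sum_insert ha, qf_add, qf_smul,
      ih (fun b hb => hw b (Finset.mem_insert_of_mem hb))]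
    have : bf A (c a • w a) (∑ a ∈ s, c a • w a) = 0 := by
      rw [bf_smul_left, bf_eq_sum_single]
      simp [hw a (Finset.mem_insert_self a s)]
    rw [this, add_zero]

/-- A derivation applied to a quadratic form. -/
theorem der_qf (d : Derivation D R R) (x : ι → R) : d (qf A x) = bf A x (fun i => d (x i)) := by
  simp only [qf, bf, map_sum]
  refine Finset.sum_congr rfl fun i _ => Finset.sum_congr rfl fun j _ => ?_
  rw [Derivation.leibniz, Derivation.leibniz, Derivation.map_algebraMap]
  simp only [smul_eq_mul]
  ring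

theorem qf_algebraMap {E : Type*} [CommRing E] [Algebra D E] [Algebra E R] [IsScalarTower D E R]
    (x : ι → E) : algebraMap E R (qf A x) = qf A (fun i => algebraMap E R (x i)) :=
  map_qf A (IsScalarTower.toAlgHom D E R) x

theorem bf_algebraMap {E : Type*} [CommRing E] [Algebra D E] [Algebra E R] [IsScalarTower D E R]
    (x y : ι → E) :
    algebraMap E R (bf A x y) = bf A (fun i => algebraMap E R (x i)) (fun i => algebraMap E R (y i)) :=
  map_bf A (IsScalarTower.toAlgHom D E R) x y

end Basic

section Rad

variable {ι : Type*} [Fintype ι] [DecidableEq ι]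

/-- A quadratic form without radical over a finite field has no radical over any domain containing
the field. -/
theorem rad_ext {k : Type*} [Field k] [Finite k] {κ : Type*} [CommRing κ] [IsDomain κ]
    [Algebra k κ] (A : Matrix ι ι k)
    (h : ∀ x : ι → k, (∀ j, bf A x (Pi.single j 1) = 0) → qf A x = 0 → x = 0)
    (ξ : ι → κ) (h1 : ∀ j, bf A ξ (Pi.single j 1) = 0) (h2 : qf A ξ = 0) : ξ = 0 := by
  classical
  have : Fintype k := Fintype.ofFinite k
  let b := Module.Basis.ofVectorSpace k κ
  let s : Finset _ := Finset.univ.biUnion fun j => (b.repr (ξ j)).support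
  let w : _ → ι → k := fun a j => b.repr (ξ j) a
  have hξ : ξ = ∑ a ∈ s, b a • (fun j => algebraMap k κ (w a j)) := by
    ext j
    rw [Finset.sum_apply]
    have h3 : ξ j = ∑ a ∈ (b.repr (ξ j)).support, b.repr (ξ j) a • b a := by
      conv_lhs => rw [← b.linearCombination_repr (ξ j)]
      rfl
    conv_lhs => rw [h3]
    rw [Finset.sum_subset (s₂ := s)]
    · refine Finset.sum_congr rfl fun a _ => ?_
      rw [Algebra.smul_def, Pi.smul_apply, smul_eq_mul, mul_comm]
    · intro a ha
      exact Finset.mem_biUnion.mpr ⟨j, Finset.mem_univ _, ha⟩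
    · intro a _ ha
      rw [Finsupp.notMem_support_iff.mp ha, zero_smul]
  have hbf : ∀ a k, bf A (w a) (Pi.single k 1) = 0 := by
    intro a l
    have h3 := h1 l
    rw [bf_single_right] at h3 ⊢
    have h4 := congrArg (fun z => b.repr z a) h3
    simp only [map_sum, map_zero, Finsupp.coe_finsetSum, Finset.sum_apply, Finsupp.coe_zero,
      Pi.zero_apply] at h4
    rw [← h4]
    refine Finset.sum_congr rfl fun i _ => ?_
    have h5 : algebraMap k κ ((A + A.transpose) l i) * ξ i = ((A + A.transpose) l i) • ξ i :=
      (Algebra.smul_def _ _).symm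
    rw [h5, map_smul, Finsupp.smul_apply, smul_eq_mul]
    rfl
  have hqsum : ∑ a ∈ s, (b a) ^ 2 * algebraMap k κ (qf A (w a)) = 0 := by
    have h6 := qf_sum_of_rad A s (fun a => b a) (fun a j => algebraMap k κ (w a j))
      (by
        intro a _ l
        have h7 := congrArg (algebraMap k κ) (hbf a l)
        rw [bf_algebraMap, map_zero] at h7
        convert h7 using 2
        ext i
        by_cases hik : i = l
        · subst hik; simp
        · simp [hik])
    rw [← hξ, h2] at h6
    rw [h6]
    refine Finset.sum_congr rfl fun a _ => ?_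
    rw [qf_algebraMap]
  have hw0 : ∀ a, w a = 0 := by
    intro a
    apply h _ (hbf a)
    by_cases h20 : (2 : k) = 0
    · -- characteristic two
      have hchar : CharP k 2 := CharTwo.of_one_ne_zero_of_two_eq_zero one_ne_zero h20
      have hcharκ : CharP κ 2 := charP_of_injective_algebraMap (algebraMap k κ).injective 2
      by_cases ha : a ∈ s
      · -- square roots
        have hsq : ∀ z : k, ∃ r : k, r ^ 2 = z := by
          intro z
          have := (FiniteField.isSquare_of_char_two (ringChar.eq k 2 ▸ rfl) z)
          obtain ⟨r, hr⟩ := this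
          exact ⟨r, by rw [hr, pow_two]⟩
        choose r hr using hsq
        have h8 : (∑ a ∈ s, r (qf A (w a)) • b a) ^ 2 = 0 := by
          rw [sum_pow_char]
          rw [← hqsum]
          refine Finset.sum_congr rfl fun a _ => ?_
          rw [Algebra.smul_def, mul_pow, ← map_pow, hr, mul_comm]
        have h9 : ∑ a ∈ s, r (qf A (w a)) • b a = 0 := by
          exact pow_eq_zero_iff (two_ne_zero) |>.mp h8
        have h10 := (linearIndependent_iff'.mp b.linearIndependent) s (fun a => r (qf A (w a))) h9 a ha
        rw [← hr (qf A (w a)), h10]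
        simp
      · have h10 : w a = 0 := by
          ext j
          by_contra hne
          exact ha (Finset.mem_biUnion.mpr ⟨j, Finset.mem_univ _, Finsupp.mem_support_iff.mpr hne⟩)
        rw [h10, qf_zero]
    · have h11 : bf A (w a) (w a) = 0 := by
        rw [bf_eq_sum_single]
        simp [hbf a]
      rw [bf_self] at h11
      exact (mul_eq_zero.mp h11).resolve_left h20
  rw [hξ]
  apply Finset.sum_eq_zero
  intro a _
  ext j
  simp [hw0 a]

end Rad

/-- The form `qf A` has no radical over any domain in which `ϖ` vanishes. -/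
def Nondeg {ι : Type*} [Fintype ι] [DecidableEq ι] {D : Type*} [CommRing D] (A : Matrix ι ι D)
    (ϖ : D) : Prop :=
  ∀ (κ : Type) [CommRing κ] [IsDomain κ] [Algebra D κ], algebraMap D κ ϖ = 0 →
    ∀ ξ : ι → κ, (∀ j, bf A ξ (Pi.single j 1) = 0) → qf A ξ = 0 → ξ = 0

end Pool.Agent.H97.NF
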