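import Pool.Agent.H97.NF.Chart
import Pool.Agent.H19.OG.P2

/-!
# The function field of a quadric over a number field has regular charts
-/

set_option autoImplicit false
set_option linter.unusedSectionVars false

namespace Pool.Agent.H97.NF

open Module IsLocalRing

theorem exists_gens {K : Type} [Field K] (N : Submodule ℤ K) (hN : N.FG) :
    ∃ (MI : Type) (_ : Finite MI) (mg : MI → K),
      Submodule.span ℤ (Set.range mg) = N ∧ ∀ i, mg i ≠ 0 := by
  obtain ⟨s, hs⟩ := hN
  refine ⟨((s : Set K) \ {0} : Set K), ?_, Subtype.val, ?_, ?_⟩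
  · exact (s.finite_toSet.subset Set.sdiff_subset).to_subtype
  · rw [Subtype.range_coe, Submodule.span_sdiff_singleton_zero, hs]
  · rintro ⟨x, hx⟩
    exact hx.2

variable {A : Type} [CommRing A] [IsDedekindDomain A] {F : Type} [Field F] [Algebra A F]
  [IsFractionRing A F] {ι : Type} [Fintype ι] [DecidableEq ι] {K : Type} [Field K] [Algebra F K]
  [Algebra A K] [IsScalarTower A F K] {S : Matrix ι ι F} {L : Submodule A (ι → F)} {δ : A}
  {t : ι → K} {pk : ∀ (P : Ideal A) [P.IsPrime], Pack S L δ P}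
  {MI WI : Type} {mg : MI → K} {wg : WI → K}

theorem smul_t_mem (hL : MaxLat S L δ) (i : ι) : δ • t i ∈ MM t L := by
  refine ⟨δ • (Pi.single i 1 : ι → F), ?_, ?_⟩
  · intro v hv
    obtain ⟨a, ha⟩ := hL.bound v hv i
    refine ⟨a, ?_⟩
    rw [ha, Finset.sum_eq_single i]
    · rw [Pi.smul_apply, Pi.single_eq_same, Algebra.smul_def, mul_one]
    · intro k _ hk
      rw [Pi.smul_apply, Pi.single_eq_of_ne hk, smul_zero, zero_mul]
    · intro h; exact absurd (Finset.mem_univ _) h
  · rw [map_smul, Phi_apply, Finset.sum_eq_single i]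
    · rw [Pi.single_eq_same, map_one, one_mul]
    · intro k _ hk
      rw [Pi.single_eq_of_ne hk, map_zero, zero_mul]
    · intro h; exact absurd (Finset.mem_univ _) h

theorem Gens.isFractionRing (hG : Gens t pk mg wg) (a : WI) (b : MI) (hL : MaxLat S L δ)
    {i0 : ι} (hi0 : t i0 = 1)
    (hgen : ∀ E : Subfield K, (∀ x : F, algebraMap F K x ∈ E) → (∀ i, t i ∈ E) → E = ⊤) :
    IsFractionRing (chartRing (gg mg wg) (a, b)) K := by
  have hclos : Subfield.closure (chartRing (gg mg wg) (a, b) : Set K) = ⊤ := by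
    have hδ : algebraMap A K δ ≠ 0 := by
      rw [IsScalarTower.algebraMap_apply A F K, Ne, map_eq_zero_iff _ (algebraMap F K).injective,
        map_eq_zero_iff _ (IsFractionRing.injective A F)]
      exact hL.ne_zero
    apply hgen
    · intro x
      obtain ⟨α, β, _, rfl⟩ := IsFractionRing.div_surjective (A := A) x
      rw [map_div₀, ← IsScalarTower.algebraMap_apply, ← IsScalarTower.algebraMap_apply]
      exact Subfield.div_mem _ (Subfield.subset_closure (hG.algebraMap_mem a b α))
        (Subfield.subset_closure (hG.algebraMap_mem a b β))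
    · intro i
      have h1 : t i = (δ • t i / mg b) / (δ • t i0 / mg b) := by
        have := hG.m0 b
        rw [hi0, Algebra.smul_def, Algebra.smul_def]
        field_simp
      rw [h1]
      exact Subfield.div_mem _ (Subfield.subset_closure (hG.div_mem_M a b (smul_t_mem hL i)))
        (Subfield.subset_closure (hG.div_mem_M a b (smul_t_mem hL i0)))
  refine IsFractionRing.of_field (chartRing (gg mg wg) (a, b)) K ?_
  intro y
  have hk : y ∈ Subfield.closure (chartRing (gg mg wg) (a, b) : Set K) := by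
    rw [hclos]; trivial
  rw [Subfield.mem_closure_iff] at hk
  obtain ⟨c, hc, d, hd, rfl⟩ := hk
  have hcl : Subring.closure (chartRing (gg mg wg) (a, b) : Set K) =
      (chartRing (gg mg wg) (a, b)).toSubring :=
    Subring.closure_eq (chartRing (gg mg wg) (a, b)).toSubring
  rw [hcl] at hc hd
  exact ⟨⟨c, hc⟩, ⟨d, hd⟩, rfl⟩

open Pool.Agent.H19.OG

/-- **The main theorem**, in terms of fields. -/
theorem hasCharts_main [Module.Finite ℤ A] (hfin : ∀ P : Ideal A, P ≠ ⊥ → Finite (A ⧸ P))
    (hS : (S + S.transpose).det ≠ 0) (hq : qf S t = 0) {i0 : ι} (hi0 : t i0 = 1)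
    (hgen : ∀ E : Subfield K, (∀ x : F, algebraMap F K x ∈ E) → (∀ i, t i ∈ E) → E = ⊤)
    {κ : Type} [Finite κ] {x : κ → K} (hx : AlgebraicIndependent F x)
    (hr : Nat.card ι ≤ Nat.card κ + 2) : HasCharts K := by
  classical
  obtain ⟨L, δ, hL⟩ := exists_maxLat (A := A) S hS
  let pk : ∀ (P : Ideal A) [P.IsPrime], Pack S L δ P := fun P _ =>
    (exists_pack hS hL hfin P).some
  obtain ⟨MI, hMI, mg, hM, hm0⟩ := exists_gens _ ((MM_fg t hL).restrictScalars (R := ℤ))
  obtain ⟨WI, hWI, wg, hW, hw0⟩ := exists_gens _ ((WW_fg t pk hL).restrictScalars (R := ℤ))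
  have hG : Gens t pk mg wg := ⟨hM, hW, hm0, hw0⟩
  have hδ : algebraMap A K δ ≠ 0 := by
    rw [IsScalarTower.algebraMap_apply A F K, Ne, map_eq_zero_iff _ (algebraMap F K).injective,
      map_eq_zero_iff _ (IsFractionRing.injective A F)]
    exact hL.ne_zero
  have hm1 : δ • t i0 ∈ MM t L := smul_t_mem hL i0
  have hw1 : δ • (δ • t i0 * (δ • t i0)) ∈ WW t pk := by
    refine ⟨Submodule.smul_mem _ _ (Submodule.mul_mem_mul hm1 hm1), fun P _ hP => ?_⟩
    exact smul_mem_N t (pk P) hP (Submodule.mul_mem_mul hm1 hm1)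
  obtain ⟨b⟩ : Nonempty MI := by
    by_contra hne
    rw [not_nonempty_iff] at hne
    rw [Set.range_eq_empty, Submodule.span_empty] at hM
    have h1 : δ • t i0 ∈ (MM t L).restrictScalars ℤ := hm1
    rw [← hM, Submodule.mem_bot, hi0, Algebra.smul_def, mul_one] at h1
    exact hδ h1
  obtain ⟨a⟩ : Nonempty WI := by
    by_contra hne
    rw [not_nonempty_iff] at hne
    rw [Set.range_eq_empty, Submodule.span_empty] at hW
    have h1 : δ • (δ • t i0 * (δ • t i0)) ∈ (WW t pk).restrictScalars ℤ := hw1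
    rw [← hW, Submodule.mem_bot, hi0] at h1
    simp only [Algebra.smul_def, mul_one] at h1
    exact mul_ne_zero hδ (mul_ne_zero hδ hδ) h1
  refine ⟨WI × MI, inferInstance, gg mg wg, (a, b), hG.gg_ne_zero, ?_, ?_⟩
  · rintro ⟨a', b'⟩
    have hfr : IsFractionRing (chartRing (gg mg wg) (a', b')) K :=
      hG.isFractionRing a' b' hL hi0 hgen
    have hft : Algebra.FiniteType ℤ (chartRing (gg mg wg) (a', b')) := by
      rw [← Subalgebra.fg_iff_finiteType]
      exact ⟨(Set.finite_range _).toFinset, by rw [Set.Finite.coe_toFinset]; rfl⟩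
    have hnoeth : IsNoetherianRing (chartRing (gg mg wg) (a', b')) :=
      Algebra.FiniteType.isNoetherianRing ℤ _
    rw [isRegularRing_iff]
    intro 𝔮 h𝔮
    exact hG.isRegularLocalRing a' b' (fg_of_bound hL.ne_zero hL.bound) hL.ne_zero hq hx hr 𝔮
  · exact hG.isFractionRing a b hL hi0 hgen

end Pool.Agent.H97.NF
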