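import Pool.Agent.H97.NF.Form

/-!
# Maximal lattices for a quadratic form over the fraction field of a Dedekind domain
-/

set_option autoImplicit false

namespace Pool.Agent.H97.NF

variable {A F : Type} [CommRing A] [IsDedekindDomain A] [Field F] [Algebra A F]
  [IsFractionRing A F] {ι : Type} [Fintype ι] [DecidableEq ι]

/-- Common denominators. -/
theorem exists_common_den {κ : Type} [Finite κ] (f : κ → F) :
    ∃ d : A, d ≠ 0 ∧ ∀ k, algebraMap A F d * f k ∈ (algebraMap A F).range := by
  obtain ⟨b, hb⟩ := IsLocalization.exist_integer_multiples_of_finite (nonZeroDivisors A) f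
  refine ⟨b, nonZeroDivisors.coe_ne_zero b, fun k => ?_⟩
  obtain ⟨a, ha⟩ := hb k
  exact ⟨a, by rw [ha, Algebra.smul_def]⟩

variable (A) in
/-- The form takes values in `A` on `L`. -/
def Integral (S : Matrix ι ι F) (L : Submodule A (ι → F)) : Prop :=
  ∀ v ∈ L, qf S v ∈ (algebraMap A F).range

variable (S : Matrix ι ι F)

omit [IsDedekindDomain A] [IsFractionRing A F] [DecidableEq ι] in
theorem Integral.bf_mem {S : Matrix ι ι F} {L : Submodule A (ι → F)} (h : Integral A S L)
    {v w : ι → F} (hv : v ∈ L) (hw : w ∈ L) : bf S v w ∈ (algebraMap A F).range := by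
  have h1 : bf S v w = qf S (v + w) - qf S v - qf S w := by rw [qf_add]; ring
  rw [h1]
  exact Subring.sub_mem _ (Subring.sub_mem _ (h _ (L.add_mem hv hw)) (h _ hv)) (h _ hw)

/-- The data of a maximal lattice. -/
structure MaxLat (L : Submodule A (ι → F)) (δ : A) : Prop where
  ne_zero : δ ≠ 0
  int : Integral A S L
  max : ∀ L' : Submodule A (ι → F), L ≤ L' → Integral A S L' → L' ≤ L
  single_mem : ∀ i, δ • (Pi.single i 1 : ι → F) ∈ L
  bound : ∀ v ∈ L, ∀ i, algebraMap A F δ * v i ∈ (algebraMap A F).range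
  coef : ∀ i j, algebraMap A F δ * S i j ∈ (algebraMap A F).range
  inv : ∀ i j, algebraMap A F δ * (S + S.transpose)⁻¹ i j ∈ (algebraMap A F).range

theorem exists_maxLat (hS : (S + S.transpose).det ≠ 0) :
    ∃ (L : Submodule A (ι → F)) (δ : A), MaxLat S L δ := by
  classical
  obtain ⟨d, hd0, hd⟩ := exists_common_den (A := A) (fun x : ι × ι => S x.1 x.2)
  obtain ⟨d2, hd20, hd2⟩ := exists_common_den (A := A) (fun x : ι × ι => (S + S.transpose)⁻¹ x.1 x.2)
  let L0 : Submodule A (ι → F) :=
    { carrier := {v | ∃ a : ι → A, v = fun i => algebraMap A F d * algebraMap A F (a i)}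
      add_mem' := by
        rintro _ _ ⟨a, rfl⟩ ⟨b, rfl⟩
        exact ⟨a + b, by ext i; simp [mul_add]⟩
      zero_mem' := ⟨0, by ext i; simp⟩
      smul_mem' := by
        rintro c _ ⟨a, rfl⟩
        exact ⟨c • a, by ext i; simp [Algebra.smul_def]; ring⟩ }
  have hL0 : Integral A S L0 := by
    rintro _ ⟨a, rfl⟩
    rw [qf_mul]
    choose s hs using hd
    refine ⟨d * ∑ i, ∑ j, s (i, j) * (a i * a j), ?_⟩
    rw [map_mul, map_sum, pow_two, mul_assoc]
    congr 1
    rw [qf, Finset.mul_sum]
    refine Finset.sum_congr rfl fun i _ => ?_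
    rw [map_sum, Finset.mul_sum]
    refine Finset.sum_congr rfl fun j _ => ?_
    rw [map_mul, map_mul, hs]
    simp only [Algebra.algebraMap_self, RingHom.id_apply]
    ring
  obtain ⟨L, hL0L, hLmax⟩ := zorn_le_nonempty₀ {L' : Submodule A (ι → F) | Integral A S L'}
    (by
      intro c hc hchain y hy
      refine ⟨sSup c, ?_, fun z hz => le_sSup hz⟩
      intro v hv
      rw [Submodule.mem_sSup_of_directed ⟨y, hy⟩ hchain.directedOn] at hv
      obtain ⟨L', hL', hv'⟩ := hv
      exact hc hL' v hv') L0 hL0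
  have hint : Integral A S L := hLmax.1
  refine ⟨L, d * d2, mul_ne_zero hd0 hd20, hint, fun L' h1 h2 => hLmax.2 h2 h1, ?_, ?_, ?_, ?_⟩
  · intro i
    apply hL0L
    refine ⟨Pi.single i d2, ?_⟩
    ext k
    rw [Pi.smul_apply, Algebra.smul_def, map_mul]
    by_cases hk : k = i
    · subst hk; simp
    · simp [hk]
  · intro v hv i
    have h1 : ∀ j, algebraMap A F d * ((S + S.transpose).mulVec v) j ∈ (algebraMap A F).range := by
      intro j
      have h2 : (algebraMap A F d) • (Pi.single j 1 : ι → F) ∈ L := by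
        apply hL0L
        refine ⟨Pi.single j 1, ?_⟩
        ext k
        rw [Pi.smul_apply, smul_eq_mul]
        by_cases hk : k = j
        · subst hk; simp
        · simp [hk]
      have h3 := hint.bf_mem hv h2
      rw [bf_smul_right, bf_single_right] at h3
      exact h3
    choose a ha using h1
    choose s hs using hd2
    refine ⟨∑ j, s (i, j) * a j, ?_⟩
    have h4 : v = (S + S.transpose)⁻¹.mulVec ((S + S.transpose).mulVec v) := by
      rw [Matrix.mulVec_mulVec, Matrix.nonsing_inv_mul _ (isUnit_iff_ne_zero.mpr hS),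
        Matrix.one_mulVec]
    rw [map_sum, map_mul]
    conv_rhs => rw [h4]
    rw [Matrix.mulVec, dotProduct, Finset.mul_sum]
    refine Finset.sum_congr rfl fun j _ => ?_
    rw [map_mul, hs, ha]
    ring
  · intro i j
    obtain ⟨s, hs⟩ := hd (i, j)
    refine ⟨d2 * s, ?_⟩
    rw [map_mul, map_mul, hs]
    ring
  · intro i j
    obtain ⟨s, hs⟩ := hd2 (i, j)
    refine ⟨d * s, ?_⟩
    rw [map_mul, map_mul, hs]
    ring

end Pool.Agent.H97.NF
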