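import Pool.Agent.H97.NF.Lattice

/-!
# Local structure of a maximal lattice
-/

set_option autoImplicit false

namespace Pool.Agent.H97.NF

open IsLocalRing

variable {A F : Type} [CommRing A] [IsDedekindDomain A] [Field F] [Algebra A F]
  [IsFractionRing A F] {ι : Type} [Fintype ι] [DecidableEq ι]
  {S : Matrix ι ι F} {L : Submodule A (ι → F)} {δ : A}
  {P : Ideal A} [hPp : P.IsPrime] {D : Type} [CommRing D] [IsDomain D]
  [Algebra A D] [IsLocalization.AtPrime D P] [Algebra D F] [IsScalarTower A D F]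

/-- The localization of the lattice. -/
abbrev LD (D : Type) [CommRing D] [Algebra D F] (L : Submodule A (ι → F)) : Submodule D (ι → F) :=
  Submodule.span D (L : Set (ι → F))

omit [IsDedekindDomain A] [IsFractionRing A F] [Fintype ι] [DecidableEq ι] [IsDomain D] in
variable (P) in
theorem mem_LD {v : ι → F} : v ∈ LD D L ↔ ∃ s : A, s ∉ P ∧ s • v ∈ L := by
  constructor
  · intro hv
    induction hv using Submodule.span_induction with
    | mem x hx => exact ⟨1, fun h => hPp.ne_top ((Ideal.eq_top_iff_one _).mpr h), by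
        rw [one_smul]; exact hx⟩
    | zero => exact ⟨1, fun h => hPp.ne_top ((Ideal.eq_top_iff_one _).mpr h), by
        rw [smul_zero]; exact L.zero_mem⟩
    | add x y _ _ hx hy =>
      obtain ⟨s, hs, hsx⟩ := hx
      obtain ⟨t, ht, hty⟩ := hy
      refine ⟨s * t, fun h => (hPp.mem_or_mem h).elim hs ht, ?_⟩
      rw [smul_add, mul_smul, mul_smul, smul_comm s t x]
      exact L.add_mem (L.smul_mem _ hsx) (L.smul_mem _ hty)
    | smul d x _ hx =>
      obtain ⟨s, hs, hsx⟩ := hx
      obtain ⟨⟨a, t⟩, hat⟩ := IsLocalization.surj P.primeCompl d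
      refine ⟨t * s, fun h => (hPp.mem_or_mem h).elim t.2 hs, ?_⟩
      have h1 : ((t : A) * s) • d • x = a • (s • x) := by
        have h2 : (t : A) • d • x = a • x := by
          rw [← smul_assoc, Algebra.smul_def (t : A) d, mul_comm (algebraMap A D t) d, hat,
            algebraMap_smul]
        rw [mul_comm, mul_smul, h2, smul_comm]
      rw [h1]
      exact L.smul_mem _ hsx
  · rintro ⟨s, hs, hsv⟩
    have hu : IsUnit (algebraMap A D s) := IsLocalization.map_units D (⟨s, hs⟩ : P.primeCompl)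
    obtain ⟨u, hu⟩ := hu
    have h1 : v = ((u⁻¹ : Dˣ) : D) • (s • v) := by
      have h2 : s • v = (u : D) • v := by rw [hu, algebraMap_smul]
      rw [h2, smul_smul, Units.inv_mul, one_smul]
    rw [h1]
    exact Submodule.smul_mem _ _ (Submodule.subset_span hsv)

omit [IsDedekindDomain A] [IsFractionRing A F] [DecidableEq ι] in
theorem integral_LD {D : Type} [CommRing D]
    [Algebra A D] (P : Ideal A) [P.IsPrime] [IsLocalization.AtPrime D P] [Algebra D F]
    [IsScalarTower A D F] (h : Integral A S L) : Integral D S (LD D L) := by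
  intro v hv
  obtain ⟨s, hs, hsv⟩ := (mem_LD P).mp hv
  obtain ⟨a, ha⟩ := h _ hsv
  have hu : IsUnit (algebraMap A D s) := IsLocalization.map_units D (⟨s, hs⟩ : P.primeCompl)
  obtain ⟨u, hu⟩ := hu
  refine ⟨((u⁻¹ : Dˣ) : D) ^ 2 * algebraMap A D a, ?_⟩
  have h1 : s • v = (algebraMap D F u) • v := by
    rw [hu, ← IsScalarTower.algebraMap_apply, algebraMap_smul]
  rw [h1, qf_smul] at ha
  rw [map_mul, ← IsScalarTower.algebraMap_apply, ha, ← mul_assoc, ← map_pow, ← map_mul, ← mul_pow,
    Units.inv_mul, one_pow, map_one, one_mul]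

theorem mem_sq_of_mul_mem {s x : A} (hP : P ≠ ⊥) (hs : s ∉ P) (hsx : s * x ∈ P ^ 2) : x ∈ P ^ 2 := by
  have hmax : P.IsMaximal := hPp.isMaximal hP
  have hx : x ∈ P := (hPp.mem_or_mem (Ideal.pow_le_self two_ne_zero hsx)).resolve_left hs
  obtain ⟨u, p, hp, hup⟩ := hmax.exists_inv hs
  have h1 : x = u * (s * x) + p * x := by
    rw [← mul_assoc, ← add_mul]
    have : u * s + p = 1 := by rw [← hup]
    rw [this, one_mul]
  rw [h1]
  refine Ideal.add_mem _ (Ideal.mul_mem_left _ _ hsx) ?_
  rw [pow_two]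
  exact Ideal.mul_mem_mul hp hx

variable [IsDiscreteValuationRing D] [IsFractionRing D F]

/-- Maximality, localized. -/
theorem exists_smul_of_maxLat (hL : MaxLat S L δ) (hP : P ≠ ⊥) {ϖ : D}
    (hϖ : maximalIdeal D = Ideal.span {ϖ}) {v : ι → F} (hv : v ∈ LD D L)
    (hB : ∀ w ∈ LD D L, ∃ d : D, bf S v w = algebraMap D F (ϖ * d))
    (hq : ∃ d : D, qf S v = algebraMap D F (ϖ ^ 2 * d)) : ∃ w ∈ LD D L, v = ϖ • w := by
  have hinjA : Function.Injective (algebraMap A F) := IsFractionRing.injective A F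
  have hinjD : Function.Injective (algebraMap D F) := IsFractionRing.injective D F
  have hmax : P.IsMaximal := hPp.isMaximal hP
  obtain ⟨s, hs, hsv⟩ := (mem_LD P).mp hv
  obtain ⟨u, hu⟩ : IsUnit (algebraMap A D s) :=
    IsLocalization.map_units D (⟨s, hs⟩ : P.primeCompl)
  set v' : ι → F := s • v with hv'
  have hv'2 : v' = (algebraMap D F u) • v := by
    rw [hv', hu, ← IsScalarTower.algebraMap_apply, algebraMap_smul]
  -- the polar form
  have hB' : ∀ l ∈ L, ∃ p ∈ P, bf S v' l = algebraMap A F p := by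
    intro l hl
    obtain ⟨a, ha⟩ := hL.int.bf_mem hsv hl
    obtain ⟨d, hd⟩ := hB l (Submodule.subset_span hl)
    refine ⟨a, ?_, ha.symm⟩
    rw [← IsLocalization.AtPrime.to_map_mem_maximal_iff D P a, hϖ, Ideal.mem_span_singleton]
    refine ⟨u * d, hinjD ?_⟩
    rw [← IsScalarTower.algebraMap_apply, ha, hv'2, bf_smul_left, hd, ← map_mul]
    congr 1
    ring
  obtain ⟨a, ha⟩ := hL.int _ hsv
  have haP : a ∈ P ^ 2 := by
    obtain ⟨d, hd⟩ := hq
    have h1 : algebraMap A D a ∈ (P ^ 2).map (algebraMap A D) := by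
      rw [Ideal.map_pow, IsLocalization.AtPrime.map_eq_maximalIdeal P D, hϖ,
        Ideal.span_singleton_pow, Ideal.mem_span_singleton]
      refine ⟨u ^ 2 * d, hinjD ?_⟩
      rw [← IsScalarTower.algebraMap_apply, ha, hv'2, qf_smul, hd, ← map_pow, ← map_mul]
      congr 1
      ring
    rw [IsLocalization.algebraMap_mem_map_algebraMap_iff P.primeCompl] at h1
    obtain ⟨t, ht, hta⟩ := h1
    exact mem_sq_of_mul_mem hP ht hta
  -- an element of the inverse of `P`
  obtain ⟨x, hx1, hx2⟩ := FractionalIdeal.exists_notMem_one_of_ne_bot (K := F) hP hmax.ne_top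
  have hP0 : (P : FractionalIdeal (nonZeroDivisors A) F) ≠ 0 :=
    FractionalIdeal.coeIdeal_ne_zero.mpr hP
  have hxP : ∀ p ∈ P, x * algebraMap A F p ∈ (algebraMap A F).range := by
    intro p hp
    rw [FractionalIdeal.mem_inv_iff hP0] at hx1
    have := hx1 _ ((FractionalIdeal.mem_coeIdeal _).mpr ⟨p, hp, rfl⟩)
    rw [FractionalIdeal.mem_one_iff] at this
    exact this
  have hx3 : x ∉ (algebraMap A F).range := by
    rintro ⟨y, hy⟩
    exact hx2 ((FractionalIdeal.mem_one_iff _).mpr ⟨y, hy⟩)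
  have hL' : Integral A S (L ⊔ Submodule.span A {x • v'}) := by
    intro w hw
    rw [Submodule.mem_sup] at hw
    obtain ⟨l, hl, w', hw', rfl⟩ := hw
    rw [Submodule.mem_span_singleton] at hw'
    obtain ⟨c, rfl⟩ := hw'
    have h1 : c • x • v' = (algebraMap A F c * x) • v' := by
      rw [mul_smul, algebraMap_smul]
    rw [h1, qf_add, qf_smul, bf_smul_right]
    refine Subring.add_mem _ (Subring.add_mem _ (hL.int _ hl) ?_) ?_
    · rw [← ha]
      have h2 : ∀ b ∈ P ^ 2, (algebraMap A F c * x) ^ 2 * algebraMap A F b ∈ (algebraMap A F).range := by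
        intro b hb
        rw [pow_two P] at hb
        induction hb using Submodule.mul_induction_on' with
        | mem_mul_mem p hp p' hp' =>
          have : (algebraMap A F c * x) ^ 2 * algebraMap A F (p * p') =
              algebraMap A F (c ^ 2) * ((x * algebraMap A F p) * (x * algebraMap A F p')) := by
            rw [map_mul, map_pow]; ring
          rw [this]
          exact Subring.mul_mem _ ⟨_, rfl⟩ (Subring.mul_mem _ (hxP p hp) (hxP p' hp'))
        | add b _ b' _ hb hb' =>
          rw [map_add, mul_add]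
          exact Subring.add_mem _ hb hb'
      exact h2 a haP
    · rw [bf_comm]
      obtain ⟨p, hp, hpe⟩ := hB' l hl
      rw [hpe, mul_assoc]
      exact Subring.mul_mem _ ⟨_, rfl⟩ (hxP p hp)
  have hxv : x • v' ∈ L :=
    hL.max _ le_sup_left hL' (Submodule.mem_sup_right (Submodule.mem_span_singleton_self _))
  have hxD : ∀ d : D, algebraMap D F d ≠ x := by
    intro d hd
    obtain ⟨⟨b, t⟩, hbt⟩ := IsLocalization.surj P.primeCompl d
    have h1 : x * algebraMap A F t = algebraMap A F b := by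
      rw [IsScalarTower.algebraMap_apply A D F, IsScalarTower.algebraMap_apply A D F, ← hbt, map_mul,
        hd]
    obtain ⟨u', p, hp, hup⟩ := hmax.exists_inv t.2
    apply hx3
    have h2 : x = algebraMap A F (u' * b) + x * algebraMap A F p := by
      rw [map_mul, ← h1]
      have h3 : algebraMap A F u' * algebraMap A F t + algebraMap A F p = 1 := by
        rw [← map_mul, ← map_add, hup, map_one]
      linear_combination (-x) * h3
    rw [h2]
    exact Subring.add_mem _ ⟨_, rfl⟩ (hxP p hp)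
  have hx0 : x ≠ 0 := by
    rintro rfl
    exact hxD 0 (map_zero _)
  obtain ⟨d, hd⟩ : ∃ d : D, algebraMap D F d = x⁻¹ := by
    rcases ValuationRing.isInteger_or_isInteger D x with ⟨d, hd⟩ | ⟨d, hd⟩
    · exact absurd hd (hxD d)
    · exact ⟨d, hd⟩
  have hdm : d ∈ maximalIdeal D := by
    rw [mem_maximalIdeal, mem_nonunits_iff]
    rintro ⟨u', hu'⟩
    apply hxD ((u'⁻¹ : Dˣ) : D)
    have h1 : algebraMap D F u' * algebraMap D F ((u'⁻¹ : Dˣ) : D) = 1 := by
      rw [← map_mul, Units.mul_inv, map_one]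
    rw [hu', hd] at h1
    rw [inv_mul_eq_one₀ hx0] at h1
    exact h1.symm
  rw [hϖ, Ideal.mem_span_singleton] at hdm
  obtain ⟨e, rfl⟩ := hdm
  refine ⟨(((u⁻¹ : Dˣ) : D) * e) • (x • v'), Submodule.smul_mem _ _ (Submodule.subset_span hxv), ?_⟩
  have h1 : x • v' = (x * algebraMap D F u) • v := by rw [hv'2, mul_smul]
  rw [h1, smul_smul, ← algebraMap_smul F (ϖ * (((u⁻¹ : Dˣ) : D) * e)), smul_smul]
  have h2 : algebraMap D F (ϖ * (((u⁻¹ : Dˣ) : D) * e)) * (x * algebraMap D F u) = 1 := by
    have h3 : algebraMap D F (ϖ * (((u⁻¹ : Dˣ) : D) * e)) * (x * algebraMap D F u) =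
        (algebraMap D F (ϖ * e) * x) * algebraMap D F (((u⁻¹ : Dˣ) : D) * u) := by
      simp only [map_mul]; ring
    rw [h3, hd, inv_mul_cancel₀ hx0, Units.inv_mul, map_one, one_mul]
  rw [h2, one_smul]

end Pool.Agent.H97.NF
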