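import Pool.Agent.H97.NF.LatticeLocal
import Pool.Agent.H97.NF.Expand

/-!
# Existence of adapted local bases
-/

set_option autoImplicit false

namespace Pool.Agent.H97.NF

open IsLocalRing Module

section Def

variable {A F : Type} [CommRing A] [Field F] [Algebra A F] {ι : Type} [Fintype ι]

/-- Adapted local coordinates at a prime `P`. -/
structure LocData (S : Matrix ι ι F) (L : Submodule A (ι → F)) (P : Ideal A) (D : Type)
    [CommRing D] [Algebra D F] (ϖ : D) (Ix Iy : Type) [Fintype Ix] [Fintype Iy] [DecidableEq Ix]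
    [DecidableEq Iy] where
  e : Ix ⊕ Iy → ι → F
  es : Ix ⊕ Iy → ι → F
  a0 : Matrix Ix Ix D
  b : Matrix Ix Iy D
  a1 : Matrix Iy Iy D
  card : Nat.card (Ix ⊕ Iy) = Nat.card ι
  e_mem : ∀ s, ∃ t : A, t ∉ P ∧ t • e s ∈ L
  coord : ∀ v ∈ L, ∀ s, ∃ d : D, ∑ k, es s k * v k = algebraMap D F d
  recon : ∀ v : ι → F, ∀ k, v k = ∑ s, e s k * (∑ l, es s l * v l)
  form : ∀ (R : Type) [CommRing R] [Algebra F R] [Algebra D R] [IsScalarTower D F R]
    (x : Ix ⊕ Iy → R), qf S (fun k => ∑ s, algebraMap F R (e s k) * x s) =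
      totq a0 b a1 ϖ (fun i => x (Sum.inl i)) (fun j => x (Sum.inr j))
  nd0 : Nondeg a0 ϖ
  nd1 : Nondeg a1 ϖ

end Def

variable {A F : Type} [CommRing A] [IsDedekindDomain A] [Field F] [Algebra A F]
  [IsFractionRing A F] {ι : Type} [Fintype ι] [DecidableEq ι]
  {S : Matrix ι ι F} {L : Submodule A (ι → F)} {δ : A}

omit [DecidableEq ι] in
theorem fg_of_bound (hδ : δ ≠ 0)
    (hb : ∀ v ∈ L, ∀ i, algebraMap A F δ * v i ∈ (algebraMap A F).range) : L.FG := by
  have hδ' : algebraMap A F δ ≠ 0 := by
    rw [Ne, map_eq_zero_iff _ (IsFractionRing.injective A F)]; exact hδ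
  let T : (ι → A) →ₗ[A] (ι → F) :=
    { toFun := fun a i => (algebraMap A F δ)⁻¹ * algebraMap A F (a i)
      map_add' := by intro a b; ext i; simp [mul_add]
      map_smul' := by intro c a; ext i; simp [Algebra.smul_def]; ring }
  have hle : L ≤ LinearMap.range T := by
    intro v hv
    choose a ha using hb v hv
    refine ⟨a, ?_⟩
    ext i
    show (algebraMap A F δ)⁻¹ * algebraMap A F (a i) = v i
    rw [ha, ← mul_assoc, inv_mul_cancel₀ hδ', one_mul]
  have h1 : IsNoetherian A (LinearMap.range T) := isNoetherian_range T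
  exact (isNoetherian_submodule.mp h1) L hle

theorem isLattice_LD (hL : MaxLat S L δ) {D : Type} [CommRing D]
    [Algebra A D] [Algebra D F] [IsScalarTower A D F] :
    Submodule.IsLattice F (LD D L) := by
  constructor
  · obtain ⟨s, hs⟩ := fg_of_bound hL.ne_zero hL.bound
    refine ⟨s, ?_⟩
    rw [LD, ← hs, Submodule.span_span_of_tower]
  · rw [eq_top_iff]
    intro v _
    have hδ' : algebraMap A F δ ≠ 0 := by
      rw [Ne, map_eq_zero_iff _ (IsFractionRing.injective A F)]; exact hL.ne_zero
    have h1 : v = ∑ i, (v i * (algebraMap A F δ)⁻¹) • (δ • (Pi.single i 1 : ι → F)) := by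
      ext k
      rw [Finset.sum_apply, Finset.sum_eq_single k]
      · rw [Pi.smul_apply, Pi.smul_apply, Pi.single_eq_same, smul_eq_mul, Algebra.smul_def, mul_one,
          mul_assoc, inv_mul_cancel₀ hδ', mul_one]
      · intro b _ hb
        rw [Pi.smul_apply, Pi.smul_apply, Pi.single_eq_of_ne (Ne.symm hb), smul_zero, smul_zero]
      · intro h; exact absurd (Finset.mem_univ k) h
    rw [h1]
    refine Submodule.sum_mem _ fun i _ => Submodule.smul_mem _ _ (Submodule.subset_span ?_)
    exact Submodule.subset_span (hL.single_mem i)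

/-- **Adapted local bases exist.** -/
theorem exists_locData (hL : MaxLat S L δ) {P : Ideal A} [hPp : P.IsPrime] (hP : P ≠ ⊥)
    {D : Type} [CommRing D] [IsDomain D] [IsDiscreteValuationRing D] [Algebra A D]
    [IsLocalization.AtPrime D P] [Algebra D F] [IsScalarTower A D F] [IsFractionRing D F]
    [Finite (ResidueField D)] {ϖ : D} (hϖ : maximalIdeal D = Ideal.span {ϖ}) :
    ∃ (Ix Iy : Type) (_ : Fintype Ix) (_ : Fintype Iy) (_ : DecidableEq Ix) (_ : DecidableEq Iy),
      Nonempty (LocData S L P D ϖ Ix Iy) := by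
  classical
  have hinjD : Function.Injective (algebraMap D F) := IsFractionRing.injective D F
  have hϖ0 : ϖ ≠ 0 := by
    rintro rfl
    have h1 : maximalIdeal D = ⊥ := by rw [hϖ, Ideal.span_singleton_eq_bot]
    exact IsDiscreteValuationRing.not_a_field D h1
  have hint : Integral D S (LD D L) := integral_LD P hL.int
  have hlat := isLattice_LD hL (D := D)
  have hfree : Module.Free D (LD D L) := Submodule.IsLattice.free (K := F) (LD D L)
  -- the submodule
  let N' : Submodule D (LD D L) :=
    { carrier := {v | (∀ w ∈ LD D L, ∃ d : D, bf S (v : ι → F) w = algebraMap D F (ϖ * d)) ∧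
        ∃ d : D, qf S (v : ι → F) = algebraMap D F (ϖ * d)}
      add_mem' := by
        rintro v w ⟨hv1, d, hd⟩ ⟨hw1, d', hd'⟩
        refine ⟨fun u hu => ?_, ?_⟩
        · obtain ⟨c, hc⟩ := hv1 u hu
          obtain ⟨c', hc'⟩ := hw1 u hu
          refine ⟨c + c', ?_⟩
          rw [Submodule.coe_add, bf_add_left, hc, hc', ← map_add]
          congr 1; ring
        · obtain ⟨c, hc⟩ := hv1 w w.2
          refine ⟨d + d' + c, ?_⟩
          rw [Submodule.coe_add, qf_add, hd, hd', hc, ← map_add, ← map_add]
          congr 1; ring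
      zero_mem' := by
        refine ⟨fun u _ => ⟨0, ?_⟩, 0, ?_⟩
        · rw [Submodule.coe_zero, bf_zero_left, mul_zero, map_zero]
        · rw [Submodule.coe_zero, qf_zero, mul_zero, map_zero]
      smul_mem' := by
        rintro c v ⟨hv1, d, hd⟩
        have h1 : ((c • v : LD D L) : ι → F) = (algebraMap D F c) • (v : ι → F) := by
          rw [Submodule.coe_smul, algebraMap_smul]
        refine ⟨fun u hu => ?_, c ^ 2 * d, ?_⟩
        · obtain ⟨c', hc'⟩ := hv1 u hu
          refine ⟨c * c', ?_⟩
          rw [h1, bf_smul_left, hc', ← map_mul]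
          congr 1; ring
        · rw [h1, qf_smul, hd, ← map_pow, ← map_mul]
          congr 1; ring }
  have hN'mem : ∀ v : LD D L, v ∈ N' ↔
      (∀ w ∈ LD D L, ∃ d : D, bf S (v : ι → F) w = algebraMap D F (ϖ * d)) ∧
        ∃ d : D, qf S (v : ι → F) = algebraMap D F (ϖ * d) := fun _ => Iff.rfl
  obtain ⟨n, snf⟩ := Submodule.smithNormalForm (Module.finBasis D (LD D L)) N'
  set m := Module.finrank D (LD D L) with hm
  let β : Basis (Fin m) D (LD D L) := snf.bM
  have hunit_or : ∀ a : D, IsUnit a ∨ ϖ ∣ a := by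
    intro a
    by_cases h : IsUnit a
    · exact Or.inl h
    · right
      have : a ∈ maximalIdeal D := (mem_maximalIdeal a).mpr h
      rwa [hϖ, Ideal.mem_span_singleton] at this
  have hclaim : ∀ v ∈ N', ∀ i, β i ∉ N' → ϖ ∣ β.repr v i := by
    intro v hv i hi
    by_cases hr : i ∈ Set.range snf.f
    · obtain ⟨j, rfl⟩ := hr
      have h1 : β.repr v (snf.f j) = snf.bN.repr (snf.a j • ⟨v, hv⟩) j :=
        snf.repr_apply_embedding_eq_repr_smul ⟨v, hv⟩
      rw [h1, map_smul, Finsupp.smul_apply, smul_eq_mul]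
      rcases hunit_or (snf.a j) with h2 | h2
      · exfalso
        apply hi
        obtain ⟨u, hu⟩ := h2
        have h3 : β (snf.f j) = ((u⁻¹ : Dˣ) : D) • (snf.bN j : LD D L) := by
          rw [snf.snf j, smul_smul, ← hu, Units.inv_mul, one_smul]
        rw [h3]
        exact N'.smul_mem _ (snf.bN j).2
      · exact Dvd.dvd.mul_right h2 _
    · have h1 : β.repr v i = 0 := snf.repr_eq_zero_of_notMem_range ⟨v, hv⟩ hr
      rw [h1]
      exact dvd_zero _
  let Ix : Type := {i : Fin m // β i ∉ N'}
  let Iy : Type := {i : Fin m // β i ∈ N'}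
  let σe : Ix ⊕ Iy → Fin m := Sum.elim Subtype.val Subtype.val
  have hσe : Function.Bijective σe := by
    constructor
    · rintro (⟨i, hi⟩ | ⟨i, hi⟩) (⟨j, hj⟩ | ⟨j, hj⟩) h
      · simp only [σe, Sum.elim_inl] at h
        subst h; rfl
      · simp only [σe, Sum.elim_inl, Sum.elim_inr] at h
        subst h; exact absurd hj hi
      · simp only [σe, Sum.elim_inl, Sum.elim_inr] at h
        subst h; exact absurd hi hj
      · simp only [σe, Sum.elim_inr] at h
        subst h; rfl
    · intro i
      by_cases h : β i ∈ N'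
      · exact ⟨Sum.inr ⟨i, h⟩, rfl⟩
      · exact ⟨Sum.inl ⟨i, h⟩, rfl⟩
  let τ : Ix ⊕ Iy ≃ Fin m := Equiv.ofBijective σe hσe
  let βF : Basis (Ix ⊕ Iy) F (ι → F) := (β.extendOfIsLattice F).reindex τ.symm
  let e : Ix ⊕ Iy → ι → F := fun s => (β (σe s) : ι → F)
  have hβF : ∀ s, βF s = e s := by
    intro s
    show ((β.extendOfIsLattice F).reindex τ.symm) s = _
    rw [Basis.reindex_apply, Module.Basis.extendOfIsLattice_apply]
    rfl
  have heL : ∀ s, e s ∈ LD D L := fun s => (β (σe s)).2
  have hin : ∀ s t, bf S (e s) (e t) ∈ (algebraMap D F).range := fun s t =>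
    hint.bf_mem (heL s) (heL t)
  have hinq : ∀ s, qf S (e s) ∈ (algebraMap D F).range := fun s => hint _ (heL s)
  have hy1 : ∀ j : Iy, ∀ w ∈ LD D L, ∃ d : D, bf S (e (Sum.inr j)) w = algebraMap D F (ϖ * d) :=
    fun j => ((hN'mem _).mp j.2).1
  have hy2 : ∀ j : Iy, ∃ d : D, qf S (e (Sum.inr j)) = algebraMap D F (ϖ * d) :=
    fun j => ((hN'mem _).mp j.2).2
  choose B hB using hin
  choose q hq using hinq
  choose B1 hB1 using fun (j : Iy) (s : Ix ⊕ Iy) => hy1 j (e s) (heL s)
  choose q1 hq1 using hy2
  let a0 : Matrix Ix Ix D := fun i j => if i = j then q (Sum.inl i) else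
    if i < j then B (Sum.inl i) (Sum.inl j) else 0
  let b : Matrix Ix Iy D := fun i j => B1 j (Sum.inl i)
  let a1 : Matrix Iy Iy D := fun i j => if i = j then q1 i else
    if i < j then B1 i (Sum.inr j) else 0
  have hform : ∀ (R : Type) [CommRing R] [Algebra F R] [Algebra D R] [IsScalarTower D F R]
    (x : Ix ⊕ Iy → R), qf S (fun k => ∑ s, algebraMap F R (e s k) * x s) =
      totq a0 b a1 ϖ (fun i => x (Sum.inl i)) (fun j => x (Sum.inr j)) := by
    intro R _ _ _ _ x
    have h0 : (fun k => ∑ s, algebraMap F R (e s k) * x s) =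
        (fun k => ∑ i, algebraMap F R (e (Sum.inl i) k) * x (Sum.inl i)) +
        (fun k => ∑ j, algebraMap F R (e (Sum.inr j) k) * x (Sum.inr j)) := by
      funext k
      rw [Pi.add_apply, Fintype.sum_sum_type]
    rw [h0, qf_add, qf_sum_expand S (fun i => e (Sum.inl i)) (fun i => x (Sum.inl i)),
      qf_sum_expand S (fun j => e (Sum.inr j)) (fun j => x (Sum.inr j)),
      bf_sum_sum S (fun i => e (Sum.inl i)) (fun j => e (Sum.inr j))]
    have h1 : ∑ i, ∑ j, algebraMap F R (if i = j then qf S (e (Sum.inl i)) else if i < j then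
        bf S (e (Sum.inl i)) (e (Sum.inl j)) else 0) * (x (Sum.inl i) * x (Sum.inl j)) =
        qf a0 (fun i => x (Sum.inl i)) := by
      rw [qf]
      refine Finset.sum_congr rfl fun i _ => Finset.sum_congr rfl fun j _ => ?_
      congr 1
      rw [IsScalarTower.algebraMap_apply D F R]
      congr 1
      simp only [a0]
      split_ifs
      · rw [hq]
      · rw [hB]
      · rw [map_zero]
    have h2 : ∑ i, ∑ j, algebraMap F R (if i = j then qf S (e (Sum.inr i)) else if i < j then
        bf S (e (Sum.inr i)) (e (Sum.inr j)) else 0) * (x (Sum.inr i) * x (Sum.inr j)) =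
        algebraMap D R ϖ * qf a1 (fun j => x (Sum.inr j)) := by
      rw [qf, Finset.mul_sum]
      refine Finset.sum_congr rfl fun i _ => ?_
      rw [Finset.mul_sum]
      refine Finset.sum_congr rfl fun j _ => ?_
      rw [← mul_assoc (algebraMap D R ϖ)]
      refine congrArg (· * (x (Sum.inr i) * x (Sum.inr j))) ?_
      rw [IsScalarTower.algebraMap_apply D F R, IsScalarTower.algebraMap_apply D F R, ← map_mul,
        ← map_mul]
      refine congrArg (algebraMap F R) ?_
      simp only [a1]
      split_ifs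
      · rw [hq1]
      · rw [hB1]
      · rw [mul_zero, map_zero]
    have h3 : ∑ i, ∑ j, algebraMap F R (bf S (e (Sum.inl i)) (e (Sum.inr j))) *
        (x (Sum.inl i) * x (Sum.inr j)) =
        algebraMap D R ϖ * bil b (fun i => x (Sum.inl i)) (fun j => x (Sum.inr j)) := by
      rw [bil, Finset.mul_sum]
      refine Finset.sum_congr rfl fun i _ => ?_
      rw [Finset.mul_sum]
      refine Finset.sum_congr rfl fun j _ => ?_
      rw [← mul_assoc (algebraMap D R ϖ)]
      refine congrArg (· * (x (Sum.inl i) * x (Sum.inr j))) ?_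
      rw [IsScalarTower.algebraMap_apply D F R, IsScalarTower.algebraMap_apply D F R, ← map_mul,
        ← map_mul, bf_comm, hB1]
    rw [totq, ← h1, ← h2, ← h3]
    exact add_right_comm _ _ _
  -- coordinates of elements of the lattice
  have hrepr : ∀ (v : LD D L) (s : Ix ⊕ Iy), βF.repr (v : ι → F) s =
      algebraMap D F (β.repr v (σe s)) := by
    intro v s
    have h1 : (v : ι → F) = ∑ s, (algebraMap D F (β.repr v (σe s))) • e s := by
      conv_lhs => rw [← β.sum_repr v]
      rw [Submodule.coe_sum, ← Equiv.sum_comp τ]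
      refine Finset.sum_congr rfl fun t _ => ?_
      rw [Submodule.coe_smul, algebraMap_smul]
      rfl
    conv_lhs => rw [h1]
    simp only [← hβF]
    rw [Basis.repr_sum_self]
  have hcomb : ∀ x : Ix ⊕ Iy → D, ∃ v : LD D L, (∀ k, (v : ι → F) k =
      ∑ s, algebraMap F F (e s k) * algebraMap D F (x s)) ∧ ∀ s, β.repr v (σe s) = x s := by
    intro x
    refine ⟨∑ s, x s • β (σe s), ?_, ?_⟩
    · intro k
      rw [Submodule.coe_sum, Finset.sum_apply]
      refine Finset.sum_congr rfl fun s _ => ?_
      rw [Submodule.coe_smul, Pi.smul_apply, Algebra.smul_def, mul_comm]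
      rfl
    · intro s
      have h1 : ∑ s, x s • β (σe s) = ∑ i, x (τ.symm i) • β i := by
        rw [← Equiv.sum_comp τ]
        refine Finset.sum_congr rfl fun t _ => ?_
        rw [Equiv.symm_apply_apply]
        rfl
      rw [h1, Basis.repr_sum_self]
      show x (τ.symm (τ s)) = x s
      rw [Equiv.symm_apply_apply]
  have hqcomb : ∀ (x : Ix ⊕ Iy → D) (v : LD D L), (∀ k, (v : ι → F) k =
      ∑ s, algebraMap F F (e s k) * algebraMap D F (x s)) →
      qf S (v : ι → F) = algebraMap D F
        (totq a0 b a1 ϖ (fun i => x (Sum.inl i)) (fun j => x (Sum.inr j))) := by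
    intro x v hv
    have h1 : (v : ι → F) = fun k => ∑ s, algebraMap F F (e s k) * algebraMap D F (x s) := funext hv
    rw [h1, hform F (fun s => algebraMap D F (x s))]
    simp only [totq, map_add, map_mul, qf_algebraMap]
    have h2 : algebraMap D F (bil b (fun i => x (Sum.inl i)) (fun j => x (Sum.inr j))) =
        bil b (fun i => algebraMap D F (x (Sum.inl i))) (fun j => algebraMap D F (x (Sum.inr j))) :=
      map_bil b (Algebra.ofId D F) _ _
    rw [h2]
    rfl
  -- elements of `N'` are detected on the basis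
  have hdet : ∀ v : LD D L, (∀ s, ∃ d : D, bf S (v : ι → F) (e s) = algebraMap D F (ϖ * d)) →
      ∀ w ∈ LD D L, ∃ d : D, bf S (v : ι → F) w = algebraMap D F (ϖ * d) := by
    intro v hv w hw
    choose c hc using hv
    have h1 : w = ∑ s, (algebraMap D F (β.repr ⟨w, hw⟩ (σe s))) • e s := by
      have h2 := βF.sum_repr w
      conv_lhs => rw [← h2]
      refine Finset.sum_congr rfl fun s _ => ?_
      rw [hβF, ← hrepr ⟨w, hw⟩]
    generalize hg : (fun s => β.repr ⟨w, hw⟩ (σe s)) = g at h1
    have hg' : ∀ s, β.repr ⟨w, hw⟩ (σe s) = g s := fun s => congrFun hg s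
    simp only [hg'] at h1
    refine ⟨∑ s, g s * c s, ?_⟩
    rw [h1, bf_sum_right, Finset.mul_sum, map_sum]
    refine Finset.sum_congr rfl fun s _ => ?_
    rw [bf_smul_right, hc, ← map_mul]
    congr 1; ring
  have hres : ∀ d : D, residue D d = 0 ↔ ∃ c, d = ϖ * c := by
    intro d
    rw [residue_eq_zero_iff, hϖ, Ideal.mem_span_singleton]
    rfl
  have hnd0 : Nondeg a0 ϖ := by
    apply nondeg_of_residue a0 hϖ
    intro x hx1 hx2
    choose y hy using fun i => residue_surjective (x i)
    obtain ⟨v, hv, hvr⟩ := hcomb (Sum.elim y (fun _ => 0))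
    have hqv := hqcomb _ v hv
    simp only [Sum.elim_inl, Sum.elim_inr] at hqv
    have hz1 : totq a0 b a1 ϖ y (fun _ => 0) = qf a0 y := by
      rw [totq, show qf a1 (fun _ => (0 : D)) = 0 from qf_zero a1,
        show bil b y (fun _ => (0 : D)) = 0 from bil_zero_right b y]
      simp
    rw [hz1] at hqv
    have hvN : v ∈ N' := by
      rw [hN'mem]
      refine ⟨hdet v ?_, ?_⟩
      · rintro (j | j)
        · -- polarize
          obtain ⟨w, hw, hwr⟩ := hcomb (Sum.elim (Pi.single j 1) (fun _ => 0))
          have hwe : (w : ι → F) = e (Sum.inl j) := by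
            funext k
            rw [hw k, Finset.sum_eq_single (Sum.inl j)]
            · simp
            · rintro (i | i) _ hi
              · have : i ≠ j := fun h => hi (by rw [h])
                simp [this]
              · simp
            · intro h; exact absurd (Finset.mem_univ _) h
          have hqw := hqcomb _ w hw
          simp only [Sum.elim_inl, Sum.elim_inr] at hqw
          have hz2 : totq a0 b a1 ϖ (Pi.single j 1 : Ix → D) (fun _ => 0) =
              qf a0 (Pi.single j 1 : Ix → D) := by
            rw [totq, show qf a1 (fun _ => (0 : D)) = 0 from qf_zero a1,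
              show bil b (Pi.single j 1 : Ix → D) (fun _ => (0 : D)) = 0 from bil_zero_right b _]
            simp
          rw [hz2] at hqw
          have hqvw := hqcomb (Sum.elim (y + Pi.single j 1) (fun _ => 0)) (v + w) (by
            intro k
            rw [Submodule.coe_add, Pi.add_apply, hv k, hw k, ← Finset.sum_add_distrib]
            refine Finset.sum_congr rfl fun s _ => ?_
            rcases s with s | s
            · simp only [Sum.elim_inl, Pi.add_apply, map_add]; ring
            · simp)
          simp only [Sum.elim_inl, Sum.elim_inr] at hqvw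
          have hz3 : totq a0 b a1 ϖ (y + Pi.single j 1) (fun _ => 0) = qf a0 (y + Pi.single j 1) := by
            rw [totq, show qf a1 (fun _ => (0 : D)) = 0 from qf_zero a1,
              show bil b (y + Pi.single j 1 : Ix → D) (fun _ => (0 : D)) = 0 from bil_zero_right b _]
            simp
          have hz3' : totq a0 b a1 ϖ (fun i => (y + Pi.single j 1 : Ix → D) i) (fun _ => 0) =
            qf a0 (y + Pi.single j 1) := hz3
          rw [hz3', qf_add, Submodule.coe_add, qf_add, hqv, hqw, map_add, map_add] at hqvw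
          have h5 : bf S (v : ι → F) (w : ι → F) = algebraMap D F (bf a0 y (Pi.single j 1)) :=
            add_left_cancel hqvw
          rw [← hwe, h5]
          have h6 : residue D (bf a0 y (Pi.single j 1)) = 0 := by
            rw [← hx1 j, bf, bf, map_sum]
            refine Finset.sum_congr rfl fun i _ => ?_
            rw [map_sum]
            refine Finset.sum_congr rfl fun l _ => ?_
            have hs : ∀ l, residue D ((Pi.single j 1 : Ix → D) l) =
                (Pi.single j 1 : Ix → ResidueField D) l := by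
              intro l
              by_cases hl : l = j
              · subst hl; simp
              · simp [hl]
            simp only [Algebra.algebraMap_self, RingHom.id_apply, Matrix.map_apply, map_mul, map_add,
              hy, hs]
          obtain ⟨c, hc⟩ := (hres _).mp h6
          exact ⟨c, by rw [hc]⟩
        · obtain ⟨d, hd⟩ := hy1 j v v.2
          exact ⟨d, by rw [bf_comm, hd]⟩
      · rw [hqv]
        have h6 : residue D (qf a0 y) = 0 := by
          rw [← hx2, qf, qf, map_sum]
          refine Finset.sum_congr rfl fun i _ => ?_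
          rw [map_sum]
          refine Finset.sum_congr rfl fun l _ => ?_
          simp only [Algebra.algebraMap_self, RingHom.id_apply, Matrix.map_apply, map_mul, hy]
        obtain ⟨c, hc⟩ := (hres _).mp h6
        exact ⟨c, by rw [hc]⟩
    funext i
    have h7 := hclaim v hvN i.1 i.2
    have h8 : β.repr v (σe (Sum.inl i)) = y i := hvr (Sum.inl i)
    have h9 : ϖ ∣ y i := by rw [← h8]; exact h7
    obtain ⟨c, hc⟩ := h9
    rw [← hy i, (hres _).mpr ⟨c, hc⟩]
    rfl
  have hnd1 : Nondeg a1 ϖ := by
    apply nondeg_of_residue a1 hϖ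
    intro x _ hx2
    choose y hy using fun i => residue_surjective (x i)
    obtain ⟨v, hv, hvr⟩ := hcomb (Sum.elim (fun _ => 0) y)
    have hqv := hqcomb _ v hv
    simp only [Sum.elim_inl, Sum.elim_inr] at hqv
    have hz1 : totq a0 b a1 ϖ (fun _ => 0) y = ϖ * qf a1 y := by
      rw [totq, show qf a0 (fun _ => (0 : D)) = 0 from qf_zero a0,
        show bil b (fun _ => (0 : D)) y = 0 from bil_zero_left b y]
      simp
    rw [hz1] at hqv
    have h6 : residue D (qf a1 y) = 0 := by
      rw [← hx2, qf, qf, map_sum]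
      refine Finset.sum_congr rfl fun i _ => ?_
      rw [map_sum]
      refine Finset.sum_congr rfl fun l _ => ?_
      simp only [Algebra.algebraMap_self, RingHom.id_apply, Matrix.map_apply, map_mul, hy]
    obtain ⟨c, hc⟩ := (hres _).mp h6
    have hvB : ∀ w ∈ LD D L, ∃ d : D, bf S (v : ι → F) w = algebraMap D F (ϖ * d) := by
      intro w hw
      have hv2 : (v : ι → F) = ∑ j, (algebraMap D F (y j)) • e (Sum.inr j) := by
        funext k
        rw [hv k, Fintype.sum_sum_type, Finset.sum_apply]
        simp only [Sum.elim_inl, Sum.elim_inr, map_zero, mul_zero, Finset.sum_const_zero, zero_add]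
        refine Finset.sum_congr rfl fun j _ => ?_
        rw [Pi.smul_apply, smul_eq_mul, mul_comm]
        rfl
      choose g hg using fun j => hy1 j w hw
      refine ⟨∑ j, y j * g j, ?_⟩
      rw [hv2, bf_comm, bf_sum_right, Finset.mul_sum, map_sum]
      refine Finset.sum_congr rfl fun j _ => ?_
      rw [bf_smul_right, bf_comm, hg, ← map_mul]
      congr 1; ring
    obtain ⟨w, hw, hvw⟩ := exists_smul_of_maxLat hL hP hϖ v.2 hvB
      ⟨c, by rw [hqv, hc]; congr 1; ring⟩
    funext i
    have h7 : v = ϖ • (⟨w, hw⟩ : LD D L) := Subtype.ext hvw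
    have h8 : β.repr v (σe (Sum.inr i)) = y i := hvr (Sum.inr i)
    rw [h7, map_smul, Finsupp.smul_apply, smul_eq_mul] at h8
    rw [← hy i, (hres _).mpr ⟨_, h8.symm⟩]
    rfl
  refine ⟨Ix, Iy, inferInstance, inferInstance, inferInstance, inferInstance, ⟨{
    e := e
    es := fun s k => βF.repr (Pi.single k 1) s
    a0 := a0
    b := b
    a1 := a1
    card := ?_
    e_mem := fun s => (mem_LD P).mp (heL s)
    coord := ?_
    recon := ?_
    form := hform
    nd0 := hnd0
    nd1 := hnd1 }⟩⟩
  · have h1 := Module.finrank_eq_nat_card_basis βF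
    rw [← h1, Module.finrank_fintype_fun_eq_card, Nat.card_eq_fintype_card]
  · intro v hv s
    refine ⟨β.repr ⟨v, Submodule.subset_span hv⟩ (σe s), ?_⟩
    rw [← hrepr ⟨v, Submodule.subset_span hv⟩ s]
    have h1 : v = ∑ k, v k • (Pi.single k 1 : ι → F) := by
      ext i
      simp [Finset.sum_apply, Pi.single_apply]
    conv_rhs => rw [show ((⟨v, Submodule.subset_span hv⟩ : LD D L) : ι → F) = v from rfl, h1]
    rw [map_sum, Finsupp.finsetSum_apply]
    refine Finset.sum_congr rfl fun k _ => ?_
    rw [map_smul, Finsupp.smul_apply, smul_eq_mul, mul_comm]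
  · intro v k
    have h1 : v = ∑ k, v k • (Pi.single k 1 : ι → F) := by
      ext i
      simp [Finset.sum_apply, Pi.single_apply]
    have h2 : ∀ s, ∑ l, βF.repr (Pi.single l 1) s * v l = βF.repr v s := by
      intro s
      conv_rhs => rw [h1]
      rw [map_sum, Finsupp.finsetSum_apply]
      refine Finset.sum_congr rfl fun k _ => ?_
      rw [map_smul, Finsupp.smul_apply, smul_eq_mul, mul_comm]
    simp only [h2]
    conv_lhs => rw [← βF.sum_repr v]
    rw [Finset.sum_apply]
    refine Finset.sum_congr rfl fun s _ => ?_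
    rw [Pi.smul_apply, smul_eq_mul, hβF, mul_comm]

end Pool.Agent.H97.NF
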