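import Pool.Agent.H97.NF.Charts

/-!
# The local theorem: local rings of the model are regular
-/

set_option autoImplicit false

namespace Pool.Agent.H97.NF

open MvPolynomial IsLocalRing

section Nonunits

variable {K : Type} [Field K] (O : Subring K)

/-- `y` is a nonunit of the subring `O` (for `y ∈ O`). -/
def NU (y : K) : Prop := y = 0 ∨ y⁻¹ ∉ O

variable {O}

theorem isUnit_iff (y : O) : IsUnit y ↔ ¬ NU O (y : K) := by
  unfold NU
  push Not
  constructor
  · rintro ⟨u, rfl⟩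
    have h1 : ((u : O) : K) * ((u⁻¹ : Oˣ) : O) = 1 := by
      rw [← Subring.coe_mul, Units.mul_inv]
      rfl
    have h0 : ((u : O) : K) ≠ 0 := left_ne_zero_of_mul_eq_one h1
    refine ⟨h0, ?_⟩
    rw [← eq_inv_of_mul_eq_one_right h1]
    exact ((u⁻¹ : Oˣ) : O).2
  · rintro ⟨h0, h1⟩
    exact IsUnit.of_mul_eq_one ⟨(y : K)⁻¹, h1⟩ (Subtype.ext (mul_inv_cancel₀ h0))

variable [IsLocalRing O]

theorem mem_max_iff (y : O) : y ∈ maximalIdeal O ↔ NU O (y : K) := by
  rw [mem_maximalIdeal, mem_nonunits_iff, isUnit_iff, not_not]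

theorem NU.add {y z : K} (hy : y ∈ O) (hz : z ∈ O) (h1 : NU O y) (h2 : NU O z) : NU O (y + z) := by
  have h3 := (maximalIdeal O).add_mem ((mem_max_iff ⟨y, hy⟩).mpr h1) ((mem_max_iff ⟨z, hz⟩).mpr h2)
  exact (mem_max_iff _).mp h3

theorem NU.mul {y z : K} (hy : y ∈ O) (hz : z ∈ O) (h2 : NU O z) : NU O (y * z) := by
  have h3 := (maximalIdeal O).mul_mem_left ⟨y, hy⟩ ((mem_max_iff ⟨z, hz⟩).mpr h2)
  exact (mem_max_iff _).mp h3

theorem not_NU_one : ¬ NU O (1 : K) := by
  intro h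
  have h1 : (1 : O) ∈ maximalIdeal O := (mem_max_iff _).mpr h
  exact (maximalIdeal O).ne_top_iff_one.mp (IsLocalRing.maximalIdeal.isMaximal O).ne_top h1

variable {D : Type} [CommRing D] [Algebra D K]

/-- The `D`-submodule of nonunits. -/
def nuSub (hD : ∀ d : D, algebraMap D K d ∈ O) : Submodule D K where
  carrier := {y | y ∈ O ∧ NU O y}
  add_mem' := fun ha hb => ⟨O.add_mem ha.1 hb.1, NU.add ha.1 hb.1 ha.2 hb.2⟩
  zero_mem' := ⟨O.zero_mem, Or.inl rfl⟩
  smul_mem' := fun c y hy => by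
    rw [Algebra.smul_def]
    exact ⟨O.mul_mem (hD c) hy.1, NU.mul (hD c) hy.1 hy.2⟩

omit [IsLocalRing O] in
/-- If a subset of `N / g` lies in the submodule `T`, then so does the span. -/
theorem span_div_mem (T : Submodule D K) (S : Set K) (g : K) (h : ∀ s ∈ S, s / g ∈ T) :
    ∀ y ∈ Submodule.span D S, y / g ∈ T := by
  intro y hy
  induction hy using Submodule.span_induction with
  | mem x hx => exact h x hx
  | zero => rw [zero_div]; exact T.zero_mem
  | add x y _ _ hx hy => rw [add_div]; exact T.add_mem hx hy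
  | smul a x _ hx =>
    rw [Algebra.smul_def, mul_div_assoc, ← Algebra.smul_def]
    exact T.smul_mem a hx

end Nonunits

section LocSub

variable {K : Type} [Field K] {O : Subring K}

/-- The ring of fractions of elements of `B` with denominators invertible in `O`. -/
def locSub (O : Subring K) (B : Subring K) : Subring K where
  carrier := {y | ∃ a ∈ B, ∃ b ∈ B, b ≠ 0 ∧ b⁻¹ ∈ O ∧ y = a * b⁻¹}
  mul_mem' := by
    rintro _ _ ⟨a, ha, b, hb, hb0, hb1, rfl⟩ ⟨c, hc, d, hd, hd0, hd1, rfl⟩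
    refine ⟨a * c, B.mul_mem ha hc, b * d, B.mul_mem hb hd, mul_ne_zero hb0 hd0, ?_, ?_⟩
    · rw [mul_inv]; exact O.mul_mem hb1 hd1
    · rw [mul_inv]; ring
  one_mem' := ⟨1, B.one_mem, 1, B.one_mem, one_ne_zero, by rw [inv_one]; exact O.one_mem,
    by rw [inv_one, mul_one]⟩
  add_mem' := by
    rintro _ _ ⟨a, ha, b, hb, hb0, hb1, rfl⟩ ⟨c, hc, d, hd, hd0, hd1, rfl⟩
    refine ⟨a * d + c * b, B.add_mem (B.mul_mem ha hd) (B.mul_mem hc hb), b * d,
      B.mul_mem hb hd, mul_ne_zero hb0 hd0, ?_, ?_⟩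
    · rw [mul_inv]; exact O.mul_mem hb1 hd1
    · field_simp
  zero_mem' := ⟨0, B.zero_mem, 1, B.one_mem, one_ne_zero, by rw [inv_one]; exact O.one_mem,
    by rw [inv_one, mul_one]⟩
  neg_mem' := by
    rintro _ ⟨a, ha, b, hb, hb0, hb1, rfl⟩
    exact ⟨-a, B.neg_mem ha, b, hb, hb0, hb1, by ring⟩

theorem locSub_switch (B R : Subring K) (hRB : R ≤ locSub O B)
    (hR : ∀ y ∈ O, ∃ a ∈ R, ∃ b ∈ R, b ≠ 0 ∧ b⁻¹ ∈ O ∧ y = a * b⁻¹) :
    ∀ y ∈ O, ∃ a ∈ B, ∃ b ∈ B, b ≠ 0 ∧ b⁻¹ ∈ O ∧ y = a * b⁻¹ := by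
  intro y hy
  obtain ⟨r, hr, s, hs, hs0, hs1, rfl⟩ := hR y hy
  obtain ⟨a, ha, b, hb, hb0, hb1, rfl⟩ := hRB hr
  obtain ⟨c, hc, d, hd, hd0, hd1, rfl⟩ := hRB hs
  have hc0 : c ≠ 0 := left_ne_zero_of_mul hs0
  refine ⟨a * d, B.mul_mem ha hd, b * c, B.mul_mem hb hc, mul_ne_zero hb0 hc0, ?_, ?_⟩
  · rw [mul_inv]
    refine O.mul_mem hb1 ?_
    have : c⁻¹ = (c * d⁻¹)⁻¹ * d⁻¹ := by field_simp
    rw [this]
    exact O.mul_mem hs1 hd1
  · field_simp

theorem mem_locSub_of_div {B : Subring K} {x y g : K} (hg : g ≠ 0) (hy0 : y ≠ 0) (hx : x / g ∈ B)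
    (hy : y / g ∈ B) (hgy : g / y ∈ O) : x / y ∈ locSub O B := by
  refine ⟨x / g, hx, y / g, hy, div_ne_zero hy0 hg, ?_, ?_⟩
  · rw [inv_div]; exact hgy
  · field_simp

end LocSub

section Local

variable {K : Type} [Field K] {D : Type} [CommRing D] [Algebra D K]
  {Ix Iy : Type} [Fintype Ix] [Fintype Iy] [DecidableEq Ix] (a0 : Matrix Ix Ix D)
  (b : Matrix Ix Iy D) (a1 : Matrix Iy Iy D) (ϖ : D) (z : Ix ⊕ Iy → K)

/-- The generators of the local module of sections. -/
def genSet : Set K :=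
  {y | ∃ s t, y = algebraMap D K ϖ * (z s * z t)} ∪ {y | ∃ (j : Ix) (s : Ix ⊕ Iy),
    y = z (Sum.inl j) * z s} ∪ {qf a1 (fun j => z (Sum.inr j))}

/-- The ideals `Q` of polynomial rings over `D` do not contain `s * ϖ` in their square, unless `s`
belongs to `Q`. -/
def Unif (D : Type) [CommRing D] (ϖ : D) : Prop :=
  ∀ (σ : Type) (Q : Ideal (MvPolynomial σ D)) [Q.IsPrime], C ϖ ∈ Q →
    ∀ s, s * C ϖ ∈ Q ^ 2 → s ∈ Q

theorem qf_div {I : Type} [Fintype I] (a : Matrix I I D) (x : I → K) (g : K) :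
    qf a (fun i => x i / g) = qf a x / g ^ 2 := by
  have : (fun i => x i / g) = (fun i => g⁻¹ * x i) := by
    funext i; rw [div_eq_inv_mul]
  rw [this, qf_mul, inv_pow, div_eq_inv_mul]

theorem bil_div {I J : Type} [Fintype I] [Fintype J] (b : Matrix I J D) (x : I → K) (y : J → K)
    (g h : K) : bil b (fun i => x i / g) (fun j => y j / h) = bil b x y / (g * h) := by
  have h1 : (fun i => x i / g) = (fun i => g⁻¹ * x i) := by
    funext i; rw [div_eq_inv_mul]
  have h2 : (fun i => y i / h) = (fun i => h⁻¹ * y i) := by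
    funext i; rw [div_eq_inv_mul]
  rw [h1, h2, bil_smul_left, bil_smul_right, div_eq_inv_mul, mul_inv]
  ring

omit [DecidableEq Ix] in
theorem totq_div (x : Ix → K) (y : Iy → K) (g : K) :
    totq a0 b a1 ϖ (fun i => x i / g) (fun j => y j / g) = totq a0 b a1 ϖ x y / g ^ 2 := by
  simp only [totq, qf_div, bil_div]
  ring

omit [DecidableEq Ix] in
theorem aeval_totq {σ : Type} (w : σ → K) (x : Ix → MvPolynomial σ D) (y : Iy → MvPolynomial σ D) :
    aeval w (totq a0 b a1 ϖ x y) =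
      totq a0 b a1 ϖ (fun i => aeval w (x i)) (fun j => aeval w (y j)) := by
  simp only [totq, map_add, map_mul, map_qf, map_bil, AlgHom.commutes]

theorem sum_mem_of_qf {I : Type} [Fintype I] (B : Subring K) (hD : ∀ d : D, algebraMap D K d ∈ B)
    (a : Matrix I I D) (x : I → K) (hx : ∀ i, x i ∈ B) : qf a x ∈ B :=
  B.sum_mem fun _ _ => B.sum_mem fun _ _ => B.mul_mem (hD _) (B.mul_mem (hx _) (hx _))

variable {O : Subring K} [IsLocalRing O] [IsDedekindDomain D] [FaithfulSMul D K]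

/-- Charts of the first type. -/
theorem local_typeH (i0 : Ix ⊕ Iy) (mb wa : K) (R : Subring K)
    (hD : ∀ d : D, algebraMap D K d ∈ O) (hϖ : NU O (algebraMap D K ϖ))
    (hnd0 : Nondeg a0 ϖ) (hunif : Nonempty Iy → Unif D ϖ)
    (hq : totq a0 b a1 ϖ (fun i => z (Sum.inl i)) (fun j => z (Sum.inr j)) = 0)
    (hfrac : ∀ y : K, ∃ a ∈ O, ∃ b ∈ O, y = a / b)
    (htr : (Nat.card (Ix ⊕ Iy) : Cardinal.{0}) ≤ Algebra.trdeg D K + 2)
    (hR : ∀ y ∈ O, ∃ a ∈ R, ∃ b ∈ R, b ≠ 0 ∧ b⁻¹ ∈ O ∧ y = a * b⁻¹)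
    (hRgen : R ≤ Subring.closure {g | ∃ w ∈ Submodule.span D (genSet a1 ϖ z),
      ∃ m ∈ Submodule.span D (Set.range z), g = (w / wa) * (m / mb)})
    (hmb : mb ∈ Submodule.span D (Set.range z)) (hmb0 : mb ≠ 0)
    (hwa : wa ∈ Submodule.span D (genSet a1 ϖ z)) (hwa0 : wa ≠ 0)
    (hi0 : z i0 ≠ 0) (hi1 : ∀ s, z s / z i0 ∈ O) (hi2 : z i0 / mb ∈ O)
    (hwa1 : z i0 ^ 2 / wa ∈ O)
    (hcase : (∀ j, NU O (z (Sum.inl j) / z i0)) →
      ¬ NU O (qf a1 (fun j => z (Sum.inr j)) / z i0 ^ 2)) :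
    IsRegularLocalRing O := by
  let x : Ix ⊕ Iy → K := fun s => z s / z i0
  set B : Subalgebra D K := Algebra.adjoin D (Set.range x) with hB
  have hxB : ∀ s, x s ∈ B := fun s => Algebra.subset_adjoin ⟨s, rfl⟩
  have hDB : ∀ d : D, algebraMap D K d ∈ B.toSubring := fun d => B.algebraMap_mem d
  have hMB : ∀ m ∈ Submodule.span D (Set.range z), m / z i0 ∈ B := by
    apply span_div_mem (Subalgebra.toSubmodule B)
    rintro _ ⟨s, rfl⟩
    exact hxB s
  have hWB : ∀ w ∈ Submodule.span D (genSet a1 ϖ z), w / z i0 ^ 2 ∈ B := by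
    apply span_div_mem (Subalgebra.toSubmodule B)
    rintro _ ((⟨s, t, rfl⟩ | ⟨j, s, rfl⟩) | rfl)
    · show _ ∈ B
      have : algebraMap D K ϖ * (z s * z t) / z i0 ^ 2 = algebraMap D K ϖ * (x s * x t) := by
        simp only [x]; field_simp
      rw [this]
      exact B.mul_mem (B.algebraMap_mem _) (B.mul_mem (hxB _) (hxB _))
    · show _ ∈ B
      have : z (Sum.inl j) * z s / z i0 ^ 2 = x (Sum.inl j) * x s := by
        simp only [x]; field_simp
      rw [this]
      exact B.mul_mem (hxB _) (hxB _)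
    · show _ ∈ B
      rw [← qf_div]
      exact sum_mem_of_qf B.toSubring hDB a1 _ (fun j => hxB _)
  have hRB : R ≤ locSub O B.toSubring := by
    refine hRgen.trans ((Subring.closure_le).mpr ?_)
    rintro _ ⟨w, hw, m, hm, rfl⟩
    refine (locSub O B.toSubring).mul_mem ?_ ?_
    · exact mem_locSub_of_div (pow_ne_zero 2 hi0) hwa0 (hWB w hw) (hWB wa hwa) hwa1
    · exact mem_locSub_of_div hi0 hmb0 (hMB m hm) (hMB mb hmb) hi2
  have hloc := locSub_switch B.toSubring R hRB hR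
  refine isRegularLocalRing_subring O x hi1 hD hloc hfrac (relH a0 b a1 ϖ i0) ?_ htr ?_
  · intro k
    fin_cases k
    · show aeval x (totq a0 b a1 ϖ _ _) = 0
      rw [aeval_totq]
      simp only [aeval_X, x]
      rw [totq_div, hq, zero_div]
    · show aeval x (X i0 - 1 : MvPolynomial (Ix ⊕ Iy) D) = 0
      rw [map_sub, aeval_X, map_one]
      simp only [x]
      rw [div_self hi0, sub_self]
  · intro Q hQp hQ
    have hϖQ : C ϖ ∈ Q := by
      rw [hQ, ← algebraMap_eq, AlgHom.commutes]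
      exact hϖ
    have hrel0 : ∀ k, relH a0 b a1 ϖ i0 k ∈ Q := by
      intro k
      rw [hQ]
      left
      fin_cases k
      · show aeval x (totq a0 b a1 ϖ _ _) = 0
        rw [aeval_totq]
        simp only [aeval_X, x]
        rw [totq_div, hq, zero_div]
      · show aeval x (X i0 - 1 : MvPolynomial (Ix ⊕ Iy) D) = 0
        rw [map_sub, aeval_X, map_one]
        simp only [x]
        rw [div_self hi0, sub_self]
    refine indepAt_relH a0 b a1 ϖ i0 hnd0 Q hϖQ hrel0 ?_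
    intro hxQ
    have hNU : ∀ j, NU O (z (Sum.inl j) / z i0) := by
      intro j
      have := (hQ _).mp (hxQ j)
      rwa [aeval_X] at this
    have hIy : Nonempty Iy := by
      rcases i0 with j | j
      · exfalso
        have := hNU j
        rw [div_self hi0] at this
        exact not_NU_one this
      · exact ⟨j⟩
    refine ⟨hunif hIy _ Q hϖQ, ?_⟩
    intro hmem
    rw [hQ, map_qf] at hmem
    simp only [aeval_X, x] at hmem
    rw [qf_div] at hmem
    exact hcase hNU hmem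

/-- The generator of the exceptional ideal. -/
def wgen (i0 : K) : Ix ⊕ Fin 2 → K
  | Sum.inl j => z (Sum.inl j) * i0
  | Sum.inr k => if k = 0 then algebraMap D K ϖ * i0 ^ 2 else qf a1 (fun j => z (Sum.inr j))

/-- Charts of the second type. -/
theorem local_typeE [DecidableEq Iy] (j0 : Iy) (l : Ix ⊕ Fin 2) (mb wa : K) (R : Subring K)
    (hD : ∀ d : D, algebraMap D K d ∈ O) (hϖ : NU O (algebraMap D K ϖ))
    (hnd0 : Nondeg a0 ϖ) (hnd1 : Nondeg a1 ϖ) (hunif : Unif D ϖ)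
    (hq : totq a0 b a1 ϖ (fun i => z (Sum.inl i)) (fun j => z (Sum.inr j)) = 0)
    (hfrac : ∀ y : K, ∃ a ∈ O, ∃ b ∈ O, y = a / b)
    (htr : (Nat.card (Ix ⊕ Iy) : Cardinal.{0}) ≤ Algebra.trdeg D K + 2)
    (hR : ∀ y ∈ O, ∃ a ∈ R, ∃ b ∈ R, b ≠ 0 ∧ b⁻¹ ∈ O ∧ y = a * b⁻¹)
    (hRgen : R ≤ Subring.closure {g | ∃ w ∈ Submodule.span D (genSet a1 ϖ z),
      ∃ m ∈ Submodule.span D (Set.range z), g = (w / wa) * (m / mb)})
    (hmb : mb ∈ Submodule.span D (Set.range z)) (hmb0 : mb ≠ 0)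
    (hwa : wa ∈ Submodule.span D (genSet a1 ϖ z)) (hwa0 : wa ≠ 0)
    (hi0 : z (Sum.inr j0) ≠ 0) (hi1 : ∀ s, z s / z (Sum.inr j0) ∈ O) (hi2 : z (Sum.inr j0) / mb ∈ O)
    (hl0 : wgen a1 ϖ z (z (Sum.inr j0)) l ≠ 0)
    (hl1 : ∀ l', wgen a1 ϖ z (z (Sum.inr j0)) l' / wgen a1 ϖ z (z (Sum.inr j0)) l ∈ O)
    (hl2 : wgen a1 ϖ z (z (Sum.inr j0)) l / wa ∈ O)
    (hNU : ∀ l', NU O (wgen a1 ϖ z (z (Sum.inr j0)) l' / z (Sum.inr j0) ^ 2)) :
    IsRegularLocalRing O := by
  set g : K := z (Sum.inr j0) with hg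
  set w : K := wgen a1 ϖ z g l with hw
  let x : SE Ix Iy → K := fun s => match s with
    | Sum.inl (Sum.inl i) => z (Sum.inl i) * g / w
    | Sum.inl (Sum.inr j) => z (Sum.inr j) / g
    | Sum.inr k => if k = 0 then w / g ^ 2 else if k = 1 then algebraMap D K ϖ * g ^ 2 / w else
        qf a1 (fun j => z (Sum.inr j)) / w
  have hx1 : ∀ i, x (Sum.inl (Sum.inl i)) = z (Sum.inl i) * g / w := fun _ => rfl
  have hx2 : ∀ j, x (Sum.inl (Sum.inr j)) = z (Sum.inr j) / g := fun _ => rfl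
  have hx3 : x (Sum.inr 0) = w / g ^ 2 := if_pos rfl
  have hx4 : x (Sum.inr 1) = algebraMap D K ϖ * g ^ 2 / w :=
    (if_neg (by decide)).trans (if_pos rfl)
  have hx5 : x (Sum.inr 2) = qf a1 (fun j => z (Sum.inr j)) / w :=
    (if_neg (by decide)).trans (if_neg (by decide))
  have hw0 : w ≠ 0 := hl0
  have hqd : ∀ a : Matrix Iy Iy D, qf a (fun j => x (Sum.inl (Sum.inr j))) =
      qf a (fun j => z (Sum.inr j)) / g ^ 2 := fun a => qf_div a _ g
  have hxO : ∀ s, x s ∈ O := by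
    rintro ((i | j) | k)
    · exact hl1 (Sum.inl i)
    · exact hi1 _
    · fin_cases k
      · show x (Sum.inr 0) ∈ O
        rw [hx3]
        rcases l with i | k
        · have : w / g ^ 2 = z (Sum.inl i) / g := by
            rw [hw]; simp only [wgen]; field_simp
          rw [this]; exact hi1 _
        · fin_cases k
          · have : w / g ^ 2 = algebraMap D K ϖ := by
              rw [hw]
              show algebraMap D K ϖ * g ^ 2 / g ^ 2 = _
              field_simp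
            rw [this]; exact hD _
          · have : w / g ^ 2 = qf a1 (fun j => z (Sum.inr j) / g) := by
              rw [qf_div]; rfl
            rw [this]
            exact sum_mem_of_qf O hD a1 _ (fun j => hi1 _)
      · show x (Sum.inr 1) ∈ O
        rw [hx4]
        exact hl1 (Sum.inr 0)
      · show x (Sum.inr 2) ∈ O
        rw [hx5]
        exact hl1 (Sum.inr 1)
  set B : Subalgebra D K := Algebra.adjoin D (Set.range x) with hB
  have hxB : ∀ s, x s ∈ B := fun s => Algebra.subset_adjoin ⟨s, rfl⟩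
  have hDB : ∀ d : D, algebraMap D K d ∈ B.toSubring := fun d => B.algebraMap_mem d
  have hzg : ∀ s, z s / g ∈ B := by
    rintro (i | j)
    · have : z (Sum.inl i) / g = x (Sum.inl (Sum.inl i)) * x (Sum.inr 0) := by
        rw [hx1, hx3]; field_simp
      rw [this]
      exact B.mul_mem (hxB (Sum.inl (Sum.inl i))) (hxB (Sum.inr 0))
    · exact hxB (Sum.inl (Sum.inr j))
  have hMB : ∀ m ∈ Submodule.span D (Set.range z), m / g ∈ B := by
    apply span_div_mem (Subalgebra.toSubmodule B)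
    rintro _ ⟨s, rfl⟩
    exact hzg s
  have hWB : ∀ y ∈ Submodule.span D (genSet a1 ϖ z), y / w ∈ B := by
    apply span_div_mem (Subalgebra.toSubmodule B)
    rintro _ ((⟨s, t, rfl⟩ | ⟨j, s, rfl⟩) | rfl)
    · show _ ∈ B
      have : algebraMap D K ϖ * (z s * z t) / w = x (Sum.inr 1) * ((z s / g) * (z t / g)) := by
        rw [hx4]; field_simp
      rw [this]
      exact B.mul_mem (hxB (Sum.inr 1)) (B.mul_mem (hzg _) (hzg _))
    · show _ ∈ B
      have : z (Sum.inl j) * z s / w = x (Sum.inl (Sum.inl j)) * (z s / g) := by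
        rw [hx1]; field_simp
      rw [this]
      exact B.mul_mem (hxB (Sum.inl (Sum.inl j))) (hzg _)
    · show _ ∈ B
      rw [← hx5]
      exact hxB (Sum.inr 2)
  have hRB : R ≤ locSub O B.toSubring := by
    refine hRgen.trans ((Subring.closure_le).mpr ?_)
    rintro _ ⟨y, hy, m, hm, rfl⟩
    refine (locSub O B.toSubring).mul_mem ?_ ?_
    · exact mem_locSub_of_div hw0 hwa0 (hWB y hy) (hWB wa hwa) hl2
    · exact mem_locSub_of_div hi0 hmb0 (hMB m hm) (hMB mb hmb) hi2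
  have hloc := locSub_switch B.toSubring R hRB hR
  have hrel : ∀ k, aeval x (relE a0 b a1 ϖ j0 l k) = 0 := by
    intro k
    fin_cases k
    · show aeval x (X (Sum.inl (Sum.inr j0)) - 1 : MvPolynomial (SE Ix Iy) D) = 0
      rw [map_sub, aeval_X, map_one, hx2, ← hg, div_self hi0, sub_self]
    · show aeval x (X (lamIdx Iy l) - 1 : MvPolynomial (SE Ix Iy) D) = 0
      rw [map_sub, aeval_X, map_one]
      have : x (lamIdx Iy l) = 1 := by
        rcases l with i | k
        · show x (Sum.inl (Sum.inl i)) = 1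
          rw [hx1]
          exact div_self hw0
        · fin_cases k
          · show x (Sum.inr 1) = 1
            rw [hx4]
            exact div_self hw0
          · show x (Sum.inr 2) = 1
            rw [hx5]
            exact div_self hw0
      rw [this, sub_self]
    · show aeval x (X (Sum.inr 0) * X (Sum.inr 1) - C ϖ : MvPolynomial (SE Ix Iy) D) = 0
      rw [map_sub, map_mul, aeval_X, aeval_X, hx3, hx4, ← algebraMap_eq, AlgHom.commutes]
      field_simp
      ring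
    · show aeval x (X (Sum.inr 0) * X (Sum.inr 2) - qf a1 (fun j => X (Sum.inl (Sum.inr j))) :
        MvPolynomial (SE Ix Iy) D) = 0
      rw [map_sub, map_mul, aeval_X, aeval_X, map_qf, hx3, hx5]
      simp only [aeval_X]
      rw [hqd]
      field_simp
      ring
    · show aeval x (qf a0 (fun i => X (Sum.inl (Sum.inl i))) +
        X (Sum.inr 1) * bil b (fun i => X (Sum.inl (Sum.inl i))) (fun j => X (Sum.inl (Sum.inr j))) +
        X (Sum.inr 1) * X (Sum.inr 2) : MvPolynomial (SE Ix Iy) D) = 0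
      rw [map_add, map_add, map_mul, map_mul, map_qf, map_bil]
      simp only [aeval_X]
      have h1 : (fun i => x (Sum.inl (Sum.inl i))) = (fun i => z (Sum.inl i) / (w / g)) := by
        funext i
        rw [hx1]; field_simp
      have h2 : (fun j => x (Sum.inl (Sum.inr j))) = (fun j => z (Sum.inr j) / g) := rfl
      rw [h1, h2, qf_div, bil_div, hx4, hx5]
      have h3 : qf a0 (fun i => z (Sum.inl i)) / (w / g) ^ 2 +
          algebraMap D K ϖ * g ^ 2 / w *
            (bil b (fun i => z (Sum.inl i)) (fun j => z (Sum.inr j)) / (w / g * g)) +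
          algebraMap D K ϖ * g ^ 2 / w * (qf a1 (fun j => z (Sum.inr j)) / w) =
          (g / w) ^ 2 * totq a0 b a1 ϖ (fun i => z (Sum.inl i)) (fun j => z (Sum.inr j)) := by
        simp only [totq]
        field_simp
      rw [h3, hq, mul_zero]
  refine isRegularLocalRing_subring O x hxO hD hloc hfrac (relE a0 b a1 ϖ j0 l) hrel ?_ ?_
  · have h1 : Nat.card (SE Ix Iy) = Nat.card (Ix ⊕ Iy) + 3 := by
      rw [Nat.card_sum, Nat.card_eq_fintype_card (α := Fin 3), Fintype.card_fin]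
    rw [h1]
    push_cast
    calc (Nat.card (Ix ⊕ Iy) : Cardinal.{0}) + 3 ≤ (Algebra.trdeg D K + 2) + 3 := by gcongr
      _ = Algebra.trdeg D K + 5 := by rw [add_assoc]; norm_num
  · intro Q hQp hQ
    have hϖQ : C ϖ ∈ Q := by
      rw [hQ, ← algebraMap_eq, AlgHom.commutes]
      exact hϖ
    have heQ : X (Sum.inr 0) ∈ Q := by
      rw [hQ, aeval_X, hx3]
      exact hNU l
    refine indepAt_relE a0 b a1 ϖ j0 l hnd0 hnd1 Q hϖQ heQ (hunif _ Q hϖQ) ?_
    intro k
    rw [hQ]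
    exact Or.inl (hrel k)

theorem inv_mem_of_not_NU {O : Subring K} {y : K} (h : ¬ NU O y) : y ≠ 0 ∧ y⁻¹ ∈ O := by
  unfold NU at h
  push Not at h
  exact h

omit [DecidableEq Ix] in
theorem wgen_mem (i0 : Ix ⊕ Iy) (l : Ix ⊕ Fin 2) :
    wgen a1 ϖ z (z i0) l ∈ Submodule.span D (genSet a1 ϖ z) := by
  apply Submodule.subset_span
  rcases l with j | k
  · exact Or.inl (Or.inr ⟨j, i0, rfl⟩)
  · fin_cases k
    · refine Or.inl (Or.inl ⟨i0, i0, ?_⟩)
      show algebraMap D K ϖ * z i0 ^ 2 = _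
      rw [pow_two]
    · exact Or.inr rfl

/-- **The local theorem.** -/
theorem local_regular [DecidableEq Iy] (mb wa : K) (R : Subring K)
    (hD : ∀ d : D, algebraMap D K d ∈ O) (hϖ : NU O (algebraMap D K ϖ))
    (hnd0 : Nondeg a0 ϖ) (hnd1 : Nondeg a1 ϖ) (hunif : Nonempty Iy → Unif D ϖ)
    (hq : totq a0 b a1 ϖ (fun i => z (Sum.inl i)) (fun j => z (Sum.inr j)) = 0)
    (hfrac : ∀ y : K, ∃ a ∈ O, ∃ b ∈ O, y = a / b)
    (htr : (Nat.card (Ix ⊕ Iy) : Cardinal.{0}) ≤ Algebra.trdeg D K + 2)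
    (hR : ∀ y ∈ O, ∃ a ∈ R, ∃ b ∈ R, b ≠ 0 ∧ b⁻¹ ∈ O ∧ y = a * b⁻¹)
    (hRgen : R ≤ Subring.closure {g | ∃ w ∈ Submodule.span D (genSet a1 ϖ z),
      ∃ m ∈ Submodule.span D (Set.range z), g = (w / wa) * (m / mb)})
    (hmb : mb ∈ Submodule.span D (Set.range z)) (hmb0 : mb ≠ 0)
    (hwa : wa ∈ Submodule.span D (genSet a1 ϖ z)) (hwa0 : wa ≠ 0)
    (hM : ∀ m ∈ Submodule.span D (Set.range z), m / mb ∈ O)
    (hW : ∀ w ∈ Submodule.span D (genSet a1 ϖ z), w / wa ∈ O) :
    IsRegularLocalRing O := by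
  have hzO : ∀ s, z s / mb ∈ O := fun s => hM _ (Submodule.subset_span ⟨s, rfl⟩)
  obtain ⟨i0, hi⟩ : ∃ i0, ¬ NU O (z i0 / mb) := by
    by_contra hcon
    push Not at hcon
    have h1 := span_div_mem (nuSub hD) (Set.range z) mb (by
      rintro _ ⟨s, rfl⟩
      exact ⟨hzO s, hcon s⟩) mb hmb
    rw [div_self hmb0] at h1
    exact not_NU_one h1.2
  obtain ⟨hi', hi''⟩ := inv_mem_of_not_NU hi
  have hi0 : z i0 ≠ 0 := by
    rintro h
    rw [h, zero_div] at hi'
    exact hi' rfl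
  have hi1 : ∀ s, z s / z i0 ∈ O := by
    intro s
    have : z s / z i0 = (z s / mb) * (z i0 / mb)⁻¹ := by field_simp
    rw [this]
    exact O.mul_mem (hzO s) hi''
  have hwO : ∀ l, wgen a1 ϖ z (z i0) l / wa ∈ O := fun l => hW _ (wgen_mem a1 ϖ z i0 l)
  by_cases hA : ∃ l : Ix ⊕ Fin 2, ¬ NU O (wgen a1 ϖ z (z i0) l / z i0 ^ 2)
  · obtain ⟨l, hl⟩ := hA
    obtain ⟨hl', hl''⟩ := inv_mem_of_not_NU hl
    refine local_typeH a0 b a1 ϖ z i0 mb wa R hD hϖ hnd0 hunif hq hfrac htr hR hRgen hmb hmb0 hwa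
      hwa0 hi0 hi1 (hzO i0) ?_ ?_
    · have hne : wgen a1 ϖ z (z i0) l ≠ 0 := by
        rintro h
        rw [h, zero_div] at hl'
        exact hl' rfl
      have : z i0 ^ 2 / wa = (wgen a1 ϖ z (z i0) l / wa) * (wgen a1 ϖ z (z i0) l / z i0 ^ 2)⁻¹ := by
        field_simp
      rw [this]
      exact O.mul_mem (hwO l) hl''
    · intro hNU
      rcases l with j | k
      · exfalso
        apply hl
        have : wgen a1 ϖ z (z i0) (Sum.inl j) / z i0 ^ 2 = z (Sum.inl j) / z i0 := by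
          show z (Sum.inl j) * z i0 / z i0 ^ 2 = _
          field_simp
        rw [this]
        exact hNU j
      · fin_cases k
        · exfalso
          apply hl
          have : wgen a1 ϖ z (z i0) (Sum.inr 0) / z i0 ^ 2 = algebraMap D K ϖ := by
            show algebraMap D K ϖ * z i0 ^ 2 / z i0 ^ 2 = _
            field_simp
          show NU O (wgen a1 ϖ z (z i0) (Sum.inr 0) / z i0 ^ 2)
          rw [this]
          exact hϖ
        · exact hl
  · push Not at hA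
    rcases i0 with j | j0
    · exfalso
      have h1 := hA (Sum.inl j)
      have : wgen a1 ϖ z (z (Sum.inl j)) (Sum.inl j) / z (Sum.inl j) ^ 2 = 1 := by
        show z (Sum.inl j) * z (Sum.inl j) / z (Sum.inl j) ^ 2 = _
        field_simp
      rw [this] at h1
      exact not_NU_one h1
    · set g := z (Sum.inr j0) with hg
      obtain ⟨l, hl⟩ : ∃ l : Ix ⊕ Fin 2, ¬ NU O (wgen a1 ϖ z g l / wa) := by
        by_contra hcon
        push Not at hcon
        have h1 := span_div_mem (nuSub hD) (genSet a1 ϖ z) wa (by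
          rintro _ ((⟨s, t, rfl⟩ | ⟨j, s, rfl⟩) | rfl)
          · have h2 : algebraMap D K ϖ * (z s * z t) / wa =
                ((z s / g) * (z t / g)) * (wgen a1 ϖ z g (Sum.inr 0) / wa) := by
              show _ = _ * (algebraMap D K ϖ * g ^ 2 / wa)
              field_simp
            have h3 : (z s / g) * (z t / g) ∈ O := O.mul_mem (hi1 s) (hi1 t)
            rw [h2]
            exact ⟨O.mul_mem h3 (hwO _), NU.mul h3 (hwO _) (hcon _)⟩
          · have h2 : z (Sum.inl j) * z s / wa =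
                (z s / g) * (wgen a1 ϖ z g (Sum.inl j) / wa) := by
              show _ = _ * (z (Sum.inl j) * g / wa)
              field_simp
            rw [h2]
            exact ⟨O.mul_mem (hi1 s) (hwO _), NU.mul (hi1 s) (hwO _) (hcon _)⟩
          · exact ⟨hwO (Sum.inr 1), hcon (Sum.inr 1)⟩) wa hwa
        rw [div_self hwa0] at h1
        exact not_NU_one h1.2
      obtain ⟨hl', hl''⟩ := inv_mem_of_not_NU hl
      have hne : wgen a1 ϖ z g l ≠ 0 := by
        rintro h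
        rw [h, zero_div] at hl'
        exact hl' rfl
      refine local_typeE a0 b a1 ϖ z j0 l mb wa R hD hϖ hnd0 hnd1 (hunif ⟨j0⟩) hq hfrac htr hR hRgen
        hmb hmb0 hwa hwa0 hi0 hi1 (hzO _) hne ?_ (hwO l) hA
      intro l'
      have : wgen a1 ϖ z g l' / wgen a1 ϖ z g l =
          (wgen a1 ϖ z g l' / wa) * (wgen a1 ϖ z g l / wa)⁻¹ := by field_simp
      rw [this]
      exact O.mul_mem (hwO l') hl''

end Local

end Pool.Agent.H97.NF
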