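import Pool.Agent.H97.NF.Pack

/-!
# The modules of sections
-/

set_option autoImplicit false
set_option linter.unusedSectionVars false

namespace Pool.Agent.H97.NF

open Module

section Sat

variable {A : Type} [CommRing A] {P : Ideal A} [hPp : P.IsPrime] {V : Type} [AddCommGroup V]
  [Module A V] {D : Type} [CommRing D] [Algebra A D] [IsLocalization.AtPrime D P] [Module D V]
  [IsScalarTower A D V]

variable (P D) in
/-- The elements a multiple of which by an element outside of `P` belongs to `T`. -/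
def satD (T : Submodule A V) : Submodule D V where
  carrier := {v | ∃ u : A, u ∉ P ∧ u • v ∈ T}
  add_mem' := by
    rintro x y ⟨s, hs, hsx⟩ ⟨t, ht, hty⟩
    refine ⟨s * t, fun h => (hPp.mem_or_mem h).elim hs ht, ?_⟩
    rw [smul_add, mul_smul, mul_smul, smul_comm s t x]
    exact T.add_mem (T.smul_mem _ hsx) (T.smul_mem _ hty)
  zero_mem' := ⟨1, fun h => hPp.ne_top ((Ideal.eq_top_iff_one _).mpr h), by
    rw [smul_zero]; exact T.zero_mem⟩
  smul_mem' := by
    rintro d x ⟨s, hs, hsx⟩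
    obtain ⟨⟨a, t⟩, hat⟩ := IsLocalization.surj P.primeCompl d
    refine ⟨t * s, fun h => (hPp.mem_or_mem h).elim t.2 hs, ?_⟩
    have h1 : ((t : A) * s) • d • x = a • (s • x) := by
      have h2 : (t : A) • d • x = a • x := by
        rw [← smul_assoc, Algebra.smul_def (t : A) d, mul_comm (algebraMap A D t) d, hat,
          algebraMap_smul]
      rw [mul_comm, mul_smul, h2, smul_comm]
    rw [h1]
    exact T.smul_mem _ hsx

theorem mem_satD {T : Submodule A V} {v : V} : v ∈ satD P D T ↔ ∃ u : A, u ∉ P ∧ u • v ∈ T :=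
  Iff.rfl

/-- Common denominators for finitely generated modules. -/
theorem exists_clear {N T : Submodule A V} (hN : N.FG)
    (h : ∀ v ∈ N, ∃ u : A, u ∉ P ∧ u • v ∈ T) : ∃ u : A, u ∉ P ∧ ∀ v ∈ N, u • v ∈ T := by
  classical
  obtain ⟨s, rfl⟩ := hN
  choose! u hu1 hu2 using h
  refine ⟨∏ v ∈ s, u v, ?_, ?_⟩
  · rw [hPp.prod_mem_iff]
    rintro ⟨v, hv, hv'⟩
    exact hu1 v (Submodule.subset_span hv) hv'
  · intro v hv
    induction hv using Submodule.span_induction with
    | mem x hx =>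
      rw [← Finset.prod_erase_mul s _ hx, mul_smul]
      exact T.smul_mem _ (hu2 x (Submodule.subset_span hx))
    | zero => rw [smul_zero]; exact T.zero_mem
    | add x y _ _ hx hy => rw [smul_add]; exact T.add_mem hx hy
    | smul a x _ hx => rw [smul_comm]; exact T.smul_mem _ hx

/-- Common denominators for finitely many submodules. -/
theorem exists_clear_finset {κ : Type} (s : Set κ) (hs : s.Finite) (T : κ → Submodule A V) (v : V)
    (h : ∀ i ∈ s, ∃ u : A, u ∉ P ∧ u • v ∈ T i) : ∃ u : A, u ∉ P ∧ ∀ i ∈ s, u • v ∈ T i := by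
  classical
  choose! u hu1 hu2 using h
  refine ⟨∏ i ∈ hs.toFinset, u i, ?_, ?_⟩
  · rw [hPp.prod_mem_iff]
    rintro ⟨i, hi, hi'⟩
    exact hu1 i (hs.mem_toFinset.mp hi) hi'
  · intro i hi
    rw [← Finset.prod_erase_mul hs.toFinset _ (hs.mem_toFinset.mpr hi), mul_smul]
    exact (T i).smul_mem _ (hu2 i hi)

end Sat

section Sections

variable {A F : Type} [CommRing A] [Field F] [Algebra A F] {ι : Type} [Fintype ι]
  {K : Type} [Field K] [Algebra F K] [Algebra A K] [IsScalarTower A F K] (t : ι → K)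

variable (A) in
/-- Linear combinations of the elements `t i`. -/
def Phi : (ι → F) →ₗ[A] K where
  toFun ℓ := ∑ k, algebraMap F K (ℓ k) * t k
  map_add' ℓ ℓ' := by
    rw [← Finset.sum_add_distrib]
    refine Finset.sum_congr rfl fun k _ => ?_
    rw [Pi.add_apply, map_add, add_mul]
  map_smul' a ℓ := by
    rw [RingHom.id_apply, Finset.smul_sum]
    refine Finset.sum_congr rfl fun k _ => ?_
    rw [Pi.smul_apply, Algebra.smul_def, map_mul, ← IsScalarTower.algebraMap_apply, mul_assoc,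
      Algebra.smul_def]

theorem Phi_apply (ℓ : ι → F) : Phi A t ℓ = ∑ k, algebraMap F K (ℓ k) * t k := rfl

/-- The dual lattice. -/
def Ldual (L : Submodule A (ι → F)) : Submodule A (ι → F) where
  carrier := {ℓ | ∀ v ∈ L, ∑ k, ℓ k * v k ∈ (algebraMap A F).range}
  add_mem' := by
    intro ℓ ℓ' h h' v hv
    simp only [Pi.add_apply, add_mul, Finset.sum_add_distrib]
    exact Subring.add_mem _ (h v hv) (h' v hv)
  zero_mem' := by
    intro v _
    simp only [Pi.zero_apply, zero_mul, Finset.sum_const_zero]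
    exact Subring.zero_mem _
  smul_mem' := by
    intro a ℓ h v hv
    have : ∑ k, (a • ℓ) k * v k = algebraMap A F a * ∑ k, ℓ k * v k := by
      rw [Finset.mul_sum]
      refine Finset.sum_congr rfl fun k _ => ?_
      rw [Pi.smul_apply, Algebra.smul_def, mul_assoc]
    rw [this]
    exact Subring.mul_mem _ ⟨a, rfl⟩ (h v hv)

/-- The module of sections of `𝒪(1)`. -/
def MM (L : Submodule A (ι → F)) : Submodule A K := (Ldual L).map (Phi A t)

variable {L : Submodule A (ι → F)} {S : Matrix ι ι F} {δ : A} {P : Ideal A}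
  {D : Type} [CommRing D] [Algebra A D] [Algebra D F] [IsScalarTower A D F] [Algebra D K]
  [IsScalarTower D F K] [IsScalarTower A D K]
  {ϖ : D} {Ix Iy : Type} [Fintype Ix] [Fintype Iy] [DecidableEq Ix] [DecidableEq Iy]

/-- The local coordinates. -/
def LocData.z (ld : LocData S L P D ϖ Ix Iy) (t : ι → K) : Ix ⊕ Iy → K := fun s =>
  Phi A t (ld.es s)

theorem LocData.t_eq (ld : LocData S L P D ϖ Ix Iy) (k : ι) :
    t k = ∑ s, algebraMap F K (ld.e s k) * ld.z t s := by
  classical
  have h1 : ∀ l, (Pi.single l 1 : ι → F) k = ∑ s, ld.e s k * ld.es s l := by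
    intro l
    rw [ld.recon (Pi.single l 1) k]
    refine Finset.sum_congr rfl fun s _ => ?_
    simp [Pi.single_apply]
  have h2 : ∑ s, algebraMap F K (ld.e s k) * ld.z t s =
      ∑ l, algebraMap F K ((Pi.single l 1 : ι → F) k) * t l := by
    simp only [h1, LocData.z, Phi_apply, Finset.mul_sum, map_sum, map_mul, Finset.sum_mul]
    rw [Finset.sum_comm]
    refine Finset.sum_congr rfl fun l _ => Finset.sum_congr rfl fun s _ => ?_
    ring
  rw [h2, Finset.sum_eq_single k]
  · simp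
  · intro l _ hl
    rw [Pi.single_eq_of_ne (Ne.symm hl), map_zero, zero_mul]
  · intro h; exact absurd (Finset.mem_univ _) h

theorem LocData.totq_z (ld : LocData S L P D ϖ Ix Iy) (hq : qf S t = 0) :
    totq ld.a0 ld.b ld.a1 ϖ (fun i => ld.z t (Sum.inl i)) (fun j => ld.z t (Sum.inr j)) = 0 := by
  have h1 := ld.form K (ld.z t)
  rw [← h1, ← hq]
  congr 1
  funext k
  exact (ld.t_eq t k).symm

theorem LocData.mem_span_z [hPp : P.IsPrime] [IsLocalization.AtPrime D P] [FaithfulSMul A F]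
    (ld : LocData S L P D ϖ Ix Iy) {m : K} (hm : m ∈ MM t L) :
    m ∈ Submodule.span D (Set.range (ld.z t)) := by
  obtain ⟨ℓ, hℓ, rfl⟩ := hm
  have h1 : Phi A t ℓ = ∑ s, algebraMap F K (∑ k, ℓ k * ld.e s k) * ld.z t s := by
    rw [Phi_apply]
    simp only [map_sum, map_mul, Finset.sum_mul]
    rw [Finset.sum_comm]
    refine Finset.sum_congr rfl fun k _ => ?_
    conv_lhs => rw [ld.t_eq t k, Finset.mul_sum]
    refine Finset.sum_congr rfl fun s _ => ?_
    ring
  rw [h1]
  refine Submodule.sum_mem _ fun s _ => ?_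
  obtain ⟨u, hu, hus⟩ := ld.e_mem s
  have h2 : algebraMap A F u * ∑ k, ℓ k * ld.e s k ∈ (algebraMap A F).range := by
    have := hℓ _ hus
    have h3 : ∑ k, ℓ k * (u • ld.e s) k = algebraMap A F u * ∑ k, ℓ k * ld.e s k := by
      rw [Finset.mul_sum]
      refine Finset.sum_congr rfl fun k _ => ?_
      rw [Pi.smul_apply, Algebra.smul_def]; ring
    rwa [h3] at this
  obtain ⟨d, hd⟩ := mem_range_of_mul_mem (D := D) hu h2
  rw [← hd, ← IsScalarTower.algebraMap_apply D F K, ← Algebra.smul_def]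
  exact Submodule.smul_mem _ _ (Submodule.subset_span ⟨s, rfl⟩)

theorem LocData.z_mem_sat [hPp : P.IsPrime] [IsLocalization.AtPrime D P] [FaithfulSMul A F]
    (hL : L.FG) (ld : LocData S L P D ϖ Ix Iy) (s : Ix ⊕ Iy) :
    ld.z t s ∈ satD P D (MM t L) := by
  let f : (ι → F) →ₗ[A] F :=
    { toFun := fun v => ∑ k, ld.es s k * v k
      map_add' := by
        intro v w
        simp only [Pi.add_apply, mul_add, Finset.sum_add_distrib]
      map_smul' := by
        intro a v
        simp only [Pi.smul_apply, Algebra.smul_def, Finset.mul_sum, RingHom.id_apply]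
        refine Finset.sum_congr rfl fun k _ => ?_
        ring }
  let T : Submodule A F := LinearMap.range (Algebra.linearMap A F)
  obtain ⟨u, hu, hu2⟩ := exists_clear (P := P) (T := T) (hL.map f) (by
    rintro _ ⟨v, hv, rfl⟩
    obtain ⟨d, hd⟩ := ld.coord v hv s
    obtain ⟨⟨a, u⟩, hau⟩ := IsLocalization.surj P.primeCompl d
    refine ⟨u, u.2, a, ?_⟩
    show algebraMap A F a = (u : A) • ∑ k, ld.es s k * v k
    rw [hd, Algebra.smul_def, IsScalarTower.algebraMap_apply A D F, ← hau, map_mul, mul_comm,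
      ← IsScalarTower.algebraMap_apply A D F])
  refine ⟨u, hu, u • ld.es s, ?_, ?_⟩
  · intro v hv
    obtain ⟨a, ha⟩ := hu2 (f v) ⟨v, hv, rfl⟩
    refine ⟨a, ?_⟩
    have h1 : algebraMap A F a = u • f v := ha
    rw [h1]
    show u • ∑ k, ld.es s k * v k = _
    rw [Finset.smul_sum]
    refine Finset.sum_congr rfl fun k _ => ?_
    rw [Pi.smul_apply, smul_mul_assoc]
  · rw [map_smul]
    rfl

end Sections

section Blow

variable {A : Type} [CommRing A] [IsDedekindDomain A] {F : Type} [Field F] [Algebra A F]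
  [IsFractionRing A F] {ι : Type} [Fintype ι] [DecidableEq ι] {K : Type} [Field K] [Algebra F K]
  [Algebra A K] [IsScalarTower A F K] {S : Matrix ι ι F} {L : Submodule A (ι → F)} {δ : A}
  (t : ι → K)

open scoped Pointwise

/-- The local module of sections of the blow up. -/
noncomputable def Pack.N {P : Ideal A} [P.IsPrime] (pk : Pack S L δ P) (t : ι → K) : Submodule (DP F P) K :=
  Submodule.span (DP F P) (genSet pk.ld.a1 pk.ϖ (pk.ld.z t))

variable (pk : ∀ (P : Ideal A) [P.IsPrime], Pack S L δ P)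

/-- The module of sections of the blow up. -/
noncomputable def WW : Submodule A K where
  carrier := {w | w ∈ MM t L * MM t L ∧ ∀ (P : Ideal A) [P.IsPrime], δ ∈ P → w ∈ (pk P).N t}
  add_mem' := by
    rintro x y ⟨hx, hx'⟩ ⟨hy, hy'⟩
    exact ⟨Submodule.add_mem _ hx hy, fun P _ hP => Submodule.add_mem _ (hx' P hP) (hy' P hP)⟩
  zero_mem' := ⟨Submodule.zero_mem _, fun P _ _ => Submodule.zero_mem _⟩
  smul_mem' := by
    rintro c x ⟨hx, hx'⟩
    refine ⟨Submodule.smul_mem _ c hx, fun P _ hP => ?_⟩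
    rw [← algebraMap_smul (DP F P) c x]
    exact Submodule.smul_mem _ _ (hx' P hP)

theorem mem_WW {w : K} : w ∈ WW t pk ↔
    w ∈ MM t L * MM t L ∧ ∀ (P : Ideal A) [P.IsPrime], δ ∈ P → w ∈ (pk P).N t := Iff.rfl

theorem mul_mem_span_mul {P : Ideal A} [P.IsPrime] (p : Pack S L δ P) {w : K}
    (hw : w ∈ MM t L * MM t L) : w ∈ Submodule.span (DP F P)
      (Set.range (p.ld.z t)  * Set.range (p.ld.z t)) := by
  induction hw using Submodule.mul_induction_on' with
  | mem_mul_mem m hm m' hm' =>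
    rw [← Submodule.span_mul_span]
    exact Submodule.mul_mem_mul (p.ld.mem_span_z t hm) (p.ld.mem_span_z t hm')
  | add x _ y _ hx hy => exact Submodule.add_mem _ hx hy

/-- (W1) -/
theorem mem_N_of_mem_WW {P : Ideal A} [P.IsPrime] {w : K} (hw : w ∈ WW t pk) : w ∈ (pk P).N t := by
  rcases (pk P).bad with h | ⟨_, h, _⟩
  · refine Submodule.span_mono ?_ (mul_mem_span_mul t (pk P) hw.1)
    rintro _ ⟨_, ⟨i, rfl⟩, _, ⟨j, rfl⟩, rfl⟩
    rcases i with i | i
    · exact Or.inl (Or.inr ⟨i, j, rfl⟩)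
    · exact (h.false i).elim
  · exact hw.2 P h

/-- Elements of another bad prime. -/
theorem smul_mem_N {P : Ideal A} [P.IsPrime] (p : Pack S L δ P) {u : A} (hu : u ∈ P) {w : K}
    (hw : w ∈ MM t L * MM t L) : u • w ∈ p.N t := by
  have h1 := mul_mem_span_mul t p hw
  rcases p.bad with h | ⟨_, _, h⟩
  · have h2 : w ∈ p.N t := by
      refine Submodule.span_mono ?_ h1
      rintro _ ⟨_, ⟨i, rfl⟩, _, ⟨j, rfl⟩, rfl⟩
      rcases i with i | i
      · exact Or.inl (Or.inr ⟨i, j, rfl⟩)
      · exact (h.false i).elim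
    rw [← algebraMap_smul (DP F P) u w]
    exact Submodule.smul_mem _ _ h2
  · obtain ⟨c, hc⟩ := h u hu
    rw [← algebraMap_smul (DP F P) u w, hc]
    clear hw
    induction h1 using Submodule.span_induction with
    | mem x hx =>
      obtain ⟨_, ⟨i, rfl⟩, _, ⟨j, rfl⟩, rfl⟩ := hx
      rw [mul_comm p.ϖ c, mul_smul]
      refine Submodule.smul_mem _ _ (Submodule.subset_span ?_)
      refine Or.inl (Or.inl ⟨i, j, ?_⟩)
      rw [Algebra.smul_def]
    | zero => rw [smul_zero]; exact Submodule.zero_mem _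
    | add x y _ _ hx hy => rw [smul_add]; exact Submodule.add_mem _ hx hy
    | smul a x _ hx => rw [smul_comm]; exact Submodule.smul_mem _ _ hx

theorem mul_z_mem_sat {P : Ideal A} [P.IsPrime] (hL : L.FG) (p : Pack S L δ P)
    (s s' : p.Ix ⊕ p.Iy) :
    p.ld.z t s * p.ld.z t s' ∈ satD P (DP F P) (MM t L * MM t L) := by
  obtain ⟨u, hu, h1⟩ := p.ld.z_mem_sat t hL s
  obtain ⟨u', hu', h1'⟩ := p.ld.z_mem_sat t hL s'
  refine ⟨u * u', fun h => (‹P.IsPrime›.mem_or_mem h).elim hu hu', ?_⟩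
  rw [← smul_mul_smul_comm]
  exact Submodule.mul_mem_mul h1 h1'

theorem N_le_sat_mul {P : Ideal A} [P.IsPrime] (hL : L.FG) (p : Pack S L δ P) :
    p.N t ≤ satD P (DP F P) (MM t L * MM t L) := by
  rw [Pack.N, Submodule.span_le]
  rintro _ ((⟨s, s', rfl⟩ | ⟨j, s, rfl⟩) | rfl)
  · rw [← Algebra.smul_def]
    exact Submodule.smul_mem _ _ (mul_z_mem_sat t hL p s s')
  · exact mul_z_mem_sat t hL p _ _
  · show qf _ _ ∈ _
    rw [qf]
    refine Submodule.sum_mem _ fun i _ => Submodule.sum_mem _ fun j _ => ?_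
    rw [← Algebra.smul_def]
    exact Submodule.smul_mem _ _ (mul_z_mem_sat t hL p _ _)

/-- (W2) -/
theorem N_le_sat_WW {P : Ideal A} [hP : P.IsPrime] (hL : L.FG) (hδ : δ ≠ 0) {w : K}
    (hw : w ∈ (pk P).N t) : ∃ u : A, u ∉ P ∧ u • w ∈ WW t pk := by
  obtain ⟨u0, hu0, h0⟩ := N_le_sat_mul t hL (pk P) hw
  have hfin : {v : IsDedekindDomain.HeightOneSpectrum A | δ ∈ v.asIdeal}.Finite := by
    have h1 := Ideal.finite_factors (I := Ideal.span {δ}) (by
      rw [Ne, Ideal.zero_eq_bot, Ideal.span_singleton_eq_bot]; exact hδ)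
    refine h1.subset fun v hv => ?_
    exact Ideal.dvd_span_singleton.mpr hv
  have hT : ∀ v : IsDedekindDomain.HeightOneSpectrum A, v.asIdeal.IsPrime := fun v => v.isPrime
  obtain ⟨u1, hu1, h1⟩ := exists_clear_finset (P := P) _ hfin
    (fun v => ((pk v.asIdeal).N t).restrictScalars A) (u0 • w) (by
    intro v hv
    by_cases h : v.asIdeal = P
    · subst h
      refine ⟨1, fun h => hP.ne_top ((Ideal.eq_top_iff_one _).mpr h), ?_⟩
      rw [one_smul]
      show u0 • w ∈ (pk v.asIdeal).N t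
      rw [← algebraMap_smul (DP F v.asIdeal) u0 w]
      exact Submodule.smul_mem _ _ hw
    · obtain ⟨u, hu, huP⟩ : ∃ u ∈ v.asIdeal, u ∉ P := by
        by_contra hcon
        push Not at hcon
        exact h (v.isMaximal.eq_of_le hP.ne_top hcon)
      exact ⟨u, huP, smul_mem_N t (pk v.asIdeal) hu h0⟩)
  refine ⟨u1 * u0, fun h => (hP.mem_or_mem h).elim hu1 hu0, ?_⟩
  rw [mul_smul]
  refine ⟨Submodule.smul_mem _ _ h0, ?_⟩
  intro P' hP' hδP'
  by_cases hb : P' = ⊥
  · exfalso
    subst hb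
    exact hδ hδP'
  · exact h1 ⟨P', hP', hb⟩ hδP'

theorem MM_fg (hL : MaxLat S L δ) : (MM t L).FG := by
  have h1 : (Ldual L).FG := by
    refine fg_of_bound (A := A) hL.ne_zero ?_
    intro ℓ hℓ i
    have := hℓ _ (hL.single_mem i)
    have h2 : ∑ k, ℓ k * (δ • (Pi.single i 1 : ι → F)) k = algebraMap A F δ * ℓ i := by
      rw [Finset.sum_eq_single i]
      · rw [Pi.smul_apply, Pi.single_eq_same, Algebra.smul_def, mul_one, mul_comm]
      · intro k _ hk
        rw [Pi.smul_apply, Pi.single_eq_of_ne hk, smul_zero, mul_zero]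
      · intro h; exact absurd (Finset.mem_univ _) h
    rwa [h2] at this
  exact h1.map _

theorem WW_fg (hL : MaxLat S L δ) : (WW t pk).FG := by
  have h1 : (MM t L * MM t L).FG := (MM_fg t hL).mul (MM_fg t hL)
  have h2 : IsNoetherian A ↥(MM t L * MM t L) := isNoetherian_of_fg_of_noetherian _ h1
  exact (isNoetherian_submodule.mp h2) _ (fun w hw => hw.1)

end Blow

end Pool.Agent.H97.NF
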