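import Pool.Agent.H97.NF.LocData
import Pool.Agent.H97.NF.LocalThm

/-!
# Local data at all primes
-/

set_option autoImplicit false

namespace Pool.Agent.H97.NF

open IsLocalRing Module

section Good

variable {A F : Type} [CommRing A] [Field F] [Algebra A F] {ι : Type} [Fintype ι]
  {S : Matrix ι ι F} {L : Submodule A (ι → F)} {δ : A}
  {P : Ideal A} [hPp : P.IsPrime] {D : Type} [CommRing D]
  [Algebra A D] [IsLocalization.AtPrime D P] [Algebra D F] [IsScalarTower A D F]

omit [Fintype ι] in
theorem mem_range_of_mul_mem {δ : A} (hδ : δ ∉ P) {x : F}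
    (h : algebraMap A F δ * x ∈ (algebraMap A F).range) : x ∈ (algebraMap D F).range := by
  obtain ⟨u, hu⟩ : IsUnit (algebraMap A D δ) :=
    IsLocalization.map_units D (⟨δ, hδ⟩ : P.primeCompl)
  obtain ⟨a, ha⟩ := h
  refine ⟨((u⁻¹ : Dˣ) : D) * algebraMap A D a, ?_⟩
  rw [map_mul, ← IsScalarTower.algebraMap_apply A D F, ha, IsScalarTower.algebraMap_apply A D F δ,
    ← hu, ← mul_assoc, ← map_mul, Units.inv_mul, map_one, one_mul]

variable [DecidableEq ι]

/-- At the primes not containing `δ` the standard lattice is fine. -/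
theorem exists_locData_good [IsFractionRing A F] [FaithfulSMul D F] [IsDedekindDomain A]
    (hS : (S + S.transpose).det ≠ 0)
    (hL : MaxLat S L δ) (hδ : δ ∉ P) : Nonempty (LocData S L P D 0 ι Empty) := by
  classical
  have hinjD : Function.Injective (algebraMap D F) := FaithfulSMul.algebraMap_injective D F
  have hSD : ∀ i j, S i j ∈ (algebraMap D F).range := fun i j =>
    mem_range_of_mul_mem hδ (hL.coef i j)
  have hND : ∀ i j, (S + S.transpose)⁻¹ i j ∈ (algebraMap D F).range := fun i j =>
    mem_range_of_mul_mem hδ (hL.inv i j)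
  choose a0 ha0 using hSD
  choose N hN using hND
  let a0' : Matrix ι ι D := a0
  let N' : Matrix ι ι D := N
  have h1 : a0'.map (algebraMap D F) = S := by
    ext i j; exact ha0 i j
  have h2 : N'.map (algebraMap D F) = (S + S.transpose)⁻¹ := by
    ext i j; exact hN i j
  have h3 : (a0' + a0'.transpose) * N' = 1 := by
    apply Matrix.map_injective hinjD
    show ((a0' + a0'.transpose) * N').map (algebraMap D F) = (1 : Matrix ι ι D).map (algebraMap D F)
    rw [Matrix.map_mul, h2, Matrix.map_add _ (map_add _), Matrix.transpose_map, h1,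
      Matrix.mul_nonsing_inv _ (isUnit_iff_ne_zero.mpr hS), Matrix.map_one _ (map_zero _) (map_one _)]
  have hdet : IsUnit (a0' + a0'.transpose).det := by
    have h4 := congrArg Matrix.det h3
    rw [Matrix.det_mul, Matrix.det_one] at h4
    exact IsUnit.of_mul_eq_one _ h4
  refine ⟨{
    e := Sum.elim (fun i => Pi.single i 1) (fun j => j.elim)
    es := Sum.elim (fun i => Pi.single i 1) (fun j => j.elim)
    a0 := a0'
    b := fun _ j => j.elim
    a1 := fun j _ => j.elim
    card := by simp
    e_mem := ?_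
    coord := ?_
    recon := ?_
    form := ?_
    nd0 := nondeg_of_isUnit a0' 0 hdet
    nd1 := ?_ }⟩
  · rintro (i | j)
    · exact ⟨δ, hδ, hL.single_mem i⟩
    · exact j.elim
  · rintro v hv (i | j)
    · obtain ⟨d, hd⟩ := mem_range_of_mul_mem (D := D) hδ (hL.bound v hv i)
      refine ⟨d, ?_⟩
      rw [hd]
      simp [Pi.single_apply]
    · exact j.elim
  · intro v k
    rw [Fintype.sum_sum_type]
    simp [Pi.single_apply]
  · intro R _ _ _ _ x
    have h5 : (fun k => ∑ s : ι ⊕ Empty, algebraMap F R (Sum.elim (fun i => (Pi.single i 1 : ι → F))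
        (fun j : Empty => j.elim) s k) * x s) = fun i => x (Sum.inl i) := by
      funext k
      rw [Fintype.sum_sum_type]
      simp [Pi.single_apply]
    rw [h5, totq, map_zero, zero_mul, add_zero, zero_mul, add_zero, qf, qf]
    refine Finset.sum_congr rfl fun i _ => Finset.sum_congr rfl fun j _ => ?_
    rw [← ha0 i j, ← IsScalarTower.algebraMap_apply D F R]
  · intro κ _ _ _ _ ξ _ _
    funext j
    exact j.elim

end Good

section Packs

variable {A : Type} [CommRing A] [IsDedekindDomain A] (F : Type) [Field F] [Algebra A F]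
  [IsFractionRing A F]

/-- The local ring of `A` at `P`, as a subring of the field of fractions. -/
noncomputable abbrev DP (P : Ideal A) [P.IsPrime] : Subalgebra A F :=
  Localization.subalgebra.ofField F P.primeCompl P.primeCompl_le_nonZeroDivisors

theorem mem_DP (P : Ideal A) [P.IsPrime] {x : F} : x ∈ DP F P ↔
    ∃ a s : A, ∃ _ : s ∈ P.primeCompl, x = algebraMap A F a * (algebraMap A F s)⁻¹ := Iff.rfl

instance (P : Ideal A) [P.IsPrime] : IsLocalization.AtPrime (DP F P) P :=
  Localization.subalgebra.isLocalization_ofField F P.primeCompl _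

instance (P : Ideal A) [P.IsPrime] : IsDedekindDomain (DP F P) :=
  IsLocalization.isDedekindDomain A P.primeCompl_le_nonZeroDivisors (DP F P)

variable {F} {ι : Type} [Fintype ι] [DecidableEq ι] (S : Matrix ι ι F)
  (L : Submodule A (ι → F)) (δ : A)

/-- Local data at `P`, in the form needed below. -/
structure Pack (P : Ideal A) [P.IsPrime] where
  Ix : Type
  Iy : Type
  fx : Fintype Ix
  fy : Fintype Iy
  dx : DecidableEq Ix
  dy : DecidableEq Iy
  ϖ : DP F P
  ld : LocData S L P (DP F P) ϖ Ix Iy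
  unif : Nonempty Iy → Unif (DP F P) ϖ
  hϖ : ∃ a ∈ P, ∃ u ∉ P, algebraMap A (DP F P) u * ϖ = algebraMap A (DP F P) a
  bad : IsEmpty Iy ∨ (P ≠ ⊥ ∧ δ ∈ P ∧ ∀ x ∈ P, ϖ ∣ algebraMap A (DP F P) x)

attribute [instance] Pack.fx Pack.fy Pack.dx Pack.dy

/-- Discrete valuation rings with finite residue fields satisfy `Unif`. -/
theorem unif_of_finite {D : Type} [CommRing D] [IsDomain D] [IsLocalRing D]
    [Finite (ResidueField D)] {ϖ : D} (hϖ0 : ϖ ≠ 0) (hϖ : maximalIdeal D = Ideal.span {ϖ}) :
    Unif D ϖ := by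
  intro σ Q hQ hϖQ s hs
  have _ := Fintype.ofFinite (ResidueField D)
  obtain ⟨p, _⟩ := CharP.exists (ResidueField D)
  obtain ⟨n, hp, hn⟩ := FiniteField.card (ResidueField D) p
  have hdvd : ∀ d : D, residue D d = 0 → ϖ ∣ d := by
    intro d hd
    rwa [residue_eq_zero_iff, hϖ, Ideal.mem_span_singleton] at hd
  refine mem_of_mul_unif_mem_sq (p := p) (n := n) hp n.pos hϖ0 (hdvd _ ?_) (fun d => hdvd _ ?_) Q
    hϖQ hs
  · rw [map_natCast, CharP.cast_eq_zero]
  · rw [map_sub, map_pow, ← hn, FiniteField.pow_card, sub_self]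

variable {S L δ}

theorem exists_pack (hS : (S + S.transpose).det ≠ 0) (hL : MaxLat S L δ)
    (hfin : ∀ P : Ideal A, P ≠ ⊥ → Finite (A ⧸ P)) (P : Ideal A) [hPp : P.IsPrime] :
    Nonempty (Pack S L δ P) := by
  by_cases hδ : δ ∈ P
  · have hP : P ≠ ⊥ := by
      rintro rfl
      exact hL.ne_zero hδ
    have hmax : P.IsMaximal := hPp.isMaximal hP
    have hloc : IsLocalRing (DP F P) := IsLocalization.AtPrime.isLocalRing (DP F P) P
    have hdvr : IsDiscreteValuationRing (DP F P) :=
      IsLocalization.AtPrime.isDiscreteValuationRing_of_dedekind_domain A hP (DP F P)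
    have hfinP : Finite (A ⧸ P) := hfin P hP
    have hfinD : Finite (ResidueField (DP F P)) :=
      Finite.of_equiv _ (IsLocalization.AtPrime.equivQuotMaximalIdeal P (DP F P)).toEquiv
    obtain ⟨ϖ, hirr⟩ := IsDiscreteValuationRing.exists_irreducible (DP F P)
    have hϖ := hirr.maximalIdeal_eq
    obtain ⟨Ix, Iy, fx, fy, dx, dy, ⟨ld⟩⟩ := exists_locData hL hP hϖ
    refine ⟨{
      Ix := Ix
      Iy := Iy
      fx := fx
      fy := fy
      dx := dx
      dy := dy
      ϖ := ϖ
      ld := ld
      unif := fun _ => unif_of_finite hirr.ne_zero hϖ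
      hϖ := ?_
      bad := Or.inr ⟨hP, hδ, ?_⟩ }⟩
    · obtain ⟨⟨a, u⟩, hau⟩ := IsLocalization.surj P.primeCompl ϖ
      refine ⟨a, ?_, u, u.2, ?_⟩
      · rw [← IsLocalization.AtPrime.to_map_mem_maximal_iff (DP F P) P a, hϖ, ← hau,
          Ideal.mem_span_singleton]
        exact Dvd.intro _ rfl
      · rw [← hau, mul_comm]
    · intro x hx
      rw [← Ideal.mem_span_singleton, ← hϖ]
      exact (IsLocalization.AtPrime.to_map_mem_maximal_iff (DP F P) P x).mpr hx
  · obtain ⟨ld⟩ := exists_locData_good (D := DP F P) hS hL hδ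
    exact ⟨{
      Ix := ι
      Iy := Empty
      fx := inferInstance
      fy := inferInstance
      dx := inferInstance
      dy := inferInstance
      ϖ := 0
      ld := ld
      unif := fun h => (IsEmpty.false h.some).elim
      hϖ := ⟨0, P.zero_mem, 1, fun h => hPp.ne_top ((Ideal.eq_top_iff_one _).mpr h), by simp⟩
      bad := Or.inl inferInstance }⟩

end Packs

end Pool.Agent.H97.NF
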