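import Pool.Agent.H97.NF.HasCharts

/-!
# Function fields of quadrics over number fields
-/

set_option autoImplicit false

namespace Pool.Agent.H97.NF

open MvPolynomial NumberField
open Pool.Agent.H19.OG

/-- Transcendence degree of a hypersurface. -/
theorem exists_algebraicIndependent {F : Type} [Field F] {n : ℕ} (f : MvPolynomial (Fin n) F)
    {K : Type} [Field K] [Algebra F K] (φ : MvPolynomial (Fin n) F →ₐ[F] K)
    (hφ : ∀ g, φ g = 0 ↔ f ∣ g) :
    ∃ (κ : Type) (_ : Finite κ) (x : κ → K), AlgebraicIndependent F x ∧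
      n + 1 ≤ Nat.card κ + 2 := by
  classical
  by_cases hf : f = 0
  · refine ⟨Fin n, inferInstance, fun i => φ (X i), ?_, by simp⟩
    rw [algebraicIndependent_iff]
    intro p hp
    have h1 : aeval (fun i => φ (X i)) p = φ p := by
      rw [← MvPolynomial.comp_aeval_apply, MvPolynomial.aeval_X_left_apply]
    rw [h1, hφ, hf, zero_dvd_iff] at hp
    exact hp
  · have hu : ¬ IsUnit f := by
      intro h
      have h1 := (hφ 1).mpr (isUnit_iff_dvd_one.mp h)
      rw [map_one] at h1
      exact one_ne_zero h1
    obtain ⟨i, hi⟩ : f.vars.Nonempty := by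
      rw [Finset.nonempty_iff_ne_empty]
      intro h
      rw [MvPolynomial.vars_eq_empty_iff_eq_C] at h
      apply hu
      rw [h]
      refine (isUnit_iff_ne_zero.mpr ?_).map C
      intro h0
      apply hf
      rw [h, h0, map_zero]
    refine ⟨{j : Fin n // j ≠ i}, inferInstance, fun j => φ (X j.1), ?_, ?_⟩
    · rw [algebraicIndependent_iff]
      intro p hp
      have h1 : aeval (fun j : {j : Fin n // j ≠ i} => φ (X j.1)) p =
          φ (rename Subtype.val p) := by
        rw [← MvPolynomial.aeval_X_left_apply (rename Subtype.val p), MvPolynomial.comp_aeval_apply,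
          MvPolynomial.aeval_rename]
        rfl
      rw [h1, hφ] at hp
      obtain ⟨g, hg⟩ := hp
      by_contra hp0
      have hr0 : rename (Subtype.val : {j : Fin n // j ≠ i} → Fin n) p ≠ 0 := by
        rw [Ne, map_eq_zero_iff _ (rename_injective _ Subtype.val_injective)]
        exact hp0
      have hg0 : g ≠ 0 := by
        rintro rfl
        rw [mul_zero] at hg
        exact hr0 hg
      have h2 : degreeOf i (rename (Subtype.val : {j : Fin n // j ≠ i} → Fin n) p) = 0 := by
        by_contra hne
        have hmem := MvPolynomial.mem_vars_iff_degreeOf_ne_zero.mpr hne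
        have h3 := MvPolynomial.vars_rename (Subtype.val : {j : Fin n // j ≠ i} → Fin n) p hmem
        rw [Finset.mem_image] at h3
        obtain ⟨j, _, hj⟩ := h3
        exact j.2 hj
      rw [hg, MvPolynomial.degreeOf_mul_eq hf hg0] at h2
      have h4 : degreeOf i f = 0 := by omega
      exact MvPolynomial.mem_vars_iff_degreeOf_ne_zero.mp hi h4
    · rw [Nat.card_eq_fintype_card, Fintype.card_subtype_compl, Fintype.card_subtype_eq,
        Fintype.card_fin]
      omega

/-- The affine equation of the quadric. -/
noncomputable def affq {F : Type} [Field F] {n : ℕ} (S : Matrix (Fin (n + 1)) (Fin (n + 1)) F) :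
    MvPolynomial (Fin n) F :=
  ∑ i, ∑ j, C (S i j) * ((Fin.cons 1 X : Fin (n + 1) → MvPolynomial (Fin n) F) i *
    (Fin.cons 1 X : Fin (n + 1) → MvPolynomial (Fin n) F) j)

theorem fracCharts_quadric {F : Type} [Field F] [NumberField F] {n : ℕ}
    (S : Matrix (Fin (n + 1)) (Fin (n + 1)) F) (hS : (S + S.transpose).det ≠ 0) :
    FracCharts (MvPolynomial (Fin n) F ⧸ Ideal.span {affq S}) := by
  intro K _ _ _
  let R := MvPolynomial (Fin n) F ⧸ Ideal.span {affq S}
  let _ : Algebra F K := ((algebraMap R K).comp (algebraMap F R)).toAlgebra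
  let φ : MvPolynomial (Fin n) F →ₐ[F] K :=
    { (algebraMap R K).comp (Ideal.Quotient.mk (Ideal.span {affq S})) with
      commutes' := fun r => rfl }
  have hφ' : ∀ g, φ g = algebraMap R K (Ideal.Quotient.mk _ g) := fun g => rfl
  have hinj : Function.Injective (algebraMap R K) := IsFractionRing.injective R K
  have hφ : ∀ g, φ g = 0 ↔ affq S ∣ g := by
    intro g
    rw [hφ', map_eq_zero_iff _ hinj, Ideal.Quotient.eq_zero_iff_mem, Ideal.mem_span_singleton]
  obtain ⟨κ, hκ, x, hx, hr⟩ := exists_algebraicIndependent (affq S) φ hφ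
  let _ : Algebra (𝓞 F) K := ((algebraMap F K).comp (algebraMap (𝓞 F) F)).toAlgebra
  have _ : IsScalarTower (𝓞 F) F K := IsScalarTower.of_algebraMap_eq fun r => rfl
  let t : Fin (n + 1) → K := fun i => φ ((Fin.cons 1 X : Fin (n + 1) → MvPolynomial (Fin n) F) i)
  refine hasCharts_main (A := 𝓞 F) (F := F) (S := S) (t := t) (i0 := 0) (x := x) ?_ hS ?_ ?_ ?_ hx ?_
  · intro P hP
    exact Ideal.finiteQuotientOfFreeOfNeBot P hP
  · have h1 : φ (affq S) = 0 := (hφ _).mpr (dvd_refl _)
    rw [← h1, affq, qf, map_sum]
    refine Finset.sum_congr rfl fun i _ => ?_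
    rw [map_sum]
    refine Finset.sum_congr rfl fun j _ => ?_
    rw [map_mul, map_mul]
    rfl
  · show φ _ = 1
    rw [Fin.cons_zero, map_one]
  · intro E hE1 hE2
    rw [eq_top_iff]
    intro y _
    have hall : ∀ p : MvPolynomial (Fin n) F, φ p ∈ E := by
      intro p
      induction p using MvPolynomial.induction_on with
      | C a => exact hE1 a
      | add p q hp hq => rw [map_add]; exact E.add_mem hp hq
      | mul_X p i hp =>
        rw [map_mul]
        refine E.mul_mem hp ?_
        have := hE2 i.succ
        simpa only [t, Fin.cons_succ] using this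
    obtain ⟨a, b, _, rfl⟩ := IsFractionRing.div_surjective (A := R) y
    obtain ⟨a', rfl⟩ := Ideal.Quotient.mk_surjective a
    obtain ⟨b', rfl⟩ := Ideal.Quotient.mk_surjective b
    exact E.div_mem (hall a') (hall b')
  · rw [Nat.card_eq_fintype_card, Fintype.card_fin]
    exact hr

/-- Regular models for fields isomorphic to the ring of fractions of `R`. -/
theorem FracCharts.hasCharts' {R : Type} [CommRing R] (h : FracCharts R) {K : Type} [Field K]
    (e : K ≃+* FractionRing R) : HasCharts K := by
  let _ : Algebra R K := (e.symm.toRingHom.comp (algebraMap R (FractionRing R))).toAlgebra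
  let e' : FractionRing R ≃ₐ[R] K := { e.symm with commutes' := fun r => rfl }
  have : IsFractionRing R K := IsLocalization.isLocalization_of_algEquiv (nonZeroDivisors R) e'
  exact h K

end Pool.Agent.H97.NF
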